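import Pool.Agent.Run7.h211.GL.Nec2

/-! Linear stability needs both kinds of members. -/

set_option autoImplicit false
set_option maxRecDepth 100000
set_option maxHeartbeats 4000000
open Finset
open scoped Classical

namespace Pool.Agent.Run7.h211.GL
open Pool.Agent.TH773 Pool.Agent.TH773.ST Pool.Agent.H122R2.N6 Pool.Agent.H37R3.Pen
open Pool.Agent.H37R3.Cop Pool.Agent.H37R3.CopL Pool.Agent.Y878.EX

/-- the sizes of the classes -/
def szs (κ : Bool) (K m : ℕ) (a : Fin 5) : ℕ :=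
  if a = 0 then (if κ = true then (K + 1) * m else K * m)
  else if a = 1 then (if κ = true then (K + 1) * m else (K + 2) * m)
  else if a = 2 then (K + 2) * m else m

theorem sum_szs (κ : Bool) (K m : ℕ) : ∑ a, szs κ K m a = 3 * (K + 2) * m := by
  rw [Fin.sum_univ_five]
  rcases κ with _ | _ <;> simp [szs] <;> ring

theorem szs_val (κ : Bool) (K m : ℕ) : szs κ K m 0 = (if κ = true then (K + 1) * m else K * m) ∧
    szs κ K m 1 = (if κ = true then (K + 1) * m else (K + 2) * m) ∧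
    szs κ K m 2 = (K + 2) * m ∧ szs κ K m 3 = m ∧ szs κ K m 4 = m := by
  refine ⟨?_, ?_, ?_, ?_, ?_⟩ <;> simp [szs]

theorem two_small : ∀ x y z : Fin 5, (x = 3 ∨ y = 3 ∨ z = 3) ∧ (x = 4 ∨ y = 4 ∨ z = 4) →
    ((y = 3 ∨ y = 4) ∨ (z = 3 ∨ z = 4)) ∧ ((x = 3 ∨ x = 4) ∨ (z = 3 ∨ z = 4)) ∧
      ((x = 3 ∨ x = 4) ∨ (y = 3 ∨ y = 4)) := by decide +kernel

section
variable {k n : ℕ} {L : List (Finset (Finset (Fin k)))} {κ : Bool} {h : Fin n → Fin 5}

theorem wrong_le (v : Fin n) : wrong (gph (EK κ h)) (gK κ h) v ≤ (sz h 3 + sz h 4) * n := by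
  unfold wrong
  have hsub : ((symmDiff (gph (EK κ h)) (Turan34.turan (gK κ h))).filter fun e => v ∈ e) ⊆
      (((univ : Finset (Fin n)).filter fun x => h x = 3 ∨ h x = 4) ×ˢ
        (univ : Finset (Fin n))).image fun p => {v, p.1, p.2} := by
    intro e he
    obtain ⟨he1, hv⟩ := mem_filter.mp he
    have h3 : e.card = 3 := by
      rw [mem_symmDiff] at he1
      rcases he1 with he1 | he1
      exacts [gph_card EK_sy EK_dg e he1.1, Pool.Agent.Y878.EX.turan_card he1.1]
    obtain ⟨a, b, c, hab, hac, hbc, rfl⟩ := Finset.card_eq_three.mp h3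
    rw [mem_symmDiff, mem_gph_iff EK_sy EK_dg, Pool.Agent.Y878.EX.mem_turan hab hac hbc,
      EK_of hab hac hbc] at he1
    have hne : Pk κ (h a) (h b) (h c) ≠ Rf (pr κ (h a)) (pr κ (h b)) (pr κ (h c)) := by
      intro heq
      unfold gK at he1
      rw [heq] at he1
      rcases he1 with he1 | he1
      exacts [he1.2 he1.1, he1.2 he1.1]
    obtain ⟨s1, s2, s3⟩ := two_small _ _ _ (df_col κ _ _ _ hne)
    have key : ∀ x y : Fin n, ({v, x, y} : Finset (Fin n)) = {a, b, c} →
        ((h x = 3 ∨ h x = 4) ∨ (h y = 3 ∨ h y = 4)) → ({a, b, c} : Finset (Fin n)) ∈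
        (((univ : Finset (Fin n)).filter fun x => h x = 3 ∨ h x = 4) ×ˢ
          (univ : Finset (Fin n))).image fun p => {v, p.1, p.2} := by
      intro x y hxy hh
      rw [mem_image]
      rcases hh with hh | hh
      · exact ⟨(x, y), mem_product.mpr ⟨mem_filter.mpr ⟨mem_univ _, hh⟩, mem_univ _⟩, hxy⟩
      · refine ⟨(y, x), mem_product.mpr ⟨mem_filter.mpr ⟨mem_univ _, hh⟩, mem_univ _⟩, ?_⟩
        rw [← hxy]
        show ({v, y, x} : Finset (Fin n)) = {v, x, y}
        rw [pair_comm]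
    simp only [mem_insert, mem_singleton] at hv
    rcases hv with rfl | rfl | rfl
    · exact key b c rfl s1
    · exact key a c (insert_comm _ _ _) s2
    · refine key a b ?_ s3
      rw [insert_comm, pair_comm]
  refine (card_le_card hsub).trans (card_image_le.trans ?_)
  rw [card_product, card_univ, Fintype.card_fin]
  refine Nat.mul_le_mul_right _ ?_
  unfold sz
  rw [filter_or]
  exact card_union_le _ _

theorem symm_card (H T : Finset (Finset (Fin n))) : (symmDiff H T).card =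
    (H \ T).card + (T \ H).card := by
  rw [symmDiff_def, sup_eq_union, card_union_of_disjoint]
  rw [disjoint_left]
  intro e he he'
  exact (mem_sdiff.mp he').2 (mem_sdiff.mp he).1

theorem exists_bad (hNT : NotTuran L) (hA : κ = false → ¬ HasA L) (hB : κ = true → ¬ HasB L)
    (K m : ℕ) (hm : 1 ≤ m) (hn : n = 3 * (K + 2) * m) : ∃ (H : Finset (Finset (Fin n)))
      (g : Fin n → Fin 3), (∀ e ∈ H, e.card = 3) ∧ Turan34.K43Free H ∧
      (∀ v, wrong H g v ≤ 2 * m * n) ∧
      (∀ p : Fin 3, ((univ : Finset (Fin n)).filter fun i => g i = p).card = (K + 2) * m) ∧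
      n ^ 3 * Turan34.copies L H ≤ k ^ 3 * (2 * m ^ 3) * n ^ k ∧
      (Turan34.turan g).card ≤ H.card + 2 * m ^ 3 ∧
      (∀ g' : Fin n → Fin 3, K * m ^ 3 ≤ 72 * (symmDiff H (Turan34.turan g')).card) := by
  obtain ⟨h, hh⟩ := exists_col n (szs κ K m) ((sum_szs κ K m).trans hn.symm)
  obtain ⟨v0, v1, v2, v3, v4⟩ := szs_val κ K m
  have h0 := (hh 0).trans v0
  have h1 := (hh 1).trans v1
  have h2 := (hh 2).trans v2
  have h3 := (hh 3).trans v3
  have h4 := (hh 4).trans v4
  have htri : tri (gph (EK κ h)) = EK κ h := by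
    funext a b c
    exact tri_gph EK_sy EK_dg a b c
  have hH := gph_card (E := EK κ h) EK_sy EK_dg
  refine ⟨gph (EK κ h), gK κ h, hH, gph_free EK_sy EK_dg EK_k4, ?_, ?_, ?_, ?_, ?_⟩
  · intro v
    refine wrong_le v |>.trans (le_of_eq ?_)
    rw [h3, h4]
    ring
  · intro p
    rw [card_part, Fin.sum_univ_five, h0, h1, h2, h3, h4]
    rcases κ with _ | _ <;> fin_cases p <;> simp [pr] <;> ring
  · have h5 := cpE_le (V := Fin n) (h := h) hNT hA hB
    rw [Fintype.card_fin, h3, h4] at h5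
    refine (Nat.mul_le_mul_left _ (copies_gph EK_sy EK_dg L)).trans (h5.trans (le_of_eq ?_))
    ring
  · have e1 := S3_gph (E := EK κ h) EK_sy EK_dg
    have e2 : S3 (Tg (gK κ h)) = 6 * (Turan34.turan (gK κ h)).card := by
      rw [← S3_tri (fun e he => Pool.Agent.Y878.EX.turan_card he)]
      unfold S3
      exact sum_congr rfl fun x _ => sum_congr rfl fun y _ => sum_congr rfl fun z _ =>
        (tri_turan (gK κ h) x y z).symm
    have e3 : S3 (EK κ h) + S3 (mx (EK κ h) (gK κ h)) =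
        S3 (Tg (gK κ h)) + S3 (bx (EK κ h) (gK κ h)) := by
      rw [← S3_add, ← S3_add]
      unfold S3
      exact sum_congr rfl fun x _ => sum_congr rfl fun y _ => sum_congr rfl fun z _ =>
        balance EK_sy x y z
    rcases κ with _ | _
    · have e4 : S3 (mx (EK false h) (gK false h)) ≤ 6 * (sz h 3 * sz h 4 * sz h 1) := by
        rw [← S3_Jc]
        exact S3_le fun x y z => (mx_le x y z).trans (mA _ _ _)
      have e5 : 6 * (sz h 3 * sz h 4 * sz h 0) ≤ S3 (bx (EK false h) (gK false h)) := by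
        rw [← S3_Jc]
        exact S3_le fun x y z => bx_ge (by decide) (by decide) bA x y z
      rw [h3, h4, h1, if_neg (by decide)] at e4
      rw [h3, h4, h0, if_neg (by decide)] at e5
      have e6 : 6 * (m * m * ((K + 2) * m)) = 6 * (m * m * (K * m)) + 6 * (2 * m ^ 3) := by ring
      rw [e6] at e4
      omega
    · have e4 : S3 (mx (EK true h) (gK true h)) ≤ 6 * (sz h 3 * sz h 4 * sz h 2) +
          3 * (sz h 3 * sz h 3 * sz h 4) := by
        rw [← S3_Jc, ← S3_Jd, ← S3_add]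
        exact S3_le fun x y z => (mx_le x y z).trans (mB _ _ _)
      have e5 : 6 * (sz h 3 * sz h 4 * sz h 1) ≤ S3 (bx (EK true h) (gK true h)) := by
        rw [← S3_Jc]
        exact S3_le fun x y z => bx_ge (by decide) (by decide) bB x y z
      rw [h3, h4, h2] at e4
      rw [h3, h4, h1, if_pos rfl] at e5
      have e6 : 6 * (m * m * ((K + 2) * m)) + 3 * (m * m * m) =
        6 * (m * m * ((K + 1) * m)) + 9 * m ^ 3 := by ring
      rw [e6] at e4
      omega
  · intro g'
    have d1 := dist_ge (κ := κ) (h := h) g'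
    rw [Fintype.card_fin, h3, h4] at d1
    have d2 : S3 (bx (EK κ h) g') + S3 (mx (EK κ h) g') =
        6 * (symmDiff (gph (EK κ h)) (Turan34.turan g')).card := by
      rw [symm_card, mul_add, ← S3_bx_tri hH, ← S3_mx_tri, htri]
    rw [d2] at d1
    have d3 : K * m * ((K + 2) * m) ≤ (W2 κ h).card := by
      rcases κ with _ | _
      · rw [W2_A, h0, h2, if_neg (by decide)]
      · rw [W2_B, h2]
        have : K * m * ((K + 2) * m) + (K + 2) * m ≤ (K + 2) * m * ((K + 2) * m) := by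
          have : K * m + 1 ≤ (K + 2) * m := by nlinarith
          calc K * m * ((K + 2) * m) + (K + 2) * m = (K * m + 1) * ((K + 2) * m) := by ring
            _ ≤ _ := Nat.mul_le_mul_right _ this
        omega
    have d4 : m * (m * (K * m * ((K + 2) * m))) ≤ 4 * (n * (6 *
        (symmDiff (gph (EK κ h)) (Turan34.turan g')).card)) :=
      (Nat.mul_le_mul_left _ (Nat.mul_le_mul_left _ d3)).trans d1
    have hpos : 0 < (K + 2) * m := by positivity
    have e1 : m * (m * (K * m * ((K + 2) * m))) = (K + 2) * m * (K * m ^ 3) := by ring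
    have e2 : ∀ X : ℕ, 4 * (n * (6 * X)) = (K + 2) * m * (72 * X) := by
      intro X
      rw [hn]; ring
    rw [e1, e2] at d4
    exact Nat.le_of_mul_le_mul_left d4 hpos

/-- **necessity near Turán's construction** -/
theorem nec_local (hNT : NotTuran L) (hl : Local L) : HasA L ∧ HasB L := by
  obtain ⟨M, C, D, hl⟩ := hl
  have key : ∀ κ : Bool, ¬ ((κ = false → ¬ HasA L) ∧ (κ = true → ¬ HasB L)) := by
    rintro κ ⟨hA, hB⟩
    obtain ⟨K, hK⟩ : ∃ x : ℕ, x = M + 72 * (2 * C + D * (k ^ 3 * 2)) + 1 := ⟨_, rfl⟩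
    obtain ⟨m, hm⟩ : ∃ x : ℕ, x = M + 1 := ⟨_, rfl⟩
    obtain ⟨n, hn⟩ : ∃ x : ℕ, x = 3 * (K + 2) * m := ⟨_, rfl⟩
    obtain ⟨H, g, h1, h2, h3, h4, h5, h6, h7⟩ := exists_bad (κ := κ) hNT hA hB K m (by omega) hn
    have hMn : M ≤ n := by
      calc M ≤ 1 * m := by omega
        _ ≤ 3 * (K + 2) * m := Nat.mul_le_mul_right _ (by omega)
        _ = n := hn.symm
    have hw : ∀ v, M * wrong H g v ≤ n ^ 2 := by
      intro v
      calc M * wrong H g v ≤ M * (2 * m * n) := Nat.mul_le_mul_left _ (h3 v)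
        _ = (2 * M * m) * n := by ring
        _ ≤ (3 * (K + 2) * m) * n := by
            refine Nat.mul_le_mul_right _ (Nat.mul_le_mul_right _ ?_)
            omega
        _ = n ^ 2 := by rw [← hn]; ring
    have hp : ∀ p : Fin 3, 3 * n ≤ 10 * ((univ : Finset (Fin n)).filter fun i => g i = p).card := by
      intro p
      rw [h4, hn]
      have : 3 * (3 * (K + 2) * m) = 9 * ((K + 2) * m) := by ring
      rw [this]
      exact Nat.mul_le_mul_right _ (by norm_num)
    have h8 := hl n H g hMn h1 h2 hw hp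
    have h9 := h7 g
    have hm0 : 0 < m := by omega
    have hn0 : 0 < n := by
      rw [hn]
      exact Nat.mul_pos (Nat.mul_pos (by norm_num) (Nat.succ_pos _)) hm0
    have hnk : 0 < n ^ k := Nat.pow_pos hn0
    have a1 : n ^ k * (symmDiff H (Turan34.turan g)).card + C * (n ^ k * H.card) ≤
        C * (n ^ k * (H.card + 2 * m ^ 3)) + D * (k ^ 3 * (2 * m ^ 3) * n ^ k) :=
      h8.trans (Nat.add_le_add (Nat.mul_le_mul_left _ (Nat.mul_le_mul_left _ h6))
        (Nat.mul_le_mul_left _ h5))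
    have a2 : n ^ k * (symmDiff H (Turan34.turan g)).card ≤
        n ^ k * ((2 * C + D * (k ^ 3 * 2)) * m ^ 3) := by
      have e1 : C * (n ^ k * (H.card + 2 * m ^ 3)) + D * (k ^ 3 * (2 * m ^ 3) * n ^ k) =
        C * (n ^ k * H.card) + n ^ k * ((2 * C + D * (k ^ 3 * 2)) * m ^ 3) := by ring
      rw [e1] at a1
      omega
    have a3 := Nat.le_of_mul_le_mul_left a2 hnk
    have a4 : K * m ^ 3 ≤ 72 * ((2 * C + D * (k ^ 3 * 2)) * m ^ 3) :=
      h9.trans (Nat.mul_le_mul_left _ a3)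
    have e2 : 72 * ((2 * C + D * (k ^ 3 * 2)) * m ^ 3) =
      (72 * (2 * C + D * (k ^ 3 * 2))) * m ^ 3 := by ring
    rw [e2] at a4
    have hm3 : 0 < m ^ 3 := Nat.pow_pos hm0
    have a5 := Nat.le_of_mul_le_mul_right a4 hm3
    omega
  constructor
  · by_contra hA
    exact key false ⟨fun _ => hA, fun h => absurd h (by decide)⟩
  · by_contra hB
    exact key true ⟨fun h => absurd h (by decide), fun _ => hB⟩

/-- **necessity** -/
theorem nec_linear (hNT : NotTuran L) (hl : Linear L) : HasA L ∧ HasB L := by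
  obtain ⟨C, D, hl⟩ := hl
  have key : ∀ κ : Bool, ¬ ((κ = false → ¬ HasA L) ∧ (κ = true → ¬ HasB L)) := by
    rintro κ ⟨hA, hB⟩
    obtain ⟨K, hK⟩ : ∃ x : ℕ, x = 2 * (108 * C + D * (k ^ 3 * 2)) + 2 := ⟨_, rfl⟩
    obtain ⟨m, hm⟩ : ∃ x : ℕ, x = (57 * C + D) * (3 * (K + 2)) ^ 2 + 1 := ⟨_, rfl⟩
    obtain ⟨n, hn⟩ : ∃ x : ℕ, x = 3 * (K + 2) * m := ⟨_, rfl⟩
    obtain ⟨H, g, h1, h2, -, h4, h5, h6, h7⟩ := exists_bad (κ := κ) hNT hA hB K m (by omega) hn
    obtain ⟨g', hg'⟩ := hl n H h1 h2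
    have h9 := h7 g'
    have hm0 : 0 < m := by omega
    have hn0 : 0 < n := by
      rw [hn]
      exact Nat.mul_pos (Nat.mul_pos (by norm_num) (Nat.succ_pos _)) hm0
    have hnk : 0 < n ^ k := Nat.pow_pos hn0
    have hT : 5 * n ^ 3 ≤ 54 * (Turan34.turan g).card + 57 * n ^ 2 := by
      have h10 := S3_Tg_large g (by
        intro p
        have := h4 p
        unfold Pt
        rw [Fintype.card_fin, this, hn]
        have e : 3 * (K + 2) * m = 3 * ((K + 2) * m) := by ring
        rw [e]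
        omega)
      have e2 : S3 (Tg g) = 6 * (Turan34.turan g).card := by
        rw [← S3_tri (fun e he => Pool.Agent.Y878.EX.turan_card he)]
        unfold S3
        exact sum_congr rfl fun x _ => sum_congr rfl fun y _ => sum_congr rfl fun z _ =>
          (tri_turan g x y z).symm
      rw [e2, Fintype.card_fin] at h10
      omega
    have a1 : n ^ k * (54 * (symmDiff H (Turan34.turan g')).card + C * (54 * H.card)) ≤
        n ^ k * (C * (5 * n ^ 3) + D * (k ^ 3 * (2 * m ^ 3) + n ^ 2)) := by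
      have e1 : n ^ k * (54 * (symmDiff H (Turan34.turan g')).card + C * (54 * H.card)) =
        54 * (n ^ k * (symmDiff H (Turan34.turan g')).card) + 54 * (C * (n ^ k * H.card)) := by ring
      rw [e1]
      refine hg'.trans ?_
      have e2 : n ^ k * (C * (5 * n ^ 3) + D * (k ^ 3 * (2 * m ^ 3) + n ^ 2)) =
        5 * (C * n ^ (k + 3)) + D * (k ^ 3 * (2 * m ^ 3) * n ^ k + n ^ (k + 2)) := by ring
      rw [e2]
      exact Nat.add_le_add_left (Nat.mul_le_mul_left _ (Nat.add_le_add_right h5 _)) _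
    have a2 := Nat.le_of_mul_le_mul_left a1 hnk
    have a3 : C * (5 * n ^ 3) ≤ C * (54 * H.card + 108 * m ^ 3 + 57 * n ^ 2) :=
      Nat.mul_le_mul_left _ (by omega)
    have e3 : C * (54 * H.card + 108 * m ^ 3 + 57 * n ^ 2) =
      C * (54 * H.card) + 108 * C * m ^ 3 + 57 * C * n ^ 2 := by ring
    rw [e3] at a3
    have a4 : 54 * (symmDiff H (Turan34.turan g')).card ≤
        (108 * C + D * (k ^ 3 * 2)) * m ^ 3 + (57 * C + D) * n ^ 2 := by
      have e4 : (108 * C + D * (k ^ 3 * 2)) * m ^ 3 + (57 * C + D) * n ^ 2 =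
        108 * C * m ^ 3 + 57 * C * n ^ 2 + D * (k ^ 3 * (2 * m ^ 3) + n ^ 2) := by ring
      rw [e4]
      omega
    have a5 : (57 * C + D) * n ^ 2 ≤ m ^ 3 := by
      calc (57 * C + D) * n ^ 2 = ((57 * C + D) * (3 * (K + 2)) ^ 2) * m ^ 2 := by rw [hn]; ring
        _ ≤ m * m ^ 2 := Nat.mul_le_mul_right _ (by omega)
        _ = m ^ 3 := by ring
    have a6 : 3 * (K * m ^ 3) ≤ 4 * (((108 * C + D * (k ^ 3 * 2)) + 1) * m ^ 3) := by
      have e5 : (108 * C + D * (k ^ 3 * 2) + 1) * m ^ 3 =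
        (108 * C + D * (k ^ 3 * 2)) * m ^ 3 + m ^ 3 := by ring
      rw [e5]
      omega
    have hm3 : 0 < m ^ 3 := Nat.pow_pos hm0
    have e6 : 3 * (K * m ^ 3) = 3 * K * m ^ 3 := by ring
    have e7 : 4 * (((108 * C + D * (k ^ 3 * 2)) + 1) * m ^ 3) =
      (4 * ((108 * C + D * (k ^ 3 * 2)) + 1)) * m ^ 3 := by ring
    rw [e6, e7] at a6
    have a7 := Nat.le_of_mul_le_mul_right a6 hm3
    omega
  constructor
  · by_contra hA
    exact key false ⟨fun _ => hA, fun h => absurd h (by decide)⟩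
  · by_contra hB
    exact key true ⟨fun h => absurd h (by decide), fun _ => hB⟩

end
end Pool.Agent.Run7.h211.GL
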