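import Pool.Agent.Run7.h211.GL.Conv

/-! A pair of vertices in many wrong triples gives an induced copy of a switched structure. -/

set_option autoImplicit false
set_option maxRecDepth 100000
set_option maxHeartbeats 4000000
open Finset
open scoped Classical

namespace Pool.Agent.Run7.h211.GL
open Pool.Agent.TH773 Pool.Agent.TH773.ST Pool.Agent.H122R2.N6 Pool.Agent.H37R3.Pen
open Pool.Agent.H37R3.Cop Pool.Agent.H37R3.CopL Pool.Agent.Y878.EX

section
variable {k : ℕ} {c : Fin k → Fin 3} {x0 y0 : Fin k}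

theorem card3 {a b d : Fin k} (hab : a ≠ b) (had : a ≠ d) (hbd : b ≠ d) :
    ({a, b, d} : Finset (Fin k)).card = 3 := by
  rw [card_insert_of_notMem, card_insert_of_notMem, card_singleton]
  · simpa using hbd
  · simpa using ⟨hab, had⟩

theorem mem_sw_pair (h0 : x0 ≠ y0) {z : Fin k} (hzx : z ≠ x0) (hzy : z ≠ y0) :
    ({x0, y0, z} : Finset (Fin k)) ∈ sw c x0 y0 ↔ (c z = c x0 ∨ c z = c y0) := by
  unfold sw
  rw [mem_filter, mem_powersetCard]
  constructor
  · rintro ⟨-, h⟩
    rw [if_pos ⟨by simp, by simp⟩] at h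
    obtain ⟨u, hu, h1, h2, h3⟩ := h
    simp only [mem_insert, mem_singleton] at hu
    rcases hu with rfl | rfl | rfl
    · exact absurd rfl h1
    · exact absurd rfl h2
    · exact h3
  · intro h
    refine ⟨⟨subset_univ _, card3 h0 hzx.symm hzy.symm⟩, ?_⟩
    rw [if_pos ⟨by simp, by simp⟩]
    exact ⟨z, by simp, hzx, hzy, h⟩

theorem mem_sw_other {a b d : Fin k} (hab : a ≠ b) (had : a ≠ d) (hbd : b ≠ d)
    (h : ¬ (x0 ∈ ({a, b, d} : Finset (Fin k)) ∧ y0 ∈ ({a, b, d} : Finset (Fin k)))) :
    ({a, b, d} : Finset (Fin k)) ∈ sw c x0 y0 ↔ Rf (c a) (c b) (c d) = 1 := by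
  unfold sw
  rw [mem_filter, mem_powersetCard, if_neg h,
    Pool.Agent.Y878.EX.mem_turan hab had hbd]
  exact ⟨fun h => h.2, fun h => ⟨⟨subset_univ _, card3 hab had hbd⟩, h⟩⟩

theorem Rf_rot : ∀ a b d s : Fin 3, Rf (a + s) (b + s) (d + s) = Rf a b d := by decide

variable {V : Type} {E : V → V → V → ℕ}

/-- a criterion for induced copies -/
theorem Ind.of {F : Finset (Finset (Fin k))} (hE : Sy E) {w : Fin k → V} (h0 : x0 ≠ y0)
    (hp : ∀ z, z ≠ x0 → z ≠ y0 → (E (w x0) (w y0) (w z) = 1 ↔ ({x0, y0, z} : Finset (Fin k)) ∈ F))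
    (ho : ∀ a b d, a ≠ b → a ≠ d → b ≠ d →
      ¬ (x0 ∈ ({a, b, d} : Finset (Fin k)) ∧ y0 ∈ ({a, b, d} : Finset (Fin k))) →
      (E (w a) (w b) (w d) = 1 ↔ ({a, b, d} : Finset (Fin k)) ∈ F)) : Ind F E w := by
  intro a b d hab had hbd
  by_cases h : x0 ∈ ({a, b, d} : Finset (Fin k)) ∧ y0 ∈ ({a, b, d} : Finset (Fin k))
  · obtain ⟨h1, h2⟩ := h
    simp only [mem_insert, mem_singleton] at h1 h2
    have s1 : ({b, a, d} : Finset (Fin k)) = {a, b, d} := insert_comm _ _ _
    have s2 : ({a, d, b} : Finset (Fin k)) = {a, b, d} := by rw [pair_comm]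
    have s3 : ({b, d, a} : Finset (Fin k)) = {a, b, d} := by rw [← s1, pair_comm]
    have s4 : ({d, a, b} : Finset (Fin k)) = {a, b, d} := by rw [insert_comm, s2]
    have s5 : ({d, b, a} : Finset (Fin k)) = {a, b, d} := by rw [insert_comm, s3]
    have e1 := hE.h213 (w a) (w b) (w d)
    have e2 := hE.h132 (w a) (w b) (w d)
    have e3 := hE.h231 (w a) (w b) (w d)
    have e4 := hE.h312 (w a) (w b) (w d)
    have e5 : E (w d) (w b) (w a) = E (w a) (w b) (w d) := by rw [hE.h213 (w b) (w d) (w a), e3]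
    rcases h1 with rfl | rfl | rfl <;> rcases h2 with rfl | rfl | rfl
    · exact absurd rfl h0
    · exact hp d had.symm hbd.symm
    · have := hp b hab.symm hbd
      rw [e2, s2] at this
      exact this
    · have := hp d hbd.symm had.symm
      rw [e1, s1] at this
      exact this
    · exact absurd rfl h0
    · have := hp a hab had
      rw [e3, s3] at this
      exact this
    · have := hp b hbd hab.symm
      rw [e4, s4] at this
      exact this
    · have := hp a had hab
      rw [e5, s5] at this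
      exact this
    · exact absurd rfl h0
  · exact ho a b d hab had hbd h

end

section
variable {V : Type} [Fintype V] {E : V → V → V → ℕ} {g : V → Fin 3} {k M : ℕ}

theorem two_inj {i j : Fin k} (hij : i ≠ j) : Function.Injective ![i, j] := by
  intro a b h
  fin_cases a <;> fin_cases b
  · rfl
  · exact absurd h hij
  · exact absurd h hij.symm
  · rfl

theorem three_inj {i j l : Fin k} (hij : i ≠ j) (hil : i ≠ l) (hjl : j ≠ l) :
    Function.Injective ![i, j, l] := by
  intro a b h
  fin_cases a <;> fin_cases b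
  · rfl
  · exact absurd h hij
  · exact absurd h hil
  · exact absurd h hij.symm
  · rfl
  · exact absurd h hjl
  · exact absurd h hil.symm
  · exact absurd h hjl.symm
  · rfl

theorem bad3 (hb : M * bad E g ≤ Fintype.card V ^ 3) {i j l : Fin k} (hij : i ≠ j) (hil : i ≠ l)
    (hjl : j ≠ l) : M * ((univ : Finset (Fin k → V)).filter fun w =>
      E (w i) (w j) (w l) ≠ Rf (g (w i)) (g (w j)) (g (w l))).card ≤ Fintype.card V ^ k := by
  have hk : 3 ≤ k := by
    have := Fintype.card_le_of_injective _ (three_inj hij hil hjl)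
    simpa using this
  have h1 := card_pullS (V := V) ![i, j, l] (three_inj hij hil hjl)
    ((univ : Finset (Fin k → V)).filter fun w =>
      E (w i) (w j) (w l) ≠ Rf (g (w i)) (g (w j)) (g (w l)))
    ((univ : Finset (Fin 3 → V)).filter fun t => E (t 0) (t 1) (t 2) ≠ Rf (g (t 0)) (g (t 1)) (g (t 2)))
    (fun w hw => mem_filter.mpr ⟨mem_univ _, (mem_filter.mp hw).2⟩)
  calc _ ≤ M * (bad E g * Fintype.card V ^ (k - 3)) := Nat.mul_le_mul_left _ h1
    _ = M * bad E g * Fintype.card V ^ (k - 3) := by ring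
    _ ≤ Fintype.card V ^ 3 * Fintype.card V ^ (k - 3) := Nat.mul_le_mul_right _ hb
    _ = Fintype.card V ^ k := by rw [← pow_add, Nat.add_sub_cancel' hk]

theorem bad2 (v : V) (hv : M * Dv E g v ≤ Fintype.card V ^ 2) {i j : Fin k} (hij : i ≠ j) :
    M * ((univ : Finset (Fin k → V)).filter fun w =>
      E (w i) (w j) v ≠ Rf (g (w i)) (g (w j)) (g v)).card ≤ Fintype.card V ^ k := by
  have hk : 2 ≤ k := by
    have := Fintype.card_le_of_injective _ (two_inj hij)
    simpa using this
  have h1 := card_pullS (V := V) ![i, j] (two_inj hij)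
    ((univ : Finset (Fin k → V)).filter fun w => E (w i) (w j) v ≠ Rf (g (w i)) (g (w j)) (g v))
    ((univ : Finset (Fin 2 → V)).filter fun t => E (t 0) (t 1) v ≠ Rf (g (t 0)) (g (t 1)) (g v))
    (fun w hw => mem_filter.mpr ⟨mem_univ _, (mem_filter.mp hw).2⟩)
  calc _ ≤ M * (Dv E g v * Fintype.card V ^ (k - 2)) := Nat.mul_le_mul_left _ h1
    _ = M * Dv E g v * Fintype.card V ^ (k - 2) := by ring
    _ ≤ Fintype.card V ^ 2 * Fintype.card V ^ (k - 2) := Nat.mul_le_mul_right _ hv
    _ = Fintype.card V ^ k := by rw [← pow_add, Nat.add_sub_cancel' hk]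

theorem card_val' (a : V) : ((univ : Finset (Fin 1 → V)).filter fun t => t 0 = a).card ≤ 1 := by
  refine card_le_one.mpr ?_
  intro s hs t ht
  funext i
  fin_cases i
  exact (mem_filter.mp hs).2.trans (mem_filter.mp ht).2.symm

theorem card_two' : ((univ : Finset (Fin 2 → V)).filter fun t => t 0 = t 1).card ≤
    Fintype.card V := by
  rw [← card_univ (α := V)]
  refine card_le_card_of_injOn (fun t => t 0) (fun _ _ => mem_univ _) ?_
  intro s hs t ht h
  have h1 := (mem_filter.mp (mem_coe.mp hs)).2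
  have h2 := (mem_filter.mp (mem_coe.mp ht)).2
  funext i
  fin_cases i
  · exact h
  · exact h1.symm.trans (h.trans h2)

theorem eq2 (hM : M ≤ Fintype.card V) {i j : Fin k} (hij : i ≠ j) :
    M * ((univ : Finset (Fin k → V)).filter fun w => w i = w j).card ≤ Fintype.card V ^ k := by
  have hk : 2 ≤ k := by
    have := Fintype.card_le_of_injective _ (two_inj hij)
    simpa using this
  have h1 := card_pullS (V := V) ![i, j] (two_inj hij)
    ((univ : Finset (Fin k → V)).filter fun w => w i = w j)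
    ((univ : Finset (Fin 2 → V)).filter fun t => t 0 = t 1)
    (fun w hw => mem_filter.mpr ⟨mem_univ _, (mem_filter.mp hw).2⟩)
  calc _ ≤ M * (Fintype.card V * Fintype.card V ^ (k - 2)) :=
        Nat.mul_le_mul_left _ (h1.trans (Nat.mul_le_mul_right _ card_two'))
    _ ≤ Fintype.card V * (Fintype.card V * Fintype.card V ^ (k - 2)) := Nat.mul_le_mul_right _ hM
    _ = Fintype.card V ^ 2 * Fintype.card V ^ (k - 2) := by ring
    _ = Fintype.card V ^ k := by rw [← pow_add, Nat.add_sub_cancel' hk]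

theorem eq1 (hM : M ≤ Fintype.card V) (v : V) (i : Fin k) :
    M * ((univ : Finset (Fin k → V)).filter fun w => w i = v).card ≤ Fintype.card V ^ k := by
  have hk : 1 ≤ k := by
    have := i.isLt
    omega
  have h1 := card_pullS (V := V) ![i] (fun a b _ => Subsingleton.elim a b)
    ((univ : Finset (Fin k → V)).filter fun w => w i = v)
    ((univ : Finset (Fin 1 → V)).filter fun t => t 0 = v)
    (fun w hw => mem_filter.mpr ⟨mem_univ _, (mem_filter.mp hw).2⟩)
  calc _ ≤ M * (1 * Fintype.card V ^ (k - 1)) :=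
        Nat.mul_le_mul_left _ (h1.trans (Nat.mul_le_mul_right _ (card_val' v)))
    _ ≤ Fintype.card V * (1 * Fintype.card V ^ (k - 1)) := Nat.mul_le_mul_right _ hM
    _ = Fintype.card V ^ 1 * Fintype.card V ^ (k - 1) := by ring
    _ = Fintype.card V ^ k := by rw [← pow_add, Nat.add_sub_cancel' hk]

/-- a union bound -/
theorem union_bound {ι : Type} (I : Finset ι) (f : ι → Finset (Fin k → V)) {N : ℕ}
    (h : ∀ i ∈ I, M * (f i).card ≤ N) : M * (I.biUnion f).card ≤ I.card * N := by
  calc M * (I.biUnion f).card ≤ M * ∑ i ∈ I, (f i).card := Nat.mul_le_mul_left _ card_biUnion_le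
    _ = ∑ i ∈ I, M * (f i).card := by rw [mul_sum]
    _ ≤ ∑ _i ∈ I, N := sum_le_sum h
    _ = I.card * N := by rw [sum_const, smul_eq_mul]

/-- the main step: an induced copy of a switched structure -/
theorem config {c : Fin k → Fin 3} {x0 y0 : Fin k} (h0 : x0 ≠ y0) (hE : Sy E)
    (nn : ∀ w : Fin k → V, Function.Injective w → ¬ Ind (sw c x0 y0) E w)
    {x y : V} (hxy : x ≠ y) {s : Fin 3} (hgx : g x = c x0 + s) (hgy : g y = c y0 + s)
    (S : Fin k → Finset V) (hS : ∀ j, j ≠ x0 → j ≠ y0 → ∀ v ∈ S j, g v = c j + s ∧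
      (E x y v = 1 ↔ (c j = c x0 ∨ c j = c y0)))
    (hv : ∀ v, M * Dv E g v ≤ Fintype.card V ^ 2) (hMn : M ≤ Fintype.card V) {q : ℕ}
    (hM : q ^ k * (k ^ 3 + 3 * k ^ 2 + 2 * k) < M)
    (hq : ∀ j, j ≠ x0 → j ≠ y0 → Fintype.card V ≤ q * (S j).card) (hq1 : 1 ≤ q) : False := by
  set n := Fintype.card V with hn
  have hb : M * bad E g ≤ n ^ 3 := by
    calc M * bad E g ≤ M * ∑ v, Dv E g v := Nat.mul_le_mul_left _ bad_eq_sum
      _ = ∑ v, M * Dv E g v := by rw [mul_sum]
      _ ≤ ∑ _v : V, n ^ 2 := sum_le_sum fun v _ => hv v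
      _ = n ^ 3 := by rw [sum_const, card_univ, smul_eq_mul]; ring
  let G : Finset (Fin k → V) := Fintype.piFinset fun j => if j = x0 ∨ j = y0 then univ else S j
  let I3 : Finset (Fin k × Fin k × Fin k) :=
    univ.filter fun p => p.1 ≠ p.2.1 ∧ p.1 ≠ p.2.2 ∧ p.2.1 ≠ p.2.2
  let I2 : Finset (Fin k × Fin k) := univ.filter fun p => p.1 ≠ p.2
  let B3 : Fin k × Fin k × Fin k → Finset (Fin k → V) := fun p => univ.filter fun w =>
    E (w p.1) (w p.2.1) (w p.2.2) ≠ Rf (g (w p.1)) (g (w p.2.1)) (g (w p.2.2))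
  let B2 : V → Fin k × Fin k → Finset (Fin k → V) := fun v p => univ.filter fun w =>
    E (w p.1) (w p.2) v ≠ Rf (g (w p.1)) (g (w p.2)) (g v)
  let N2 : Fin k × Fin k → Finset (Fin k → V) := fun p => univ.filter fun w => w p.1 = w p.2
  let N1 : V → Fin k → Finset (Fin k → V) := fun v i => univ.filter fun w => w i = v
  have hsub : G ⊆ I3.biUnion B3 ∪ (I2.biUnion (B2 x) ∪ (I2.biUnion (B2 y) ∪ (I2.biUnion N2 ∪
      (univ.biUnion (N1 x) ∪ univ.biUnion (N1 y))))) := by
    intro w hw
    by_contra hno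
    simp only [mem_union, mem_biUnion] at hno
    push Not at hno
    obtain ⟨h3, h2x, h2y, hn2, hnx, hny⟩ := hno
    have hwS : ∀ j, j ≠ x0 → j ≠ y0 → w j ∈ S j := by
      intro j hj1 hj2
      have := Fintype.mem_piFinset.mp hw j
      rwa [if_neg (by push Not; exact ⟨hj1, hj2⟩)] at this
    have r3 : ∀ a b d, a ≠ b → a ≠ d → b ≠ d →
        E (w a) (w b) (w d) = Rf (g (w a)) (g (w b)) (g (w d)) := by
      intro a b d hab had hbd
      by_contra h
      exact h3 (a, b, d) (mem_filter.mpr ⟨mem_univ _, hab, had, hbd⟩)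
        (mem_filter.mpr ⟨mem_univ _, h⟩)
    have rx : ∀ a b, a ≠ b → E (w a) (w b) x = Rf (g (w a)) (g (w b)) (g x) := by
      intro a b hab
      by_contra h
      exact h2x (a, b) (mem_filter.mpr ⟨mem_univ _, hab⟩) (mem_filter.mpr ⟨mem_univ _, h⟩)
    have ry : ∀ a b, a ≠ b → E (w a) (w b) y = Rf (g (w a)) (g (w b)) (g y) := by
      intro a b hab
      by_contra h
      exact h2y (a, b) (mem_filter.mpr ⟨mem_univ _, hab⟩) (mem_filter.mpr ⟨mem_univ _, h⟩)
    have winj : ∀ a b, a ≠ b → w a ≠ w b := fun a b hab h =>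
      hn2 (a, b) (mem_filter.mpr ⟨mem_univ _, hab⟩) (mem_filter.mpr ⟨mem_univ _, h⟩)
    have wx : ∀ a, w a ≠ x := fun a h => hnx a (mem_univ _) (mem_filter.mpr ⟨mem_univ _, h⟩)
    have wy : ∀ a, w a ≠ y := fun a h => hny a (mem_univ _) (mem_filter.mpr ⟨mem_univ _, h⟩)
    let w' : Fin k → V := fun i => if i = x0 then x else if i = y0 then y else w i
    have ex : w' x0 = x := if_pos rfl
    have ey : w' y0 = y := by simp only [w', if_neg (Ne.symm h0), if_true]
    have ez : ∀ i, i ≠ x0 → i ≠ y0 → w' i = w i := by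
      intro i h1 h2
      simp only [w', if_neg h1, if_neg h2]
    have hg' : ∀ i, g (w' i) = c i + s := by
      intro i
      by_cases h1 : i = x0
      · rw [h1, ex, hgx]
      · by_cases h2 : i = y0
        · rw [h2, ey, hgy]
        · rw [ez i h1 h2]
          exact (hS i h1 h2 _ (hwS i h1 h2)).1
    have hinj : Function.Injective w' := by
      intro i j hij
      by_contra hne
      by_cases h1 : i = x0
      · subst h1
        rw [ex] at hij
        by_cases h2 : j = y0
        · rw [h2, ey] at hij; exact hxy hij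
        · rw [ez j (Ne.symm hne) h2] at hij
          exact wx j hij.symm
      · by_cases h2 : i = y0
        · subst h2
          rw [ey] at hij
          by_cases h3 : j = x0
          · rw [h3, ex] at hij; exact hxy hij.symm
          · rw [ez j h3 (Ne.symm hne)] at hij
            exact wy j hij.symm
        · rw [ez i h1 h2] at hij
          by_cases h3 : j = x0
          · rw [h3, ex] at hij; exact wx i hij
          · by_cases h4 : j = y0
            · rw [h4, ey] at hij; exact wy i hij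
            · rw [ez j h3 h4] at hij
              exact winj i j hne hij
    -- the rule for the triples which do not contain both `x0` and `y0`
    have rule : ∀ a b d, a ≠ b → a ≠ d → b ≠ d →
        ¬ (x0 ∈ ({a, b, d} : Finset (Fin k)) ∧ y0 ∈ ({a, b, d} : Finset (Fin k))) →
        E (w' a) (w' b) (w' d) = Rf (g (w' a)) (g (w' b)) (g (w' d)) := by
      intro a b d hab had hbd hnot
      simp only [mem_insert, mem_singleton] at hnot
      by_cases ha : a = x0
      · have hb : b ≠ y0 := fun h => hnot ⟨Or.inl ha.symm, Or.inr (Or.inl h.symm)⟩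
        have hd : d ≠ y0 := fun h => hnot ⟨Or.inl ha.symm, Or.inr (Or.inr h.symm)⟩
        subst ha
        rw [ex, ez b hab.symm hb, ez d had.symm hd, ← hE.h231 x (w b) (w d), rx b d hbd,
          Rf_sy.h231]
      · by_cases ha' : a = y0
        · have hb : b ≠ x0 := fun h => hnot ⟨Or.inr (Or.inl h.symm), Or.inl ha'.symm⟩
          have hd : d ≠ x0 := fun h => hnot ⟨Or.inr (Or.inr h.symm), Or.inl ha'.symm⟩
          subst ha'
          rw [ey, ez b hb hab.symm, ez d hd had.symm, ← hE.h231 y (w b) (w d), ry b d hbd,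
            Rf_sy.h231]
        · rw [ez a ha ha']
          by_cases hb : b = x0
          · have hd : d ≠ y0 := fun h => hnot ⟨Or.inr (Or.inl hb.symm), Or.inr (Or.inr h.symm)⟩
            subst hb
            rw [ex, ez d hbd.symm hd, hE.h132 (w a) (w d) x, rx a d had, Rf_sy.h132]
          · by_cases hb' : b = y0
            · have hd : d ≠ x0 := fun h => hnot ⟨Or.inr (Or.inr h.symm), Or.inr (Or.inl hb'.symm)⟩
              subst hb'
              rw [ey, ez d hd hbd.symm, hE.h132 (w a) (w d) y, ry a d had, Rf_sy.h132]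
            · rw [ez b hb hb']
              by_cases hd : d = x0
              · subst hd
                rw [ex, rx a b hab]
              · by_cases hd' : d = y0
                · subst hd'
                  rw [ey, ry a b hab]
                · rw [ez d hd hd', r3 a b d hab had hbd]
    refine nn w' hinj (Ind.of hE h0 ?_ ?_)
    · intro z hzx hzy
      rw [mem_sw_pair h0 hzx hzy, ex, ey, ez z hzx hzy]
      exact (hS z hzx hzy _ (hwS z hzx hzy)).2
    · intro a b d hab had hbd hnot
      rw [mem_sw_other hab had hbd hnot, rule a b d hab had hbd hnot, hg', hg', hg', Rf_rot]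
  have c3 : I3.card ≤ k ^ 3 := by
    refine (card_le_univ _).trans (le_of_eq ?_)
    rw [Fintype.card_prod, Fintype.card_prod, Fintype.card_fin]; ring
  have c2 : I2.card ≤ k ^ 2 := by
    refine (card_le_univ _).trans (le_of_eq ?_)
    rw [Fintype.card_prod, Fintype.card_fin]; ring
  have u3 : M * (I3.biUnion B3).card ≤ k ^ 3 * n ^ k :=
    (union_bound I3 B3 fun p hp => bad3 hb (mem_filter.mp hp).2.1 (mem_filter.mp hp).2.2.1
      (mem_filter.mp hp).2.2.2).trans (Nat.mul_le_mul_right _ c3)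
  have ux : M * (I2.biUnion (B2 x)).card ≤ k ^ 2 * n ^ k :=
    (union_bound I2 (B2 x) fun p hp => bad2 x (hv x) (mem_filter.mp hp).2).trans
      (Nat.mul_le_mul_right _ c2)
  have uy : M * (I2.biUnion (B2 y)).card ≤ k ^ 2 * n ^ k :=
    (union_bound I2 (B2 y) fun p hp => bad2 y (hv y) (mem_filter.mp hp).2).trans
      (Nat.mul_le_mul_right _ c2)
  have un : M * (I2.biUnion N2).card ≤ k ^ 2 * n ^ k :=
    (union_bound I2 N2 fun p hp => eq2 hMn (mem_filter.mp hp).2).trans
      (Nat.mul_le_mul_right _ c2)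
  have v1 : ∀ v, M * ((univ : Finset (Fin k)).biUnion (N1 v)).card ≤ k * n ^ k := by
    intro v
    have := union_bound (univ : Finset (Fin k)) (N1 v) fun i _ => eq1 hMn v i
    rwa [card_univ, Fintype.card_fin] at this
  have hG : M * G.card ≤ (k ^ 3 + 3 * k ^ 2 + 2 * k) * n ^ k := by
    have t1 := card_le_card hsub
    have t2 := card_union_le (I3.biUnion B3) (I2.biUnion (B2 x) ∪ (I2.biUnion (B2 y) ∪
      (I2.biUnion N2 ∪ (univ.biUnion (N1 x) ∪ univ.biUnion (N1 y)))))
    have t3 := card_union_le (I2.biUnion (B2 x)) (I2.biUnion (B2 y) ∪ (I2.biUnion N2 ∪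
      (univ.biUnion (N1 x) ∪ univ.biUnion (N1 y))))
    have t4 := card_union_le (I2.biUnion (B2 y)) (I2.biUnion N2 ∪
      (univ.biUnion (N1 x) ∪ univ.biUnion (N1 y)))
    have t5 := card_union_le (I2.biUnion N2) (univ.biUnion (N1 x) ∪ univ.biUnion (N1 y))
    have t6 := card_union_le (univ.biUnion (N1 x)) (univ.biUnion (N1 y))
    have t7 : G.card ≤ (I3.biUnion B3).card + ((I2.biUnion (B2 x)).card +
      ((I2.biUnion (B2 y)).card + ((I2.biUnion N2).card + (((univ : Finset (Fin k)).biUnion
        (N1 x)).card + ((univ : Finset (Fin k)).biUnion (N1 y)).card)))) := by omega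
    have t8 := Nat.mul_le_mul_left M t7
    have vx := v1 x
    have vy := v1 y
    rw [mul_add, mul_add, mul_add, mul_add, mul_add] at t8
    have e : (k ^ 3 + 3 * k ^ 2 + 2 * k) * n ^ k = k ^ 3 * n ^ k + (k ^ 2 * n ^ k +
      (k ^ 2 * n ^ k + (k ^ 2 * n ^ k + (k * n ^ k + k * n ^ k)))) := by ring
    rw [e]
    omega
  have hbig : n ^ k ≤ q ^ k * G.card := by
    rw [Fintype.card_piFinset]
    have e1 : n ^ k = ∏ _j : Fin k, n := by rw [prod_const, card_univ, Fintype.card_fin]
    have e2 : q ^ k = ∏ _j : Fin k, q := by rw [prod_const, card_univ, Fintype.card_fin]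
    rw [e1, e2, ← prod_mul_distrib]
    refine prod_le_prod' fun j _ => ?_
    by_cases hj : j = x0 ∨ j = y0
    · rw [if_pos hj, card_univ]
      exact Nat.le_mul_of_pos_left _ hq1
    · rw [if_neg hj]
      push Not at hj
      exact hq j hj.1 hj.2
  have hnpos : 0 < n := Fintype.card_pos_iff.mpr ⟨x⟩
  have hnk : 0 < n ^ k := by positivity
  have f1 : M * n ^ k ≤ q ^ k * (k ^ 3 + 3 * k ^ 2 + 2 * k) * n ^ k := by
    calc M * n ^ k ≤ M * (q ^ k * G.card) := Nat.mul_le_mul_left _ hbig
      _ = q ^ k * (M * G.card) := by ring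
      _ ≤ q ^ k * ((k ^ 3 + 3 * k ^ 2 + 2 * k) * n ^ k) := Nat.mul_le_mul_left _ hG
      _ = _ := by ring
  have f2 := Nat.le_of_mul_le_mul_right f1 hnk
  omega

end
end Pool.Agent.Run7.h211.GL
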