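import Pool.Agent.Run7.h211.GL.Cmp

/-! Classes of 3-graphs without induced members of a list, and clones of a vertex. -/

set_option autoImplicit false
set_option maxRecDepth 100000
set_option maxHeartbeats 4000000
open Finset
open scoped Classical

namespace Pool.Agent.Run7.h211.GL
open Pool.Agent.TH773 Pool.Agent.TH773.ST Pool.Agent.H122R2.N6 Pool.Agent.H37R3.Pen
open Pool.Agent.H37R3.Cop Pool.Agent.H37R3.CopL Pool.Agent.Y878.EX

/-- the class: without `K_4^3` and without induced members of the list -/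
structure Cg {k : ℕ} (L : List (Finset (Finset (Fin k)))) {V : Type} (E : V → V → V → ℕ) : Prop where
  sy : Sy E
  k4 : NoK4 E
  dg : ∀ a b, E a a b = 0
  nn : ∀ F ∈ L, ∀ x : Fin k → V, Function.Injective x → ¬ Ind F E x

section
variable {k : ℕ} {L : List (Finset (Finset (Fin k)))}

theorem Cg.restrict {V W : Type} {E : V → V → V → ℕ} (hC : Cg L E) (p : W → V)
    (hp : Function.Injective p) : Cg L (fun a b c => E (p a) (p b) (p c)) where
  sy := ⟨fun _ _ _ => hC.sy.b _ _ _, fun _ _ _ => hC.sy.h213 _ _ _, fun _ _ _ => hC.sy.h132 _ _ _⟩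
  k4 := fun _ _ _ _ => hC.k4 _ _ _ _
  dg := fun _ _ => hC.dg _ _
  nn := fun F hF x hx hi => hC.nn F hF (p ∘ x) (hp.comp hx) hi

variable {V : Type} [Fintype V] {E : V → V → V → ℕ}

theorem cpE_zero (hC : Cg L E) : cpE L E = 0 := by
  unfold cpE
  rw [card_eq_zero, eq_empty_iff_forall_notMem]
  intro x hx
  rw [mem_tf] at hx
  obtain ⟨h1, F, hF, h2⟩ := hx
  exact hC.nn F hF x h1 h2

/-- the map from the structure with `m` clones of `v` -/
def pm (v : V) (m : ℕ) : V ⊕ Fin m → V := Sum.elim id (fun _ => v)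

omit [Fintype V] in
theorem pm_eq {v : V} {m : ℕ} {a b : V ⊕ Fin m} (h : pm v m a = pm v m b) (hab : a ≠ b) :
    pm v m a = v := by
  rcases a with a | a
  · rcases b with b | b
    · exact absurd (congrArg Sum.inl h) hab
    · exact h
  · rfl

theorem card_fib (v : V) (m : ℕ) :
    ((univ : Finset (V ⊕ Fin m)).filter fun a => pm v m a = v).card ≤ m + 1 := by
  have h1 : ((univ : Finset (V ⊕ Fin m)).filter fun a => pm v m a = v) ⊆
      insert (Sum.inl v) ((univ : Finset (Fin m)).map ⟨Sum.inr, Sum.inr_injective⟩) := by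
    intro a ha
    have ha' := (mem_filter.mp ha).2
    rw [mem_insert, mem_map]
    rcases a with a | a
    · left
      have : a = v := ha'
      rw [this]
    · right
      exact ⟨a, mem_univ _, rfl⟩
  refine (card_le_card h1).trans ((card_insert_le _ _).trans ?_)
  rw [card_map, card_univ, Fintype.card_fin]

theorem card_pairfib (v : V) (m : ℕ) {i j : Fin k} (hij : i ≠ j) :
    (Fintype.card V + m) ^ 2 * ((univ : Finset (Fin k → V ⊕ Fin m)).filter fun x =>
      pm v m (x i) = v ∧ pm v m (x j) = v).card ≤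
      (m + 1) ^ 2 * (Fintype.card V + m) ^ k := by
  have hk : 2 ≤ k := by
    have := Fintype.card_le_of_injective _ (two_inj hij)
    simpa using this
  let D := (univ : Finset (V ⊕ Fin m)).filter fun a => pm v m a = v
  have h1 := card_pullS (V := V ⊕ Fin m) ![i, j] (two_inj hij)
    ((univ : Finset (Fin k → V ⊕ Fin m)).filter fun x => pm v m (x i) = v ∧ pm v m (x j) = v)
    (Fintype.piFinset fun _ : Fin 2 => D) (by
      intro w hw
      have hw' := (mem_filter.mp hw).2
      refine Fintype.mem_piFinset.mpr fun l => ?_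
      fin_cases l
      · exact mem_filter.mpr ⟨mem_univ _, hw'.1⟩
      · exact mem_filter.mpr ⟨mem_univ _, hw'.2⟩)
  rw [Fintype.card_piFinset, prod_const, card_univ, Fintype.card_fin, Fintype.card_sum,
    Fintype.card_fin] at h1
  have h2 : D.card ^ 2 ≤ (m + 1) ^ 2 := Nat.pow_le_pow_left (card_fib v m) 2
  calc _ ≤ (Fintype.card V + m) ^ 2 * ((m + 1) ^ 2 * (Fintype.card V + m) ^ (k - 2)) :=
        Nat.mul_le_mul_left _ (h1.trans (Nat.mul_le_mul_right _ h2))
    _ = (m + 1) ^ 2 * ((Fintype.card V + m) ^ 2 * (Fintype.card V + m) ^ (k - 2)) := by ring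
    _ = _ := by rw [← pow_add, Nat.add_sub_cancel' hk]

/-- few tuples induce a listed structure in the structure with `m` clones of `v` -/
theorem cp_clone (hC : Cg L E) (v : V) (m : ℕ) :
    (Fintype.card V + m) ^ 2 * cpE L (fun a b c : V ⊕ Fin m => E (pm v m a) (pm v m b) (pm v m c)) ≤
      k ^ 2 * ((m + 1) ^ 2 * (Fintype.card V + m) ^ k) := by
  let I : Finset (Fin k × Fin k) := univ.filter fun p => p.1 ≠ p.2
  have hI : I.card ≤ k ^ 2 := by
    refine (card_le_univ _).trans (le_of_eq ?_)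
    rw [Fintype.card_prod, Fintype.card_fin]; ring
  let F : Fin k × Fin k → Finset (Fin k → V ⊕ Fin m) := fun p =>
    univ.filter fun x => pm v m (x p.1) = v ∧ pm v m (x p.2) = v
  have hsub : tf L (fun a b c : V ⊕ Fin m => E (pm v m a) (pm v m b) (pm v m c)) ⊆ I.biUnion F := by
    intro x hx
    rw [mem_tf] at hx
    obtain ⟨hinj, F', hF', hi⟩ := hx
    by_contra hno
    rw [mem_biUnion] at hno
    push Not at hno
    have hpi : Function.Injective (pm v m ∘ x) := by
      intro a b hab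
      by_contra hne
      have hxab : x a ≠ x b := fun h => hne (hinj h)
      have e1 : pm v m (x a) = v := pm_eq hab hxab
      have e2 : pm v m (x b) = v := pm_eq hab.symm hxab.symm
      exact hno (a, b) (mem_filter.mpr ⟨mem_univ _, hne⟩) (mem_filter.mpr ⟨mem_univ _, e1, e2⟩)
    exact hC.nn F' hF' (pm v m ∘ x) hpi hi
  have h1 : (Fintype.card V + m) ^ 2 * (I.biUnion F).card ≤
      I.card * ((m + 1) ^ 2 * (Fintype.card V + m) ^ k) := by
    calc (Fintype.card V + m) ^ 2 * (I.biUnion F).card ≤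
          (Fintype.card V + m) ^ 2 * ∑ i ∈ I, (F i).card := Nat.mul_le_mul_left _ card_biUnion_le
      _ = ∑ i ∈ I, (Fintype.card V + m) ^ 2 * (F i).card := by rw [mul_sum]
      _ ≤ ∑ _i ∈ I, (m + 1) ^ 2 * (Fintype.card V + m) ^ k :=
        sum_le_sum fun p hp => card_pairfib v m (mem_filter.mp hp).2
      _ = _ := by rw [sum_const, smul_eq_mul]
  exact (Nat.mul_le_mul_left _ (card_le_card hsub)).trans (h1.trans (Nat.mul_le_mul_right _ hI))

/-- structures of the class with many edges and large degrees -/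
structure Exg (L : List (Finset (Finset (Fin k)))) {V : Type} [Fintype V] (E : V → V → V → ℕ) :
    Prop where
  c : Cg L E
  tu : ∀ g : V → Fin 3, S3 (Tg g) ≤ S3 E
  dgr : ∀ v, 5 * Fintype.card V ^ 2 ≤ 9 * dgr E v + 40 * Fintype.card V

theorem Exg.low (h : Exg L E) : 5 * Fintype.card V ^ 3 ≤ 9 * S3 E + 57 * Fintype.card V ^ 2 := by
  obtain ⟨g, hg⟩ := exists_balanced V
  have h1 := S3_Tg_large g hg
  have h2 := h.tu g
  omega

/-- linear stability for functions, as a property -/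
def LinE (L : List (Finset (Finset (Fin k)))) (C D : ℕ) : Prop :=
  ∀ (V : Type) [Fintype V] (E : V → V → V → ℕ), Sy E → (∀ a b, E a a b = 0) → NoK4 E →
    ∃ g : V → Fin 3, 9 * (Fintype.card V ^ k * bad E g) + 9 * (C * (Fintype.card V ^ k * S3 E)) ≤
        5 * (C * Fintype.card V ^ (k + 3)) + D * (Fintype.card V ^ 3 * cpE L E +
          Fintype.card V ^ (k + 2)) + 27 * Fintype.card V ^ (k + 2)

/-- the constant -/
def KK (k C D : ℕ) : ℕ := 200 * C + 8 * k ^ 2 * D + 4 * D + 108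

theorem KK_pos (k C D : ℕ) : 1 ≤ KK k C D := by unfold KK; omega

/-- a colouring with few violations -/
theorem Exg.col {C D : ℕ} (hl : LinE L C D) (h : Exg L E) (hn : 0 < Fintype.card V) :
    ∃ g : V → Fin 3, bad E g ≤ KK k C D * Fintype.card V ^ 2 := by
  obtain ⟨g, hg⟩ := hl V E h.c.sy h.c.dg h.c.k4
  refine ⟨g, ?_⟩
  rw [cpE_zero h.c] at hg
  have hlow := h.low
  set n := Fintype.card V with hn'
  have hk : 0 < n ^ k := by positivity
  have h1 : n ^ k * (9 * bad E g + 9 * (C * S3 E)) ≤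
      n ^ k * (5 * (C * n ^ 3) + D * n ^ 2 + 27 * n ^ 2) := by
    have e1 : n ^ k * (9 * bad E g + 9 * (C * S3 E)) =
      9 * (n ^ k * bad E g) + 9 * (C * (n ^ k * S3 E)) := by ring
    have e2 : n ^ k * (5 * (C * n ^ 3) + D * n ^ 2 + 27 * n ^ 2) =
      5 * (C * n ^ (k + 3)) + D * (n ^ 3 * 0 + n ^ (k + 2)) + 27 * n ^ (k + 2) := by ring
    rw [e1, e2]
    exact hg
  have h2 := Nat.le_of_mul_le_mul_left h1 hk
  have h3 := Nat.mul_le_mul_left C hlow
  have e3 : C * (5 * n ^ 3) = 5 * (C * n ^ 3) := by ring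
  have e4 : C * (9 * S3 E + 57 * n ^ 2) = 9 * (C * S3 E) + 57 * (C * n ^ 2) := by ring
  rw [e3, e4] at h3
  have e5 : KK k C D * n ^ 2 = 200 * (C * n ^ 2) + 8 * k ^ 2 * D * n ^ 2 + 4 * (D * n ^ 2) +
      108 * n ^ 2 := by unfold KK; ring
  rw [e5]
  omega

theorem arith4 {n m S d C : ℤ} (hn : 0 < n) (hm : 0 < m) (hmn : m ≤ n) (hC : 0 ≤ C)
    (hS : 5 * n ^ 3 ≤ 9 * S + 57 * n ^ 2) (hd : 5 * n ^ 2 ≤ 9 * d + 40 * n) :
    5 * (C * (n + m) ^ 3) ≤ 9 * (C * (S + 3 * (m * d))) + C * (20 * (n * m ^ 2) + 177 * n ^ 2) := by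
  have h1 : 5 * (n + m) ^ 3 ≤ 9 * (S + 3 * (m * d)) + (20 * (n * m ^ 2) + 177 * n ^ 2) := by
    have a1 : 3 * (m * (5 * n ^ 2)) ≤ 3 * (m * (9 * d + 40 * n)) :=
      mul_le_mul_of_nonneg_left (mul_le_mul_of_nonneg_left hd hm.le) (by norm_num)
    have a2 : m ^ 3 ≤ n * m ^ 2 := by
      calc m ^ 3 = m * m ^ 2 := by ring
        _ ≤ n * m ^ 2 := mul_le_mul_of_nonneg_right hmn (by positivity)
    have a3 : m * n ≤ n ^ 2 := by
      calc m * n ≤ n * n := mul_le_mul_of_nonneg_right hmn hn.le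
        _ = n ^ 2 := by ring
    have e : 5 * (n + m) ^ 3 = 5 * n ^ 3 + 3 * (m * (5 * n ^ 2)) + 15 * (n * m ^ 2) + 5 * m ^ 3 := by
      ring
    have e2 : 3 * (m * (9 * d + 40 * n)) = 27 * (m * d) + 120 * (m * n) := by ring
    rw [e]
    rw [e2] at a1
    linarith
  calc 5 * (C * (n + m) ^ 3) = C * (5 * (n + m) ^ 3) := by ring
    _ ≤ C * (9 * (S + 3 * (m * d)) + (20 * (n * m ^ 2) + 177 * n ^ 2)) :=
        mul_le_mul_of_nonneg_left h1 hC
    _ = _ := by ring

/-- a colouring with few violations for the structure with `m` clones -/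
theorem Exg.colc {C D : ℕ} (hl : LinE L C D) (h : Exg L E) (v : V) {m : ℕ} (hm : 1 ≤ m)
    (hmn : m ≤ Fintype.card V) : ∃ g : V ⊕ Fin m → Fin 3,
      bad (fun a b c : V ⊕ Fin m => E (pm v m a) (pm v m b) (pm v m c)) g ≤
        KK k C D * (Fintype.card V * m ^ 2 + Fintype.card V ^ 2) := by
  have hE := h.c.sy
  obtain ⟨g, hg⟩ := hl (V ⊕ Fin m) (fun a b c => E (pm v m a) (pm v m b) (pm v m c))
    ⟨fun _ _ _ => hE.b _ _ _, fun _ _ _ => hE.h213 _ _ _, fun _ _ _ => hE.h132 _ _ _⟩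
    (fun _ _ => h.c.dg _ _) (fun _ _ _ _ => h.c.k4 _ _ _ _)
  refine ⟨g, ?_⟩
  rw [Fintype.card_sum, Fintype.card_fin] at hg
  have hcp := cp_clone h.c v m
  have hS : S3 E + 3 * (m * Pool.Agent.Y878.EX.dgr E v) ≤ S3 (fun a b c : V ⊕ Fin m =>
      E (pm v m a) (pm v m b) (pm v m c)) := S3_clone hE v m
  have hlow := h.low
  have hdg := h.dgr v
  generalize cpE L (fun a b c : V ⊕ Fin m => E (pm v m a) (pm v m b) (pm v m c)) = cp at hg hcp
  generalize S3 (fun a b c : V ⊕ Fin m => E (pm v m a) (pm v m b) (pm v m c)) = S' at hg hS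
  generalize bad (fun a b c : V ⊕ Fin m => E (pm v m a) (pm v m b) (pm v m c)) g = b at hg ⊢
  generalize Pool.Agent.Y878.EX.dgr E v = d at hS hdg
  generalize S3 E = S at hS hlow
  set n := Fintype.card V with hn'
  have hn0 : 0 < n := by omega
  set N := n + m with hN
  have hNpos : 0 < N := by omega
  have hk : 0 < N ^ k := by positivity
  -- divide by `N ^ k`
  have c1 : N ^ 3 * cp ≤ N ^ k * (k ^ 2 * ((m + 1) ^ 2 * N)) := by
    calc N ^ 3 * cp = N * (N ^ 2 * cp) := by ring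
      _ ≤ N * (k ^ 2 * ((m + 1) ^ 2 * N ^ k)) := Nat.mul_le_mul_left _ hcp
      _ = _ := by ring
  have h1 : N ^ k * (9 * b + 9 * (C * S')) ≤ N ^ k * (5 * (C * N ^ 3) +
      D * (k ^ 2 * ((m + 1) ^ 2 * N) + N ^ 2) + 27 * N ^ 2) := by
    have e1 : N ^ k * (9 * b + 9 * (C * S')) = 9 * (N ^ k * b) + 9 * (C * (N ^ k * S')) := by ring
    have e2 : N ^ k * (5 * (C * N ^ 3) + D * (k ^ 2 * ((m + 1) ^ 2 * N) + N ^ 2) + 27 * N ^ 2) =
      5 * (C * N ^ (k + 3)) + D * (N ^ k * (k ^ 2 * ((m + 1) ^ 2 * N)) + N ^ (k + 2)) +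
        27 * N ^ (k + 2) := by ring
    rw [e1, e2]
    refine hg.trans ?_
    have := Nat.mul_le_mul_left D (Nat.add_le_add_right c1 (N ^ (k + 2)))
    omega
  have h2 := Nat.le_of_mul_le_mul_left h1 hk
  have h3 : 5 * (C * N ^ 3) ≤ 9 * (C * (S + 3 * (m * d))) + C * (20 * (n * m ^ 2) + 177 * n ^ 2) := by
    have := arith4 (n := (n : ℤ)) (m := m) (S := S) (d := d) (C := C) (by exact_mod_cast hn0)
      (by exact_mod_cast hm) (by exact_mod_cast hmn) (by positivity) (by exact_mod_cast hlow)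
      (by exact_mod_cast hdg)
    rw [hN]
    exact_mod_cast this
  have h4 := Nat.mul_le_mul_left C hS
  -- the error terms
  have c3 : (m + 1) ^ 2 ≤ 4 * m ^ 2 := by
    calc (m + 1) ^ 2 ≤ (2 * m) ^ 2 := Nat.pow_le_pow_left (by omega) 2
      _ = _ := by ring
  have c4 : (m + 1) ^ 2 * N ≤ 8 * (n * m ^ 2) := by
    calc (m + 1) ^ 2 * N ≤ 4 * m ^ 2 * (2 * n) := Nat.mul_le_mul c3 (by omega)
      _ = _ := by ring
  have c5 : N ^ 2 ≤ 4 * n ^ 2 := by
    calc N ^ 2 ≤ (2 * n) ^ 2 := Nat.pow_le_pow_left (by omega) 2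
      _ = _ := by ring
  have c6 : D * (k ^ 2 * ((m + 1) ^ 2 * N) + N ^ 2) ≤ D * (k ^ 2 * (8 * (n * m ^ 2)) + 4 * n ^ 2) :=
    Nat.mul_le_mul_left _ (Nat.add_le_add (Nat.mul_le_mul_left _ c4) c5)
  have e3 : D * (k ^ 2 * (8 * (n * m ^ 2)) + 4 * n ^ 2) = 8 * k ^ 2 * D * (n * m ^ 2) +
      4 * (D * n ^ 2) := by ring
  have e4 : C * (20 * (n * m ^ 2) + 177 * n ^ 2) = 20 * (C * (n * m ^ 2)) + 177 * (C * n ^ 2) := by
    ring
  have e5 : KK k C D * (n * m ^ 2 + n ^ 2) = 200 * (C * (n * m ^ 2)) + 200 * (C * n ^ 2) +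
      8 * k ^ 2 * D * (n * m ^ 2) + 8 * k ^ 2 * D * n ^ 2 + 4 * (D * (n * m ^ 2)) +
        4 * (D * n ^ 2) + 108 * (n * m ^ 2) + 108 * n ^ 2 := by unfold KK; ring
  rw [e4] at h3
  rw [e3] at c6
  rw [e5]
  generalize C * (n * m ^ 2) = z1 at *
  generalize C * n ^ 2 = z2 at *
  generalize 8 * k ^ 2 * D * (n * m ^ 2) = z3 at *
  generalize 8 * k ^ 2 * D * n ^ 2 = z4 at *
  generalize D * (n * m ^ 2) = z5 at *
  generalize D * n ^ 2 = z6 at *
  generalize D * (k ^ 2 * ((m + 1) ^ 2 * N) + N ^ 2) = z7 at *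
  generalize C * (S + 3 * (m * d)) = z8 at *
  generalize C * S' = z9 at *
  generalize C * N ^ 3 = z10 at *
  omega

end

section
variable {V : Type} [Fintype V] {E : V → V → V → ℕ} {k : ℕ} {L : List (Finset (Finset (Fin k)))}

/-- six-tuples which do not follow the rule -/
theorem NT_le (g : V → Fin 3) : NT E ≤ 20 * (bad E g * Fintype.card V ^ 3) := by
  let I : Finset (Fin 6 × Fin 6 × Fin 6) := univ.filter fun p => p.1 < p.2.1 ∧ p.2.1 < p.2.2
  have hI : I.card = 20 := by decide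
  let F : Fin 6 × Fin 6 × Fin 6 → Finset (Fin 6 → V) := fun p => univ.filter fun s =>
    E (s p.1) (s p.2.1) (s p.2.2) ≠ Rf (g (s p.1)) (g (s p.2.1)) (g (s p.2.2))
  have hF : ∀ p ∈ I, (F p).card ≤ bad E g * Fintype.card V ^ 3 := by
    intro p hp
    obtain ⟨h1, h2⟩ := (mem_filter.mp hp).2
    refine card_pullS ![p.1, p.2.1, p.2.2] (three_inj h1.ne (h1.trans h2).ne h2.ne) (F p)
      ((univ : Finset (Fin 3 → V)).filter fun t => E (t 0) (t 1) (t 2) ≠
        Rf (g (t 0)) (g (t 1)) (g (t 2))) ?_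
    intro w hw
    exact mem_filter.mpr ⟨mem_univ _, (mem_filter.mp hw).2⟩
  have hsub : ((univ : Finset (Fin 6 → V)).filter fun x => ¬ TT E x) ⊆ I.biUnion F := by
    intro x hx
    have hx' := (mem_filter.mp hx).2
    by_contra hno
    rw [mem_biUnion] at hno
    push Not at hno
    refine hx' ⟨g ∘ x, fun i j l hij hjl => ?_⟩
    by_contra h
    exact hno (i, j, l) (mem_filter.mpr ⟨mem_univ _, hij, hjl⟩) (mem_filter.mpr ⟨mem_univ _, h⟩)
  unfold NT
  refine (card_le_card hsub).trans (card_biUnion_le.trans ((sum_le_sum hF).trans ?_))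
  rw [sum_const, hI, smul_eq_mul]

/-- five-tuples which do not follow the rule together with `v` -/
theorem NTv_le (g : V → Fin 3) (v : V) (d : Fin 3) : NTv E v ≤
    10 * (bad E g * Fintype.card V ^ 2) + 10 * ((Bv E g v d).card * Fintype.card V ^ 3) := by
  let I : Finset (Fin 5 × Fin 5 × Fin 5) := univ.filter fun p => p.1 < p.2.1 ∧ p.2.1 < p.2.2
  let J : Finset (Fin 5 × Fin 5) := univ.filter fun p => p.1 < p.2
  have hI : I.card = 10 := by decide
  have hJ : J.card = 10 := by decide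
  let F : Fin 5 × Fin 5 × Fin 5 → Finset (Fin 5 → V) := fun p => univ.filter fun s =>
    E (s p.1) (s p.2.1) (s p.2.2) ≠ Rf (g (s p.1)) (g (s p.2.1)) (g (s p.2.2))
  let G : Fin 5 × Fin 5 → Finset (Fin 5 → V) := fun p => univ.filter fun s =>
    E (s p.1) (s p.2) v ≠ Rf (g (s p.1)) (g (s p.2)) d
  have hF : ∀ p ∈ I, (F p).card ≤ bad E g * Fintype.card V ^ 2 := by
    intro p hp
    obtain ⟨h1, h2⟩ := (mem_filter.mp hp).2
    refine card_pullS ![p.1, p.2.1, p.2.2] (three_inj h1.ne (h1.trans h2).ne h2.ne) (F p)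
      ((univ : Finset (Fin 3 → V)).filter fun t => E (t 0) (t 1) (t 2) ≠
        Rf (g (t 0)) (g (t 1)) (g (t 2))) ?_
    intro w hw
    exact mem_filter.mpr ⟨mem_univ _, (mem_filter.mp hw).2⟩
  have hG : ∀ p ∈ J, (G p).card ≤ (Bv E g v d).card * Fintype.card V ^ 3 := by
    intro p hp
    have h1 := (mem_filter.mp hp).2
    refine card_pullS ![p.1, p.2] (two_inj h1.ne) (G p) (Bv E g v d) ?_
    intro w hw
    exact mem_filter.mpr ⟨mem_univ _, (mem_filter.mp hw).2⟩
  have hsub : ((univ : Finset (Fin 5 → V)).filter fun y =>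
      ¬ TT E ![y 0, y 1, y 2, y 3, y 4, v]) ⊆ I.biUnion F ∪ J.biUnion G := by
    intro y hy
    have hy' := (mem_filter.mp hy).2
    by_contra hno
    rw [mem_union, mem_biUnion, mem_biUnion] at hno
    push Not at hno
    obtain ⟨n1, n2⟩ := hno
    have r3 : ∀ a b c : Fin 5, a < b → b < c →
        E (y a) (y b) (y c) = Rf (g (y a)) (g (y b)) (g (y c)) := by
      intro a b c hab hbc
      by_contra h
      exact n1 (a, b, c) (mem_filter.mpr ⟨mem_univ _, hab, hbc⟩) (mem_filter.mpr ⟨mem_univ _, h⟩)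
    have r2 : ∀ a b : Fin 5, a < b → E (y a) (y b) v = Rf (g (y a)) (g (y b)) d := by
      intro a b hab
      by_contra h
      exact n2 (a, b) (mem_filter.mpr ⟨mem_univ _, hab⟩) (mem_filter.mpr ⟨mem_univ _, h⟩)
    refine hy' ⟨![g (y 0), g (y 1), g (y 2), g (y 3), g (y 4), d], ?_⟩
    intro i j l hij hjl
    fin_cases i <;> fin_cases j <;> first
      | exact absurd hij (by decide)
      | (fin_cases l <;> first
          | exact absurd hjl (by decide)
          | exact r3 0 1 2 (by decide) (by decide)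
          | exact r3 0 1 3 (by decide) (by decide)
          | exact r3 0 1 4 (by decide) (by decide)
          | exact r3 0 2 3 (by decide) (by decide)
          | exact r3 0 2 4 (by decide) (by decide)
          | exact r3 0 3 4 (by decide) (by decide)
          | exact r3 1 2 3 (by decide) (by decide)
          | exact r3 1 2 4 (by decide) (by decide)
          | exact r3 1 3 4 (by decide) (by decide)
          | exact r3 2 3 4 (by decide) (by decide)
          | exact r2 0 1 (by decide)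
          | exact r2 0 2 (by decide)
          | exact r2 0 3 (by decide)
          | exact r2 0 4 (by decide)
          | exact r2 1 2 (by decide)
          | exact r2 1 3 (by decide)
          | exact r2 1 4 (by decide)
          | exact r2 2 3 (by decide)
          | exact r2 2 4 (by decide)
          | exact r2 3 4 (by decide))
  unfold NTv
  refine (card_le_card hsub).trans ((card_union_le _ _).trans (Nat.add_le_add ?_ ?_))
  · refine card_biUnion_le.trans ((sum_le_sum hF).trans ?_)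
    rw [sum_const, hI, smul_eq_mul]
  · refine card_biUnion_le.trans ((sum_le_sum hG).trans ?_)
    rw [sum_const, hJ, smul_eq_mul]

/-- a clone with few violations -/
theorem exists_clone (v : V) {m : ℕ} (hm : 1 ≤ m) (g : V ⊕ Fin m → Fin 3) :
    bad E (g ∘ Sum.inl) ≤ bad (fun a b c : V ⊕ Fin m => E (pm v m a) (pm v m b) (pm v m c)) g ∧
    ∃ d, m * (Bv E (g ∘ Sum.inl) v d).card ≤
      bad (fun a b c : V ⊕ Fin m => E (pm v m a) (pm v m b) (pm v m c)) g := by
  constructor
  · unfold bad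
    refine card_le_card_of_injOn (fun t => Sum.inl ∘ t) ?_ ?_
    · intro t ht
      exact mem_coe.mpr (mem_filter.mpr ⟨mem_univ _, (mem_filter.mp (mem_coe.mp ht)).2⟩)
    · intro t _ t' _ h
      funext i
      exact Sum.inl_injective (congrFun h i)
  · have key : ∑ j : Fin m, (Bv E (g ∘ Sum.inl) v (g (Sum.inr j))).card ≤
        bad (fun a b c : V ⊕ Fin m => E (pm v m a) (pm v m b) (pm v m c)) g := by
      rw [← card_sigma]
      unfold bad
      refine card_le_card_of_injOn (fun p => ![Sum.inl (p.2 0), Sum.inl (p.2 1), Sum.inr p.1]) ?_ ?_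
      · rintro ⟨j, t⟩ hp
        have hp' := (mem_filter.mp (mem_sigma.mp (mem_coe.mp hp)).2).2
        exact mem_coe.mpr (mem_filter.mpr ⟨mem_univ _, hp'⟩)
      · rintro ⟨j, t⟩ _ ⟨j', t'⟩ _ h
        have h0 := Sum.inl_injective (congrFun h 0)
        have h1 := Sum.inl_injective (congrFun h 1)
        have h2 := Sum.inr_injective (congrFun h 2)
        simp only at h0 h1 h2
        subst h2
        have ht : t = t' := by
          funext i
          fin_cases i
          exacts [h0, h1]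
        rw [ht]
    have hne : (univ : Finset (Fin m)).Nonempty := ⟨⟨0, hm⟩, mem_univ _⟩
    obtain ⟨j, -, hj⟩ := exists_min_image univ
      (fun j : Fin m => (Bv E (g ∘ Sum.inl) v (g (Sum.inr j))).card) hne
    refine ⟨g (Sum.inr j), ?_⟩
    calc m * (Bv E (g ∘ Sum.inl) v (g (Sum.inr j))).card =
          ∑ _j : Fin m, (Bv E (g ∘ Sum.inl) v (g (Sum.inr j))).card := by
            rw [sum_const, card_univ, Fintype.card_fin, smul_eq_mul]
      _ ≤ ∑ j : Fin m, (Bv E (g ∘ Sum.inl) v (g (Sum.inr j))).card :=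
          sum_le_sum fun i hi => hj i hi
      _ ≤ _ := key

theorem arith5 {n m q K M B b b0 T : ℕ} (hq : q = 40 * K * M + 1) (hK : 1 ≤ K)
    (hn : 2 * q ^ 2 ≤ n) (hm : m = n / q) (hB : B ≤ K * (n * m ^ 2 + n ^ 2)) (hb0 : b0 ≤ B)
    (hb : m * b ≤ B) (hT : T ≤ 10 * (b0 * n ^ 2) + 10 * (b * n ^ 3)) : M * T ≤ n ^ 5 := by
  have hq0 : 0 < q := by omega
  have hqn : 2 * q ≤ n := by nlinarith
  have hm1 : q * m ≤ n := by rw [hm]; exact Nat.mul_div_le _ _
  have hm2 : n ≤ 2 * q * m := by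
    have h1 : n < q * (n / q + 1) := by
      have := Nat.lt_mul_div_succ n hq0
      simpa using this
    rw [← hm] at h1
    nlinarith
  have hm0 : 0 < m := by
    rcases Nat.eq_zero_or_pos m with h | h
    · rw [h] at hm2; omega
    · exact h
  have hmn : m ≤ n := by nlinarith
  -- the bound for `b0`
  have h1 : q * b0 ≤ 2 * K * n ^ 3 := by
    have a1 : q * (n * m ^ 2 + n ^ 2) ≤ 2 * n ^ 3 := by
      have a2 : q * (n * m ^ 2) ≤ n ^ 3 := by
        calc q * (n * m ^ 2) = n * (q * m) * m := by ring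
          _ ≤ n * n * n := Nat.mul_le_mul (Nat.mul_le_mul_left _ hm1) hmn
          _ = n ^ 3 := by ring
      have a3 : q * n ^ 2 ≤ n ^ 3 := by
        calc q * n ^ 2 ≤ n * n ^ 2 := Nat.mul_le_mul_right _ (by omega)
          _ = n ^ 3 := by ring
      calc q * (n * m ^ 2 + n ^ 2) = q * (n * m ^ 2) + q * n ^ 2 := by ring
        _ ≤ n ^ 3 + n ^ 3 := Nat.add_le_add a2 a3
        _ = _ := by ring
    calc q * b0 ≤ q * (K * (n * m ^ 2 + n ^ 2)) := Nat.mul_le_mul_left _ (hb0.trans hB)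
      _ = K * (q * (n * m ^ 2 + n ^ 2)) := by ring
      _ ≤ K * (2 * n ^ 3) := Nat.mul_le_mul_left _ a1
      _ = _ := by ring
  -- the bound for `b`
  have h2 : q * b ≤ 2 * K * n ^ 2 := by
    have a1 : m * b ≤ m * (K * (n * m + 2 * q * n)) := by
      calc m * b ≤ K * (n * m ^ 2 + n ^ 2) := hb.trans hB
        _ = K * (n * m ^ 2 + n * n) := by ring
        _ ≤ K * (n * m ^ 2 + n * (2 * q * m)) :=
            Nat.mul_le_mul_left _ (Nat.add_le_add_left (Nat.mul_le_mul_left _ hm2) _)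
        _ = _ := by ring
    have a2 := Nat.le_of_mul_le_mul_left a1 hm0
    calc q * b ≤ q * (K * (n * m + 2 * q * n)) := Nat.mul_le_mul_left _ a2
      _ = K * (n * (q * m) + (2 * q ^ 2) * n) := by ring
      _ ≤ K * (n * n + n * n) :=
          Nat.mul_le_mul_left _ (Nat.add_le_add (Nat.mul_le_mul_left _ hm1)
            (Nat.mul_le_mul_right _ hn))
      _ = _ := by ring
  have h3 : q * T ≤ 40 * K * n ^ 5 := by
    calc q * T ≤ q * (10 * (b0 * n ^ 2) + 10 * (b * n ^ 3)) := Nat.mul_le_mul_left _ hT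
      _ = 10 * (q * b0) * n ^ 2 + 10 * (q * b) * n ^ 3 := by ring
      _ ≤ 10 * (2 * K * n ^ 3) * n ^ 2 + 10 * (2 * K * n ^ 2) * n ^ 3 :=
          Nat.add_le_add (Nat.mul_le_mul_right _ (Nat.mul_le_mul_left _ h1))
            (Nat.mul_le_mul_right _ (Nat.mul_le_mul_left _ h2))
      _ = _ := by ring
  have h4 : 40 * K * (M * T) ≤ 40 * K * n ^ 5 := by
    calc 40 * K * (M * T) = 40 * K * M * T := by ring
      _ ≤ q * T := Nat.mul_le_mul_right _ (by omega)
      _ ≤ _ := h3
  exact Nat.le_of_mul_le_mul_left h4 (by positivity)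

/-- every vertex is in few wrong five-tuples -/
theorem Exg.ntv {C D : ℕ} (hl : LinE L C D) (h : Exg L E) (M : ℕ)
    (hn : 2 * (40 * KK k C D * M + 1) ^ 2 ≤ Fintype.card V) (v : V) :
    M * NTv E v ≤ Fintype.card V ^ 5 := by
  set q := 40 * KK k C D * M + 1 with hq
  have hq0 : 0 < q := by omega
  have hqn : q ≤ Fintype.card V := by nlinarith
  have hm : 1 ≤ Fintype.card V / q := (Nat.one_le_div_iff hq0).mpr hqn
  obtain ⟨g, hg⟩ := h.colc hl v hm (Nat.div_le_self _ _)
  obtain ⟨h1, d, h2⟩ := exists_clone (E := E) v hm g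
  exact arith5 hq (KK_pos k C D) hn rfl hg h1 h2 (NTv_le (g ∘ Sum.inl) v d)

end
end Pool.Agent.Run7.h211.GL
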