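import Pool.Agent.Run7.h211.GL.Hvy

/-! The number of extra edges is smaller than the number of missing edges (adapted from
`Pool.Agent.Y878.EX.Cmp`). -/

set_option autoImplicit false
set_option maxRecDepth 100000
set_option maxHeartbeats 4000000
open Finset
open scoped Classical

namespace Pool.Agent.Run7.h211.GL
open Pool.Agent.TH773 Pool.Agent.TH773.ST Pool.Agent.H122R2.N6 Pool.Agent.H37R3.Pen
open Pool.Agent.H37R3.Cop Pool.Agent.H37R3.CopL Pool.Agent.Y878.EX

section
variable {V : Type} [Fintype V] {E : V → V → V → ℕ} {g : V → Fin 3}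

/-- an extra edge forces missing edges -/
theorem forcedG (hC : Hv E g) {x y z : V} (hb : bx E g x y z = 1) :
    3 * Fintype.card V ≤
      10 * ((Ms E g x y).card + (Ms E g x z).card + (Ms E g y z).card) := by
  have hE := hC.sy
  have hb' : E x y z = 1 ∧ Tg g x y z = 0 := by
    unfold bx at hb
    by_contra h
    rw [if_neg h] at hb
    exact absurd hb (by decide)
  obtain ⟨h1, h2⟩ := hb'
  obtain ⟨hxy, hxz, hyz⟩ := dist_of_one hE hC.dg h1
  unfold Tg at h2
  rw [if_pos ⟨hxy, hxz, hyz⟩] at h2
  obtain ⟨k, k1, k2, k3, k4, k5, k6⟩ := Rf_zero_part _ _ _ h2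
  refine (hC.loc.lo k).trans (Nat.mul_le_mul_left _ ?_)
  have hsub : Pt g k ⊆ (Ms E g x y ∪ Ms E g x z) ∪ Ms E g y z := by
    intro w hw
    have hwk : g w = k := (mem_filter.mp hw).2
    have hwx : x ≠ w := fun e => k4 (by rw [e, hwk])
    have hwy : y ≠ w := fun e => k5 (by rw [e, hwk])
    have hwz : z ≠ w := fun e => k6 (by rw [e, hwk])
    by_contra hno
    rw [mem_union, mem_union] at hno
    push Not at hno
    obtain ⟨⟨m1, m2⟩, m3⟩ := hno
    have e1 : E x y w = 1 := by
      rcases hE.b x y w with h | h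
      · exfalso
        refine m1 (mem_filter.mpr ⟨mem_univ _, h, ?_⟩)
        unfold Tg
        rw [if_pos ⟨hxy, hwx, hwy⟩, hwk, k1]
      · exact h
    have e2 : E x z w = 1 := by
      rcases hE.b x z w with h | h
      · exfalso
        refine m2 (mem_filter.mpr ⟨mem_univ _, h, ?_⟩)
        unfold Tg
        rw [if_pos ⟨hxz, hwx, hwz⟩, hwk, k2]
      · exact h
    have e3 : E y z w = 1 := by
      rcases hE.b y z w with h | h
      · exfalso
        refine m3 (mem_filter.mpr ⟨mem_univ _, h, ?_⟩)
        unfold Tg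
        rw [if_pos ⟨hyz, hwy, hwz⟩, hwk, k3]
      · exact h
    have h3 := hC.k4 x y z w
    rw [h1, e1, e2, e3] at h3
    exact absurd h3 (by decide)
  refine (card_le_card hsub).trans ((card_union_le _ _).trans ?_)
  exact Nat.add_le_add_right (card_union_le _ _) _

/-- few extra edges in comparison with missing edges -/
theorem few_extraG (hC : Hv E g) :
    100 * S3 (bx E g) ≤ 81 * S3 (mx E g) := by
  have hE := hC.sy
  have hb := bx_sy (g := g) hE
  have hm := mx_sy (g := g) hE
  set n := Fintype.card V with hn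
  have hn4 := hC.loc.hn
  rw [← hn] at hn4
  -- sums over heavy pairs
  set A := S3 fun x y z => hx E g x y * bx E g x y z with hA
  set C := S3 fun x y z => hx E g x y * (lx E g x z * (lx E g y z * mx E g x y z)) with hCc
  set D := S3 fun x y z => lx E g x y * (lx E g x z * (lx E g y z * bx E g x y z)) with hDd
  set q := ∑ x, ∑ y, hx E g x y with hq
  have hA1 : 10 * A ≤ 4 * (n * q) := by
    have e1 : A = ∑ x, ∑ y, hx E g x y * (Bs E g x y).card := by
      rw [hA]
      unfold S3
      refine sum_congr rfl fun x _ => sum_congr rfl fun y _ => ?_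
      rw [← mul_sum, sum_bx]
    rw [e1, hq, mul_sum, mul_sum, mul_sum]
    refine sum_le_sum fun x _ => ?_
    rw [mul_sum, mul_sum, mul_sum]
    refine sum_le_sum fun y _ => ?_
    rcases hl (E := E) (g := g) x y with h | h
    · have := (hC.hv _ _ h.2.2).2
      rw [h.1]
      omega
    · rw [h.1, zero_mul, mul_zero]; exact Nat.zero_le _
  have hC1 : 57 * (n * q) ≤ 100 * C := by
    have e1 : C = ∑ x, ∑ y, hx E g x y * ∑ z, (lx E g x z * (lx E g y z * mx E g x y z)) := by
      rw [hCc]
      unfold S3
      refine sum_congr rfl fun x _ => sum_congr rfl fun y _ => ?_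
      rw [← mul_sum]
    rw [e1, hq, mul_sum, mul_sum, mul_sum]
    refine sum_le_sum fun x _ => ?_
    rw [mul_sum, mul_sum, mul_sum]
    refine sum_le_sum fun y _ => ?_
    rcases hl (E := E) (g := g) x y with h | h
    · have h1 := (hC.hv _ _ h.2.2).1
      rw [h.1]
      have h2 : (Ms E g x y).card ≤ ∑ z, (lx E g x z * (lx E g y z * mx E g x y z)) +
          (∑ z, hx E g x z + ∑ z, hx E g y z) := by
        rw [← sum_mx, ← sum_add_distrib, ← sum_add_distrib]
        refine sum_le_sum fun z _ => ?_
        rcases hl (E := E) (g := g) x z with h3 | h3 <;> rcases hl (E := E) (g := g) y z with h4 | h4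
        · rw [h3.1, h3.2.1, h4.1, h4.2.1]; rcases hm.b x y z with h5 | h5 <;> rw [h5] <;> omega
        · rw [h3.1, h3.2.1, h4.1, h4.2.1]; rcases hm.b x y z with h5 | h5 <;> rw [h5] <;> omega
        · rw [h3.1, h3.2.1, h4.1, h4.2.1]; rcases hm.b x y z with h5 | h5 <;> rw [h5] <;> omega
        · rw [h3.1, h3.2.1, h4.1, h4.2.1]; rcases hm.b x y z with h5 | h5 <;> rw [h5] <;> omega
      have h3 := sum_hx hE hC.dg hC.loc x
      have h4 := sum_hx hE hC.dg hC.loc y
      rw [← hn] at h1 h3 h4
      omega
    · rw [h.1, zero_mul, mul_zero]; exact Nat.zero_le _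
  have hC2 : 3 * C ≤ S3 (mx E g) := by
    have e2 : C = S3 fun x y z => hx E g x z * (lx E g x y * (lx E g z y * mx E g x z y)) := by
      rw [hCc]
      exact (S3_swap fun x y z => hx E g x y * (lx E g x z * (lx E g y z * mx E g x y z))).symm
    have e3 : C = S3 fun x y z => hx E g y z * (lx E g y x * (lx E g z x * mx E g y z x)) := by
      rw [hCc]
      exact (S3_rot fun x y z => hx E g x y * (lx E g x z * (lx E g y z * mx E g x y z))).symm
    have e4 : 3 * C = C + C + C := by ring
    rw [e4]
    nth_rewrite 2 [e2]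
    nth_rewrite 2 [e3]
    rw [hCc, ← S3_add, ← S3_add]
    refine S3_le fun x y z => ?_
    rw [lx_comm hE y z, lx_comm hE x y, lx_comm hE x z, hm.h132 x y z, hm.h231 x y z]
    rcases hl (E := E) (g := g) x y with h | h <;> rcases hl (E := E) (g := g) x z with h3 | h3 <;>
      rcases hl (E := E) (g := g) y z with h4 | h4 <;>
      rw [h.1, h.2.1, h3.1, h3.2.1, h4.1, h4.2.1] <;> omega
  have hB1 : S3 (bx E g) ≤ 3 * A + D := by
    have e2 : A = S3 fun x y z => hx E g x z * bx E g x z y := by
      rw [hA]
      exact (S3_swap fun x y z => hx E g x y * bx E g x y z).symm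
    have e3 : A = S3 fun x y z => hx E g y z * bx E g y z x := by
      rw [hA]
      exact (S3_rot fun x y z => hx E g x y * bx E g x y z).symm
    have e4 : 3 * A = A + A + A := by ring
    rw [e4]
    nth_rewrite 2 [e2]
    nth_rewrite 2 [e3]
    rw [hA, hDd, ← S3_add, ← S3_add, ← S3_add]
    refine S3_le fun x y z => ?_
    rw [hb.h132 x y z, hb.h231 x y z]
    rcases hl (E := E) (g := g) x y with h | h <;> rcases hl (E := E) (g := g) x z with h3 | h3 <;>
      rcases hl (E := E) (g := g) y z with h4 | h4 <;>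
      rw [h.1, h.2.1, h3.1, h3.2.1, h4.1, h4.2.1] <;> omega
  have hD1 : 10 * D ≤ S3 (mx E g) := by
    set F := S3 fun x y z => lx E g x y * (bx E g x y z * (Ms E g x y).card) with hF
    have f1 : 100 * F ≤ n * S3 (mx E g) := by
      have e1 : F = ∑ x, ∑ y, lx E g x y * ((Bs E g x y).card * (Ms E g x y).card) := by
        rw [hF]
        unfold S3
        refine sum_congr rfl fun x _ => sum_congr rfl fun y _ => ?_
        rw [← mul_sum, ← sum_mul, sum_bx]
      have e2 : S3 (mx E g) = ∑ x, ∑ y, (Ms E g x y).card := by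
        unfold S3
        refine sum_congr rfl fun x _ => sum_congr rfl fun y _ => ?_
        rw [sum_mx]
      rw [e1, e2, mul_sum, mul_sum]
      refine sum_le_sum fun x _ => ?_
      rw [mul_sum, mul_sum]
      refine sum_le_sum fun y _ => ?_
      rcases hl (E := E) (g := g) x y with h | h
      · rw [h.2.1, zero_mul, mul_zero]; exact Nat.zero_le _
      · rw [h.2.1, one_mul, ← mul_assoc]
        exact Nat.mul_le_mul_right _ h.2.2.le
    have f2 : 3 * n * D ≤ 10 * (3 * F) := by
      have e2 : F = S3 fun x y z => lx E g x z * (bx E g x z y * (Ms E g x z).card) := by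
        rw [hF]
        exact (S3_swap fun x y z => lx E g x y * (bx E g x y z * (Ms E g x y).card)).symm
      have e3 : F = S3 fun x y z => lx E g y z * (bx E g y z x * (Ms E g y z).card) := by
        rw [hF]
        exact (S3_rot fun x y z => lx E g x y * (bx E g x y z * (Ms E g x y).card)).symm
      have e4 : 3 * F = F + F + F := by ring
      rw [e4]
      nth_rewrite 2 [e2]
      nth_rewrite 2 [e3]
      rw [hF, hDd, ← S3_add, ← S3_add, ← S3_mul, ← S3_mul]
      refine S3_le fun x y z => ?_
      rw [hb.h132 x y z, hb.h231 x y z]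
      rcases hb.b x y z with h5 | h5
      · rw [h5]; simp
      · have hf := forcedG hC h5
        rw [h5]
        rcases hl (E := E) (g := g) x y with h | h <;> rcases hl (E := E) (g := g) x z with h3 | h3 <;>
          rcases hl (E := E) (g := g) y z with h4 | h4 <;>
          rw [h.2.1, h3.2.1, h4.2.1] <;> simp only [zero_mul, mul_zero, one_mul, mul_one] <;> omega
    have f3 : n * (10 * D) ≤ n * S3 (mx E g) := by
      have : 100 * (3 * n * D) ≤ 30 * (n * S3 (mx E g)) := by
        calc 100 * (3 * n * D) ≤ 100 * (10 * (3 * F)) := Nat.mul_le_mul_left _ f2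
          _ = 30 * (100 * F) := by ring
          _ ≤ 30 * (n * S3 (mx E g)) := Nat.mul_le_mul_left _ f1
      have e5 : 100 * (3 * n * D) = 30 * (n * (10 * D)) := by ring
      rw [e5] at this
      exact Nat.le_of_mul_le_mul_left this (by norm_num)
    exact Nat.le_of_mul_le_mul_left f3 (by omega)
  generalize n * q = R at hA1 hC1
  omega

/-- an extremal structure near Turán's construction is Turán's construction -/
theorem compareG (hC : Hv E g)
    (hT : S3 (Tg g) ≤ S3 E) (x y z : V) : E x y z = Tg g x y z := by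
  have h1 : S3 E + S3 (mx E g) = S3 (Tg g) + S3 (bx E g) := by
    rw [← S3_add, ← S3_add]
    unfold S3
    exact sum_congr rfl fun x _ => sum_congr rfl fun y _ => sum_congr rfl fun z _ =>
      balance hC.sy x y z
  have h2 := few_extraG hC
  have h3 : S3 (mx E g) = 0 := by omega
  have h4 : S3 (bx E g) = 0 := by omega
  have h5 := balance (g := g) hC.sy x y z
  rw [S3_zero h3 x y z, S3_zero h4 x y z] at h5
  omega

end
end Pool.Agent.Run7.h211.GL
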