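import Pool.Agent.Run7.h211.GL.Ful

/-! Many induced copies of switched structures. -/

set_option autoImplicit false
set_option maxRecDepth 100000
set_option maxHeartbeats 4000000
open Finset
open scoped Classical

namespace Pool.Agent.Run7.h211.GL
open Pool.Agent.TH773 Pool.Agent.TH773.ST Pool.Agent.H122R2.N6 Pool.Agent.H37R3.Pen
open Pool.Agent.H37R3.Cop Pool.Agent.H37R3.CopL Pool.Agent.Y878.EX

section
variable {V : Type} [Fintype V] {E : V → V → V → ℕ} {g : V → Fin 3} {k M : ℕ}

/-- the tuple with `x`, `y` at the places `x0`, `y0` -/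
noncomputable def ov (x0 y0 : Fin k) (x y : V) (w : Fin k → V) : Fin k → V :=
  fun i => if i = x0 then x else if i = y0 then y else w i

/-- the induced copies of the switched structure with `x`, `y` at the places `x0`, `y0` -/
noncomputable def thr {c : Fin k → Fin 3} (x0 y0 : Fin k) (E : V → V → V → ℕ) (x y : V) :
    Finset (Fin k → V) := (tf [sw c x0 y0] E).filter fun w => w x0 = x ∧ w y0 = y

/-- many induced copies of a switched structure -/
theorem configC {c : Fin k → Fin 3} {x0 y0 : Fin k} (h0 : x0 ≠ y0) (hE : Sy E)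
    {x y : V} (hxy : x ≠ y) {s : Fin 3} (hgx : g x = c x0 + s) (hgy : g y = c y0 + s)
    (S : Fin k → Finset V) (hS : ∀ j, j ≠ x0 → j ≠ y0 → ∀ v ∈ S j, g v = c j + s ∧
      (E x y v = 1 ↔ (c j = c x0 ∨ c j = c y0)))
    (hv : ∀ v, M * Dv E g v ≤ Fintype.card V ^ 2) (hMn : M ≤ Fintype.card V) {q : ℕ}
    (hM : 2 * (q ^ k * (k ^ 3 + 3 * k ^ 2 + 2 * k)) < M)
    (hq : ∀ j, j ≠ x0 → j ≠ y0 → Fintype.card V ≤ q * (S j).card) (hq1 : 1 ≤ q) :
    Fintype.card V ^ k ≤ 2 * q ^ k * (Fintype.card V ^ 2 * (thr (c := c) x0 y0 E x y).card) := by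
  set n := Fintype.card V with hn
  have hb : M * bad E g ≤ n ^ 3 := by
    calc M * bad E g ≤ M * ∑ v, Dv E g v := Nat.mul_le_mul_left _ bad_eq_sum
      _ = ∑ v, M * Dv E g v := by rw [mul_sum]
      _ ≤ ∑ _v : V, n ^ 2 := sum_le_sum fun v _ => hv v
      _ = n ^ 3 := by rw [sum_const, card_univ, smul_eq_mul]; ring
  let G : Finset (Fin k → V) := Fintype.piFinset fun j => if j = x0 ∨ j = y0 then univ else S j
  let I3 : Finset (Fin k × Fin k × Fin k) :=
    univ.filter fun p => p.1 ≠ p.2.1 ∧ p.1 ≠ p.2.2 ∧ p.2.1 ≠ p.2.2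
  let I2 : Finset (Fin k × Fin k) := univ.filter fun p => p.1 ≠ p.2
  let B3 : Fin k × Fin k × Fin k → Finset (Fin k → V) := fun p => univ.filter fun w =>
    E (w p.1) (w p.2.1) (w p.2.2) ≠ Rf (g (w p.1)) (g (w p.2.1)) (g (w p.2.2))
  let B2 : V → Fin k × Fin k → Finset (Fin k → V) := fun v p => univ.filter fun w =>
    E (w p.1) (w p.2) v ≠ Rf (g (w p.1)) (g (w p.2)) (g v)
  let N2 : Fin k × Fin k → Finset (Fin k → V) := fun p => univ.filter fun w => w p.1 = w p.2
  let N1 : V → Fin k → Finset (Fin k → V) := fun v i => univ.filter fun w => w i = v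
  let Gd : Finset (Fin k → V) := univ.filter fun w => ov x0 y0 x y w ∈ tf [sw c x0 y0] E
  have hsub : G ⊆ Gd ∪ (I3.biUnion B3 ∪ (I2.biUnion (B2 x) ∪ (I2.biUnion (B2 y) ∪ (I2.biUnion N2 ∪
      (univ.biUnion (N1 x) ∪ univ.biUnion (N1 y)))))) := by
    intro w hw
    by_contra hno
    rw [mem_union] at hno
    simp only [mem_union, mem_biUnion] at hno
    push Not at hno
    obtain ⟨hgd, h3, h2x, h2y, hn2, hnx, hny⟩ := hno
    have hwS : ∀ j, j ≠ x0 → j ≠ y0 → w j ∈ S j := by
      intro j hj1 hj2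
      have := Fintype.mem_piFinset.mp hw j
      rwa [if_neg (by push Not; exact ⟨hj1, hj2⟩)] at this
    have r3 : ∀ a b d, a ≠ b → a ≠ d → b ≠ d →
        E (w a) (w b) (w d) = Rf (g (w a)) (g (w b)) (g (w d)) := by
      intro a b d hab had hbd
      by_contra h
      exact h3 (a, b, d) (mem_filter.mpr ⟨mem_univ _, hab, had, hbd⟩)
        (mem_filter.mpr ⟨mem_univ _, h⟩)
    have rx : ∀ a b, a ≠ b → E (w a) (w b) x = Rf (g (w a)) (g (w b)) (g x) := by
      intro a b hab
      by_contra h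
      exact h2x (a, b) (mem_filter.mpr ⟨mem_univ _, hab⟩) (mem_filter.mpr ⟨mem_univ _, h⟩)
    have ry : ∀ a b, a ≠ b → E (w a) (w b) y = Rf (g (w a)) (g (w b)) (g y) := by
      intro a b hab
      by_contra h
      exact h2y (a, b) (mem_filter.mpr ⟨mem_univ _, hab⟩) (mem_filter.mpr ⟨mem_univ _, h⟩)
    have winj : ∀ a b, a ≠ b → w a ≠ w b := fun a b hab h =>
      hn2 (a, b) (mem_filter.mpr ⟨mem_univ _, hab⟩) (mem_filter.mpr ⟨mem_univ _, h⟩)
    have wx : ∀ a, w a ≠ x := fun a h => hnx a (mem_univ _) (mem_filter.mpr ⟨mem_univ _, h⟩)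
    have wy : ∀ a, w a ≠ y := fun a h => hny a (mem_univ _) (mem_filter.mpr ⟨mem_univ _, h⟩)
    let w' : Fin k → V := ov x0 y0 x y w
    have ex : w' x0 = x := if_pos rfl
    have ey : w' y0 = y := by simp only [w', ov, if_neg (Ne.symm h0), if_true]
    have ez : ∀ i, i ≠ x0 → i ≠ y0 → w' i = w i := by
      intro i h1 h2
      simp only [w', ov, if_neg h1, if_neg h2]
    have hg' : ∀ i, g (w' i) = c i + s := by
      intro i
      by_cases h1 : i = x0
      · rw [h1, ex, hgx]
      · by_cases h2 : i = y0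
        · rw [h2, ey, hgy]
        · rw [ez i h1 h2]
          exact (hS i h1 h2 _ (hwS i h1 h2)).1
    have hinj : Function.Injective w' := by
      intro i j hij
      by_contra hne
      by_cases h1 : i = x0
      · subst h1
        rw [ex] at hij
        by_cases h2 : j = y0
        · rw [h2, ey] at hij; exact hxy hij
        · rw [ez j (Ne.symm hne) h2] at hij
          exact wx j hij.symm
      · by_cases h2 : i = y0
        · subst h2
          rw [ey] at hij
          by_cases h3 : j = x0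
          · rw [h3, ex] at hij; exact hxy hij.symm
          · rw [ez j h3 (Ne.symm hne)] at hij
            exact wy j hij.symm
        · rw [ez i h1 h2] at hij
          by_cases h3 : j = x0
          · rw [h3, ex] at hij; exact wx i hij
          · by_cases h4 : j = y0
            · rw [h4, ey] at hij; exact wy i hij
            · rw [ez j h3 h4] at hij
              exact winj i j hne hij
    -- the rule for the triples which do not contain both `x0` and `y0`
    have rule : ∀ a b d, a ≠ b → a ≠ d → b ≠ d →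
        ¬ (x0 ∈ ({a, b, d} : Finset (Fin k)) ∧ y0 ∈ ({a, b, d} : Finset (Fin k))) →
        E (w' a) (w' b) (w' d) = Rf (g (w' a)) (g (w' b)) (g (w' d)) := by
      intro a b d hab had hbd hnot
      simp only [mem_insert, mem_singleton] at hnot
      by_cases ha : a = x0
      · have hb : b ≠ y0 := fun h => hnot ⟨Or.inl ha.symm, Or.inr (Or.inl h.symm)⟩
        have hd : d ≠ y0 := fun h => hnot ⟨Or.inl ha.symm, Or.inr (Or.inr h.symm)⟩
        subst ha
        rw [ex, ez b hab.symm hb, ez d had.symm hd, ← hE.h231 x (w b) (w d), rx b d hbd,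
          Rf_sy.h231]
      · by_cases ha' : a = y0
        · have hb : b ≠ x0 := fun h => hnot ⟨Or.inr (Or.inl h.symm), Or.inl ha'.symm⟩
          have hd : d ≠ x0 := fun h => hnot ⟨Or.inr (Or.inr h.symm), Or.inl ha'.symm⟩
          subst ha'
          rw [ey, ez b hb hab.symm, ez d hd had.symm, ← hE.h231 y (w b) (w d), ry b d hbd,
            Rf_sy.h231]
        · rw [ez a ha ha']
          by_cases hb : b = x0
          · have hd : d ≠ y0 := fun h => hnot ⟨Or.inr (Or.inl hb.symm), Or.inr (Or.inr h.symm)⟩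
            subst hb
            rw [ex, ez d hbd.symm hd, hE.h132 (w a) (w d) x, rx a d had, Rf_sy.h132]
          · by_cases hb' : b = y0
            · have hd : d ≠ x0 := fun h => hnot ⟨Or.inr (Or.inr h.symm), Or.inr (Or.inl hb'.symm)⟩
              subst hb'
              rw [ey, ez d hd hbd.symm, hE.h132 (w a) (w d) y, ry a d had, Rf_sy.h132]
            · rw [ez b hb hb']
              by_cases hd : d = x0
              · subst hd
                rw [ex, rx a b hab]
              · by_cases hd' : d = y0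
                · subst hd'
                  rw [ey, ry a b hab]
                · rw [ez d hd hd', r3 a b d hab had hbd]
    have hI : Ind (sw c x0 y0) E w' := by
      refine Ind.of hE h0 ?_ ?_
      · intro z hzx hzy
        rw [mem_sw_pair h0 hzx hzy, ex, ey, ez z hzx hzy]
        exact (hS z hzx hzy _ (hwS z hzx hzy)).2
      · intro a b d hab had hbd hnot
        rw [mem_sw_other hab had hbd hnot, rule a b d hab had hbd hnot, hg', hg', hg', Rf_rot]
    exact hgd (mem_filter.mpr ⟨mem_univ _, mem_tf.mpr ⟨hinj, _, List.mem_singleton.mpr rfl, hI⟩⟩)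
  have c3 : I3.card ≤ k ^ 3 := by
    refine (card_le_univ _).trans (le_of_eq ?_)
    rw [Fintype.card_prod, Fintype.card_prod, Fintype.card_fin]; ring
  have c2 : I2.card ≤ k ^ 2 := by
    refine (card_le_univ _).trans (le_of_eq ?_)
    rw [Fintype.card_prod, Fintype.card_fin]; ring
  have u3 : M * (I3.biUnion B3).card ≤ k ^ 3 * n ^ k :=
    (union_bound I3 B3 fun p hp => bad3 hb (mem_filter.mp hp).2.1 (mem_filter.mp hp).2.2.1
      (mem_filter.mp hp).2.2.2).trans (Nat.mul_le_mul_right _ c3)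
  have ux : M * (I2.biUnion (B2 x)).card ≤ k ^ 2 * n ^ k :=
    (union_bound I2 (B2 x) fun p hp => bad2 x (hv x) (mem_filter.mp hp).2).trans
      (Nat.mul_le_mul_right _ c2)
  have uy : M * (I2.biUnion (B2 y)).card ≤ k ^ 2 * n ^ k :=
    (union_bound I2 (B2 y) fun p hp => bad2 y (hv y) (mem_filter.mp hp).2).trans
      (Nat.mul_le_mul_right _ c2)
  have un : M * (I2.biUnion N2).card ≤ k ^ 2 * n ^ k :=
    (union_bound I2 N2 fun p hp => eq2 hMn (mem_filter.mp hp).2).trans
      (Nat.mul_le_mul_right _ c2)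
  have v1 : ∀ v, M * ((univ : Finset (Fin k)).biUnion (N1 v)).card ≤ k * n ^ k := by
    intro v
    have := union_bound (univ : Finset (Fin k)) (N1 v) fun i _ => eq1 hMn v i
    rwa [card_univ, Fintype.card_fin] at this
  set B : Finset (Fin k → V) := I3.biUnion B3 ∪ (I2.biUnion (B2 x) ∪ (I2.biUnion (B2 y) ∪
    (I2.biUnion N2 ∪ (univ.biUnion (N1 x) ∪ univ.biUnion (N1 y))))) with hBdef
  have hG : M * B.card ≤ (k ^ 3 + 3 * k ^ 2 + 2 * k) * n ^ k := by
    have t2 := card_union_le (I3.biUnion B3) (I2.biUnion (B2 x) ∪ (I2.biUnion (B2 y) ∪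
      (I2.biUnion N2 ∪ (univ.biUnion (N1 x) ∪ univ.biUnion (N1 y)))))
    rw [← hBdef] at t2
    have t3 := card_union_le (I2.biUnion (B2 x)) (I2.biUnion (B2 y) ∪ (I2.biUnion N2 ∪
      (univ.biUnion (N1 x) ∪ univ.biUnion (N1 y))))
    have t4 := card_union_le (I2.biUnion (B2 y)) (I2.biUnion N2 ∪
      (univ.biUnion (N1 x) ∪ univ.biUnion (N1 y)))
    have t5 := card_union_le (I2.biUnion N2) (univ.biUnion (N1 x) ∪ univ.biUnion (N1 y))
    have t6 := card_union_le (univ.biUnion (N1 x)) (univ.biUnion (N1 y))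
    have t7 : B.card ≤ (I3.biUnion B3).card + ((I2.biUnion (B2 x)).card +
      ((I2.biUnion (B2 y)).card + ((I2.biUnion N2).card + (((univ : Finset (Fin k)).biUnion
        (N1 x)).card + ((univ : Finset (Fin k)).biUnion (N1 y)).card)))) := by omega
    have t8 := Nat.mul_le_mul_left M t7
    have vx := v1 x
    have vy := v1 y
    rw [mul_add, mul_add, mul_add, mul_add, mul_add] at t8
    have e : (k ^ 3 + 3 * k ^ 2 + 2 * k) * n ^ k = k ^ 3 * n ^ k + (k ^ 2 * n ^ k +
      (k ^ 2 * n ^ k + (k ^ 2 * n ^ k + (k * n ^ k + k * n ^ k)))) := by ring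
    rw [e]
    omega
  have hbig : n ^ k ≤ q ^ k * G.card := by
    rw [Fintype.card_piFinset]
    have e1 : n ^ k = ∏ _j : Fin k, n := by rw [prod_const, card_univ, Fintype.card_fin]
    have e2 : q ^ k = ∏ _j : Fin k, q := by rw [prod_const, card_univ, Fintype.card_fin]
    rw [e1, e2, ← prod_mul_distrib]
    refine prod_le_prod' fun j _ => ?_
    by_cases hj : j = x0 ∨ j = y0
    · rw [if_pos hj, card_univ]
      exact Nat.le_mul_of_pos_left _ hq1
    · rw [if_neg hj]
      push Not at hj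
      exact hq j hj.1 hj.2
  have hnpos : 0 < n := Fintype.card_pos_iff.mpr ⟨x⟩
  have hM0 : 0 < M := by omega
  have f1 : M * (2 * q ^ k * B.card) ≤ M * n ^ k := by
    calc M * (2 * q ^ k * B.card) = 2 * q ^ k * (M * B.card) := by ring
      _ ≤ 2 * q ^ k * ((k ^ 3 + 3 * k ^ 2 + 2 * k) * n ^ k) := Nat.mul_le_mul_left _ hG
      _ = 2 * (q ^ k * (k ^ 3 + 3 * k ^ 2 + 2 * k)) * n ^ k := by ring
      _ ≤ M * n ^ k := Nat.mul_le_mul_right _ hM.le
  have f2 := Nat.le_of_mul_le_mul_left f1 hM0
  have f3 : G.card ≤ Gd.card + B.card := (card_le_card hsub).trans (card_union_le _ _)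
  have f4 : 2 * n ^ k ≤ 2 * q ^ k * Gd.card + 2 * q ^ k * B.card := by
    calc 2 * n ^ k ≤ 2 * (q ^ k * G.card) := Nat.mul_le_mul_left _ hbig
      _ = 2 * q ^ k * G.card := by ring
      _ ≤ 2 * q ^ k * (Gd.card + B.card) := Nat.mul_le_mul_left _ f3
      _ = _ := by ring
  have f5 : Gd.card ≤ n ^ 2 * (thr (c := c) x0 y0 E x y).card := by
    have e1 : n ^ 2 * (thr (c := c) x0 y0 E x y).card =
        ((univ : Finset V) ×ˢ ((univ : Finset V) ×ˢ thr (c := c) x0 y0 E x y)).card := by
      rw [card_product, card_product, card_univ, ← hn]; ring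
    rw [e1]
    refine card_le_card_of_injOn (fun w => (w x0, w y0, ov x0 y0 x y w)) ?_ ?_
    · intro w hw
      have hw' := (mem_filter.mp (mem_coe.mp hw)).2
      refine mem_coe.mpr (mem_product.mpr ⟨mem_univ _, mem_product.mpr ⟨mem_univ _,
        mem_filter.mpr ⟨hw', if_pos rfl, ?_⟩⟩⟩)
      simp only [ov, if_neg (Ne.symm h0), if_true]
    · intro w _ w1 _ h
      obtain ⟨e1, e2⟩ := Prod.mk.inj h
      obtain ⟨e2, e3⟩ := Prod.mk.inj e2
      funext i
      by_cases h1 : i = x0
      · rw [h1]; exact e1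
      · by_cases h2 : i = y0
        · rw [h2]; exact e2
        · have := congrFun e3 i
          simp only [ov, if_neg h1, if_neg h2] at this
          exact this
  calc n ^ k ≤ 2 * q ^ k * Gd.card := by omega
    _ ≤ 2 * q ^ k * (n ^ 2 * (thr (c := c) x0 y0 E x y).card) := Nat.mul_le_mul_left _ f5

end
end Pool.Agent.Run7.h211.GL
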