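import Pool.Agent.Run7.h211.GL.Defs
import Pool.Agent.Y878.EX.Co

/-! Linear stability in terms of functions. -/

set_option autoImplicit false
set_option maxRecDepth 100000
set_option maxHeartbeats 4000000
open Finset
open scoped Classical

namespace Pool.Agent.Run7.h211.GL
open Pool.Agent.TH773 Pool.Agent.TH773.ST Pool.Agent.H122R2.N6 Pool.Agent.H37R3.Pen
open Pool.Agent.H37R3.Cop Pool.Agent.H37R3.CopL Pool.Agent.Y878.EX

/-- the tuple `x` induces `F` -/
def Ind {k : ℕ} (F : Finset (Finset (Fin k))) {V : Type} (E : V → V → V → ℕ) (x : Fin k → V) :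
    Prop :=
  ∀ a b c : Fin k, a ≠ b → a ≠ c → b ≠ c →
    (E (x a) (x b) (x c) = 1 ↔ ({a, b, c} : Finset (Fin k)) ∈ F)

/-- the tuples which induce a member of the list -/
noncomputable def tf {k : ℕ} (L : List (Finset (Finset (Fin k)))) {V : Type} [Fintype V]
    (E : V → V → V → ℕ) : Finset (Fin k → V) :=
  (Set.toFinite {x : Fin k → V | Function.Injective x ∧ ∃ F ∈ L, Ind F E x}).toFinset

theorem mem_tf {k : ℕ} {L : List (Finset (Finset (Fin k)))} {V : Type} [Fintype V]
    {E : V → V → V → ℕ} {x : Fin k → V} :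
    x ∈ tf L E ↔ Function.Injective x ∧ ∃ F ∈ L, Ind F E x := by
  unfold tf
  rw [Set.Finite.mem_toFinset]
  exact Iff.rfl

/-- the number of tuples which induce a member of the list -/
noncomputable def cpE {k : ℕ} (L : List (Finset (Finset (Fin k)))) {V : Type} [Fintype V]
    (E : V → V → V → ℕ) : ℕ := (tf L E).card

section
variable {n : ℕ} (E : Fin n → Fin n → Fin n → ℕ)

/-- the 3-graph of a function -/
noncomputable def gph : Finset (Finset (Fin n)) :=
  ((univ : Finset (Fin n × Fin n × Fin n)).filter fun t => E t.1 t.2.1 t.2.2 = 1).image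
    fun t => {t.1, t.2.1, t.2.2}

variable {E}

theorem mem_gph_iff (hE : Sy E) (hd : ∀ a b, E a a b = 0) (a b c : Fin n) :
    ({a, b, c} : Finset (Fin n)) ∈ gph E ↔ E a b c = 1 := by
  unfold gph
  rw [mem_image]
  constructor
  · rintro ⟨⟨x, y, z⟩, ht, he⟩
    have h1 : E x y z = 1 := (mem_filter.mp ht).2
    have hdist := dist_of_one hE hd h1
    simp only at he
    have ha : a ∈ ({x, y, z} : Finset (Fin n)) := by rw [he]; simp
    have hb : b ∈ ({x, y, z} : Finset (Fin n)) := by rw [he]; simp
    have hc : c ∈ ({x, y, z} : Finset (Fin n)) := by rw [he]; simp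
    have h3 : ({a, b, c} : Finset (Fin n)).card = 3 := by
      rw [← he, card_insert_of_notMem, card_insert_of_notMem, card_singleton]
      · simpa using hdist.2.2
      · simpa using ⟨hdist.1, hdist.2.1⟩
    have hab : a ≠ b := by
      rintro rfl
      have : ({a, a, c} : Finset (Fin n)).card ≤ 2 := by
        rw [insert_eq_of_mem (mem_insert_self _ _)]; exact card_le_two
      omega
    have hac : a ≠ c := by
      rintro rfl
      have : ({a, b, a} : Finset (Fin n)).card ≤ 2 := by
        rw [insert_comm, insert_eq_of_mem (mem_singleton_self _)]; exact card_le_two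
      omega
    have hbc : b ≠ c := by
      rintro rfl
      have : ({a, b, b} : Finset (Fin n)).card ≤ 2 := by
        rw [insert_eq_of_mem (mem_singleton_self b)]; exact card_le_two
      omega
    simp only [mem_insert, mem_singleton] at ha hb hc
    have e213 := hE.h213 x y z
    have e132 := hE.h132 x y z
    have e231 := hE.h231 x y z
    have e312 := hE.h312 x y z
    have e321 : E z y x = E x y z := by rw [hE.h213 y z x, hE.h231]
    rcases ha with rfl | rfl | rfl <;> rcases hb with rfl | rfl | rfl <;>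
      rcases hc with rfl | rfl | rfl <;> first
        | exact absurd rfl hab
        | exact absurd rfl hac
        | exact absurd rfl hbc
        | exact h1
        | (rw [e213]; exact h1)
        | (rw [e132]; exact h1)
        | (rw [e231]; exact h1)
        | (rw [e312]; exact h1)
        | (rw [e321]; exact h1)
  · intro h
    exact ⟨(a, b, c), mem_filter.mpr ⟨mem_univ _, h⟩, rfl⟩

theorem gph_card (hE : Sy E) (hd : ∀ a b, E a a b = 0) : ∀ e ∈ gph E, e.card = 3 := by
  intro e he
  unfold gph at he
  rw [mem_image] at he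
  obtain ⟨⟨x, y, z⟩, ht, rfl⟩ := he
  have h1 : E x y z = 1 := (mem_filter.mp ht).2
  have hdist := dist_of_one hE hd h1
  rw [card_insert_of_notMem, card_insert_of_notMem, card_singleton]
  · simpa using hdist.2.2
  · simpa using ⟨hdist.1, hdist.2.1⟩

theorem tri_gph (hE : Sy E) (hd : ∀ a b, E a a b = 0) (a b c : Fin n) : tri (gph E) a b c = E a b c := by
  rw [tri_ite]
  by_cases h : E a b c = 1
  · rw [if_pos ((mem_gph_iff hE hd a b c).mpr h), h]
  · rw [if_neg (fun h' => h ((mem_gph_iff hE hd a b c).mp h'))]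
    rcases hE.b a b c with h1 | h1
    · exact h1.symm
    · exact absurd h1 h

theorem S3_gph (hE : Sy E) (hd : ∀ a b, E a a b = 0) : S3 E = 6 * (gph E).card := by
  rw [← S3_tri (gph_card hE hd)]
  unfold S3
  exact sum_congr rfl fun a _ => sum_congr rfl fun b _ => sum_congr rfl fun c _ =>
    (tri_gph hE hd a b c).symm

theorem gph_free (hE : Sy E) (hd : ∀ a b, E a a b = 0) (hK : NoK4 E) : Turan34.K43Free (gph E) := by
  intro S hS
  obtain ⟨f, hf⟩ : ∃ f : Fin 4 → Fin n, Function.Injective f ∧ univ.image f = S := by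
    refine ⟨fun k => (S.orderIsoOfFin hS k : Fin n), ?_, ?_⟩
    · intro a b hab
      exact (S.orderIsoOfFin hS).injective (Subtype.ext hab)
    · ext v
      simp only [mem_image, mem_univ, true_and]
      constructor
      · rintro ⟨k, rfl⟩
        exact (S.orderIsoOfFin hS k).2
      · intro hv
        exact ⟨(S.orderIsoOfFin hS).symm ⟨v, hv⟩, by simp⟩
  obtain ⟨hinj, hfS⟩ := hf
  by_contra hno
  push Not at hno
  have key : ∀ a b c : Fin 4, a ≠ b → a ≠ c → b ≠ c → E (f a) (f b) (f c) = 1 := by
    intro a b c hab hac hbc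
    have h1 : f a ≠ f b := fun h => hab (hinj h)
    have h2 : f a ≠ f c := fun h => hac (hinj h)
    have h3 : f b ≠ f c := fun h => hbc (hinj h)
    rw [← mem_gph_iff hE hd]
    refine hno _ ?_ ?_
    · intro v hv
      rw [← hfS]
      simp only [mem_insert, mem_singleton] at hv
      rcases hv with rfl | rfl | rfl <;> exact mem_image_of_mem _ (mem_univ _)
    · rw [card_insert_of_notMem, card_insert_of_notMem, card_singleton]
      · simpa using h3
      · simpa using ⟨h1, h2⟩
  have h := hK (f 0) (f 1) (f 2) (f 3)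
  rw [key 0 1 2 (by decide) (by decide) (by decide), key 0 1 3 (by decide) (by decide) (by decide),
    key 0 2 3 (by decide) (by decide) (by decide), key 1 2 3 (by decide) (by decide) (by decide)] at h
  exact absurd h (by decide)

/-- sets which induce a member of the list come from tuples -/
theorem copies_gph (hE : Sy E) (hd : ∀ a b, E a a b = 0) {k : ℕ}
    (L : List (Finset (Finset (Fin k)))) : Turan34.copies L (gph E) ≤ cpE L E := by
  unfold Turan34.copies cpE
  have hch : ∀ S : Finset (Fin n), (∃ F ∈ L, Turan34.Induces F (gph E) S) →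
      ∃ x : Fin k → Fin n, Function.Injective x ∧ univ.image x = S ∧ ∃ F ∈ L, Ind F E x := by
    rintro S ⟨F, hF, x, hx, hxS, hxe⟩
    refine ⟨x, hx, hxS, F, hF, ?_⟩
    intro a b c hab hac hbc
    have hc3 : ({a, b, c} : Finset (Fin k)).card = 3 := by
      rw [card_insert_of_notMem, card_insert_of_notMem, card_singleton]
      · simpa using hbc
      · simpa using ⟨hab, hac⟩
    have h1 := hxe _ hc3
    rw [image_insert, image_insert, image_singleton] at h1
    rw [← h1, ← mem_gph_iff hE hd]
  refine card_le_card_of_surjOn (fun x => univ.image x) ?_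
  intro S hS
  rw [mem_coe, mem_filter] at hS
  obtain ⟨x, h1, h2, h3⟩ := hch S hS.2
  refine ⟨x, ?_, h2⟩
  rw [mem_coe, mem_tf]
  exact ⟨h1, h3⟩

theorem S3_diag1 : S3 (fun (x y _ : Fin n) => if x = y then 1 else 0) = n ^ 2 := by
  unfold S3
  simp only [sum_const, card_univ, smul_eq_mul, ← mul_sum, sum_ite_eq, mem_univ, if_true,
    Fintype.card_fin]
  ring

/-- the distance to Turán's construction, from below -/
theorem bad_le_symm (hE : Sy E) (hd : ∀ a b, E a a b = 0) (g : Fin n → Fin 3) :
    bad E g ≤ 6 * (symmDiff (gph E) (Turan34.turan g)).card + 3 * n ^ 2 := by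
  have hD : ∀ e ∈ symmDiff (gph E) (Turan34.turan g), e.card = 3 := by
    intro e he
    rw [mem_symmDiff] at he
    rcases he with he | he
    exacts [gph_card hE hd e he.1, Pool.Agent.Y878.EX.turan_card he.1]
  rw [← S3_tri hD]
  have h1 : bad E g ≤ S3 (fun a b c : Fin n => if E a b c ≠ Rf (g a) (g b) (g c) then 1 else 0) := by
    have e2 : S3 (fun x y z => if E x y z ≠ Rf (g x) (g y) (g z) then 1 else 0) =
        ((univ : Finset (Fin n × Fin n × Fin n)).filter fun t =>
          E t.1 t.2.1 t.2.2 ≠ Rf (g t.1) (g t.2.1) (g t.2.2)).card := by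
      unfold S3
      rw [card_filter, Fintype.sum_prod_type]
      refine sum_congr rfl fun a _ => ?_
      rw [Fintype.sum_prod_type]
    rw [e2]
    unfold bad
    refine card_le_card_of_injOn (fun p => (p 0, p 1, p 2)) ?_ ?_
    · intro p hp
      exact mem_coe.mpr (mem_filter.mpr ⟨mem_univ _, (mem_filter.mp (mem_coe.mp hp)).2⟩)
    · intro p _ q _ h
      have h0 := (Prod.mk.inj h).1
      have h1 := (Prod.mk.inj (Prod.mk.inj h).2).1
      have h2 := (Prod.mk.inj (Prod.mk.inj h).2).2
      funext i
      fin_cases i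
      exacts [h0, h1, h2]
  refine h1.trans ?_
  have h2 : S3 (fun a b c : Fin n => if E a b c ≠ Rf (g a) (g b) (g c) then 1 else 0) ≤
      S3 fun a b c : Fin n => tri (symmDiff (gph E) (Turan34.turan g)) a b c +
        ((if a = b then 1 else 0) + (if a = c then 1 else 0) + (if b = c then 1 else 0)) := by
    refine S3_le fun a b c => ?_
    by_cases hne : E a b c ≠ Rf (g a) (g b) (g c)
    · rw [if_pos hne]
      by_cases hab : a = b
      · rw [if_pos hab]; omega
      · by_cases hac : a = c
        · rw [if_pos hac]; omega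
        · by_cases hbc : b = c
          · rw [if_pos hbc]; omega
          · have h3 : tri (symmDiff (gph E) (Turan34.turan g)) a b c = 1 := by
              rw [tri_iff, mem_symmDiff, mem_gph_iff hE hd,
                Pool.Agent.Y878.EX.mem_turan hab hac hbc]
              rcases hE.b a b c with h4 | h4 <;> rcases Rf_sy.b (g a) (g b) (g c) with h5 | h5 <;>
                rw [h4, h5] at hne ⊢ <;> simp at hne ⊢
            omega
    · rw [if_neg hne]; omega
  refine h2.trans (le_of_eq ?_)
  rw [S3_add, S3_add, S3_add]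
  have d2 : S3 (fun (x y z : Fin n) => if x = z then 1 else 0) = n ^ 2 := by
    unfold S3
    simp only [sum_const, card_univ, smul_eq_mul, sum_ite_eq, mem_univ, if_true, Fintype.card_fin]
    ring
  have d3 : S3 (fun (x y z : Fin n) => if y = z then 1 else 0) = n ^ 2 := by
    unfold S3
    simp only [sum_const, card_univ, smul_eq_mul, sum_ite_eq, mem_univ, if_true, Fintype.card_fin]
    ring
  rw [S3_diag1, d2, d3]
  ring

end

/-- linear stability for functions -/
theorem lin_E {k : ℕ} {L : List (Finset (Finset (Fin k)))} {C D : ℕ}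
    (h : ∀ (n : ℕ) (H : Finset (Finset (Fin n))), (∀ e ∈ H, e.card = 3) → Turan34.K43Free H →
    ∃ g : Fin n → Fin 3,
      54 * (n ^ k * (symmDiff H (Turan34.turan g)).card) + 54 * (C * (n ^ k * H.card)) ≤
        5 * (C * n ^ (k + 3)) + D * (n ^ 3 * Turan34.copies L H + n ^ (k + 2)))
    {V : Type} [Fintype V] {E : V → V → V → ℕ} (hE : Sy E) (hd : ∀ a b, E a a b = 0)
    (hK : NoK4 E) : ∃ g : V → Fin 3,
      9 * (Fintype.card V ^ k * bad E g) + 9 * (C * (Fintype.card V ^ k * S3 E)) ≤
        5 * (C * Fintype.card V ^ (k + 3)) + D * (Fintype.card V ^ 3 * cpE L E +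
          Fintype.card V ^ (k + 2)) + 27 * Fintype.card V ^ (k + 2) := by
  set n := Fintype.card V with hn
  let e : V ≃ Fin n := Fintype.equivFin V
  let E' : Fin n → Fin n → Fin n → ℕ := fun a b c => E (e.symm a) (e.symm b) (e.symm c)
  have hE' : Sy E' := ⟨fun _ _ _ => hE.b _ _ _, fun _ _ _ => hE.h213 _ _ _,
    fun _ _ _ => hE.h132 _ _ _⟩
  have hd' : ∀ a b, E' a a b = 0 := fun _ _ => hd _ _
  have hK' : NoK4 E' := fun _ _ _ _ => hK _ _ _ _
  obtain ⟨g, hg⟩ := h n (gph E') (gph_card hE' hd') (gph_free hE' hd' hK')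
  refine ⟨g ∘ e, ?_⟩
  have h1 := bad_le_symm hE' hd' g
  have h2 := S3_gph hE' hd'
  have h3 := copies_gph hE' hd' L
  have e1 : S3 E' = S3 E := by
    unfold S3
    rw [← Equiv.sum_comp e.symm]
    refine sum_congr rfl fun a _ => ?_
    rw [← Equiv.sum_comp e.symm (fun b => ∑ c, E (e.symm a) b c)]
    refine sum_congr rfl fun b _ => ?_
    rw [← Equiv.sum_comp e.symm (fun c => E (e.symm a) (e.symm b) c)]
  have e2 : bad E (g ∘ e) ≤ bad E' g := by
    unfold bad
    refine card_le_card_of_injOn (fun t => e ∘ t) ?_ ?_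
    · intro t ht
      have ht' := (mem_filter.mp (mem_coe.mp ht)).2
      refine mem_coe.mpr (mem_filter.mpr ⟨mem_univ _, ?_⟩)
      simpa [E'] using ht'
    · intro t _ t' _ htt
      funext i
      exact e.injective (congrFun htt i)
  have e3 : cpE L E' ≤ cpE L E := by
    unfold cpE
    refine card_le_card_of_injOn (fun x => e.symm ∘ x) ?_ ?_
    · intro x hx
      rw [mem_coe, mem_tf] at hx ⊢
      obtain ⟨h1, F, hF, h2⟩ := hx
      exact ⟨e.symm.injective.comp h1, F, hF,
        fun a b c hab hac hbc => h2 a b c hab hac hbc⟩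
    · intro x _ x' _ hxx
      funext i
      exact e.symm.injective (congrFun hxx i)
  have k1 := Nat.mul_le_mul_left (n ^ k) (e2.trans h1)
  have k2 := Nat.mul_le_mul_left (n ^ 3) (h3.trans e3)
  have k3 := Nat.mul_le_mul_left D (Nat.add_le_add_right k2 (n ^ (k + 2)))
  rw [e1] at h2
  have k4 : n ^ k * (6 * (symmDiff (gph E') (Turan34.turan g)).card + 3 * n ^ 2) =
      6 * (n ^ k * (symmDiff (gph E') (Turan34.turan g)).card) + 3 * n ^ (k + 2) := by ring
  rw [k4] at k1
  have k5 : C * (n ^ k * S3 E) = 6 * (C * (n ^ k * (gph E').card)) := by rw [h2]; ring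
  rw [k5]
  omega

end Pool.Agent.Run7.h211.GL
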