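import Pool.Agent.TH773.ST.Defs
import Pool.Agent.TH773.ST.CoDefs

/-! Definitions for the theorem on linear stability. -/

set_option autoImplicit false
set_option maxRecDepth 100000
set_option maxHeartbeats 4000000
open Finset
open scoped Classical

namespace Pool.Agent.Run7.h211.GL
open Pool.Agent.TH773.Turan34 Pool.Agent.TH773

/-- Turán's construction on `k` vertices for the division `c`, with the neighbourhood of the pair
`x, y` changed: the triples which do not contain both `x` and `y` are edges as in Turán's
construction, and `x, y, z` is an edge if and only if `z` is in the part of `x` or in the part of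
`y`. -/
def sw {k : ℕ} (c : Fin k → Fin 3) (x y : Fin k) : Finset (Finset (Fin k)) :=
  ((univ : Finset (Fin k)).powersetCard 3).filter fun t =>
    if x ∈ t ∧ y ∈ t then ∃ z ∈ t, z ≠ x ∧ z ≠ y ∧ (c z = c x ∨ c z = c y) else t ∈ turan c

/-- The 3-graphs `F` and `F'` on `k` vertices are isomorphic. -/
def Same {k : ℕ} (F F' : Finset (Finset (Fin k))) : Prop :=
  ∃ σ : Equiv.Perm (Fin k), ∀ t : Finset (Fin k), t.card = 3 → (t.image σ ∈ F ↔ t ∈ F')

/-- Linear stability for the list `L` of 3-graphs on `k` vertices: for every 3-graph `H` on `n`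
vertices without `K_4^3` there is a division `g` of the vertices with
`|H ∆ turan g| ≤ C ((5/54) n³ - |H|) + (D/54) (N n^(3-k) + n²)`, where `N` is the number of sets of
vertices which induce a member of `L`. -/
def Linear {k : ℕ} (L : List (Finset (Finset (Fin k)))) : Prop :=
  ∃ C D : ℕ, ∀ (n : ℕ) (H : Finset (Finset (Fin n))), (∀ e ∈ H, e.card = 3) → K43Free H →
    ∃ g : Fin n → Fin 3,
      54 * (n ^ k * (symmDiff H (turan g)).card) + 54 * (C * (n ^ k * H.card)) ≤
        5 * (C * n ^ (k + 3)) + D * (n ^ 3 * copies L H + n ^ (k + 2))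

/-- No member of the list is induced in Turán's construction. -/
def NotTuran {k : ℕ} (L : List (Finset (Finset (Fin k)))) : Prop :=
  ∀ F ∈ L, ∀ c : Fin k → Fin 3, ∃ t : Finset (Fin k), t.card = 3 ∧ ¬ (t ∈ F ↔ t ∈ turan c)

/-- Some member of the list is isomorphic to `sw c x y` with two vertices `x`, `y` of one part. -/
def HasA {k : ℕ} (L : List (Finset (Finset (Fin k)))) : Prop :=
  ∃ F ∈ L, ∃ (c : Fin k → Fin 3) (x y : Fin k), x ≠ y ∧ c x = c y ∧ Same F (sw c x y)

/-- Some member of the list is isomorphic to `sw c x y` with `y` in the part after that of `x`. -/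
def HasB {k : ℕ} (L : List (Finset (Finset (Fin k)))) : Prop :=
  ∃ F ∈ L, ∃ (c : Fin k → Fin 3) (x y : Fin k), c y = c x + 1 ∧ Same F (sw c x y)

/-- The number of triples through `v` in which `H` differs from Turán's construction. -/
def wrong {n : ℕ} (H : Finset (Finset (Fin n))) (g : Fin n → Fin 3) (v : Fin n) : ℕ :=
  ((symmDiff H (turan g)).filter fun e => v ∈ e).card

/-- Linear stability near Turán's construction: there are `M`, `C`, `D` such that
`|H ∆ turan g| ≤ C (|turan g| - |H|) + D N n^(3-k)` for every 3-graph `H` on `n ≥ M` vertices without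
`K_4^3` and every division `g` of the vertices into parts of at least `3n/10` vertices such that `H`
differs from Turán's construction in at most `n²/M` triples through every vertex, where `N` is the
number of sets of vertices which induce a member of `L`. -/
def Local {k : ℕ} (L : List (Finset (Finset (Fin k)))) : Prop :=
  ∃ M C D : ℕ, ∀ (n : ℕ) (H : Finset (Finset (Fin n))) (g : Fin n → Fin 3), M ≤ n →
    (∀ e ∈ H, e.card = 3) → K43Free H → (∀ v, M * wrong H g v ≤ n ^ 2) →
    (∀ p : Fin 3, 3 * n ≤ 10 * ((univ : Finset (Fin n)).filter fun i => g i = p).card) →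
      n ^ k * (symmDiff H (turan g)).card + C * (n ^ k * H.card) ≤
        C * (n ^ k * (turan g).card) + D * (n ^ 3 * copies L H)

/-- Turán's conjecture for all `n ≥ N` in the class of the 3-graphs `H` without `K_4^3` and without
induced members of `L`, with the extremal 3-graphs: `|H| ≤ C(n,3) - f(n)`, with equality if and only
if `H` is Turán's construction with parts of nearly equal sizes. -/
def Exact {k : ℕ} (L : List (Finset (Finset (Fin k)))) (N : ℕ) : Prop :=
  ∀ n, N ≤ n → ∀ H : Finset (Finset (Fin n)), (∀ e ∈ H, e.card = 3) → K43Free H →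
    copies L H = 0 → H.card + Cov.f n ≤ n.choose 3 ∧
      (H.card + Cov.f n = n.choose 3 ↔ ∃ g : Fin n → Fin 3, Cov.Balanced g ∧ H = turan g)

end Pool.Agent.Run7.h211.GL
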