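import Pool.Agent.Run7.h211.GL.Cln

/-! Structures with many edges and large degrees are Turán's constructions; deletion of vertices. -/

set_option autoImplicit false
set_option maxRecDepth 100000
set_option maxHeartbeats 4000000
open Finset
open scoped Classical

namespace Pool.Agent.Run7.h211.GL
open Pool.Agent.TH773 Pool.Agent.TH773.ST Pool.Agent.H122R2.N6 Pool.Agent.H37R3.Pen
open Pool.Agent.H37R3.Cop Pool.Agent.H37R3.CopL Pool.Agent.Y878.EX

section
variable {V : Type} [Fintype V] {E : V → V → V → ℕ} {g : V → Fin 3}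

theorem Sp_cardG (hb : 10 ^ 9 * bad E g ≤ Fintype.card V ^ 3)
    (hp : ∀ k, 3 * Fintype.card V ≤ 10 * (Pt g k).card)  :
    242 * Fintype.card V ^ 5 ≤ 10 ^ 5 * (Sp E g).card := by
  let I : Finset (Fin 5 × Fin 5 × Fin 5) := univ.filter fun p => p.1 < p.2.1 ∧ p.2.1 < p.2.2
  have hI : I.card = 10 := by decide
  let F : Fin 5 × Fin 5 × Fin 5 → Finset (Fin 5 → V) := fun p =>
    univ.filter fun s => E (s p.1) (s p.2.1) (s p.2.2) ≠
      Rf (g (s p.1)) (g (s p.2.1)) (g (s p.2.2))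
  have hF : ∀ p ∈ I, (F p).card ≤ bad E g * Fintype.card V ^ 2 := by
    intro p hp
    obtain ⟨h1, h2⟩ := (mem_filter.mp hp).2
    have he : Function.Injective ![p.1, p.2.1, p.2.2] := by
      intro i j h
      have h3 := h1.trans h2
      fin_cases i <;> fin_cases j
      · rfl
      · exact absurd h h1.ne
      · exact absurd h h3.ne
      · exact absurd h h1.ne'
      · rfl
      · exact absurd h h2.ne
      · exact absurd h h3.ne'
      · exact absurd h h2.ne'
      · rfl
    refine card_pullS ![p.1, p.2.1, p.2.2] he (F p) _ ?_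
    intro w hw
    exact mem_filter.mpr ⟨mem_univ _, (mem_filter.mp hw).2⟩
  have hsub : Fintype.piFinset (fun k : Fin 5 => Pt g (sg k)) ⊆ Sp E g ∪ I.biUnion F := by
    intro s hs
    rw [Fintype.mem_piFinset] at hs
    have hs' : ∀ k, g (s k) = sg k := fun k => (mem_filter.mp (hs k)).2
    by_contra hno
    rw [mem_union, mem_biUnion] at hno
    push Not at hno
    refine hno.1 (mem_filter.mpr ⟨mem_univ _, ?_, hs'⟩)
    intro i j k hij hjk
    by_contra h
    refine hno.2 (i, j, k) (mem_filter.mpr ⟨mem_univ _, hij, hjk⟩) (mem_filter.mpr ⟨mem_univ _, ?_⟩)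
    change E (s i) (s j) (s k) ≠ Rf (g (s i)) (g (s j)) (g (s k))
    rw [hs', hs', hs']
    exact h
  have h1 := (card_le_card hsub).trans (card_union_le _ _)
  have h2 : (I.biUnion F).card ≤ 10 * (bad E g * Fintype.card V ^ 2) := by
    refine card_biUnion_le.trans ((sum_le_sum hF).trans ?_)
    rw [sum_const, hI, smul_eq_mul]
  rw [Fintype.card_piFinset] at h1
  have h3 : 243 * Fintype.card V ^ 5 ≤ 10 ^ 5 * ∏ k : Fin 5, (Pt g (sg k)).card := by
    have key : ∀ f : Fin 5 → ℕ, (∀ k, 3 * Fintype.card V ≤ 10 * f k) →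
        (3 * Fintype.card V) ^ 5 ≤ 10 ^ 5 * ∏ k, f k := by
      intro f hf
      have e1 : (10 : ℕ) ^ 5 * ∏ k, f k = ∏ k : Fin 5, (10 * f k) := by
        rw [prod_mul_distrib, prod_const, card_univ, Fintype.card_fin]
      have e2 : (3 * Fintype.card V) ^ 5 = ∏ _k : Fin 5, (3 * Fintype.card V) := by
        rw [prod_const, card_univ, Fintype.card_fin]
      rw [e1, e2]
      exact prod_le_prod' fun k _ => hf k
    have h4 := key (fun k => (Pt g (sg k)).card) fun k => hp _
    calc 243 * Fintype.card V ^ 5 = (3 * Fintype.card V) ^ 5 := by ring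
      _ ≤ _ := h4
  set n := Fintype.card V with hn'
  have h5 : 10 ^ 9 * (bad E g * n ^ 2) ≤ n ^ 5 := by
    calc 10 ^ 9 * (bad E g * n ^ 2) = 10 ^ 9 * bad E g * n ^ 2 := by ring
      _ ≤ n ^ 3 * n ^ 2 := Nat.mul_le_mul_right _ hb
      _ = _ := by ring
  generalize (∏ k : Fin 5, (Pt g (sg k)).card) = P at h1 h3
  generalize bad E g * n ^ 2 = Q at h2 h5
  generalize n ^ 5 = W at h3 h5 ⊢
  omega

theorem exists_colourG (hb : 10 ^ 9 * bad E g ≤ Fintype.card V ^ 3)
    (hp : ∀ k, 3 * Fintype.card V ≤ 10 * (Pt g k).card)  {v : V}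
    (hv : 10 ^ 13 * NTv E v ≤ Fintype.card V ^ 5) :
    ∃ d, Fintype.card V ^ 5 ≤ 1250 * (Av E g v d).card := by
  have h1 := Sp_cardG hb hp
  have h2 : Sp E g ⊆ ((Av E g v 0 ∪ Av E g v 1) ∪ Av E g v 2) ∪
      (univ : Finset (Fin 5 → V)).filter fun y => ¬ TT E ![y 0, y 1, y 2, y 3, y 4, v] := by
    intro s hs
    by_contra hno
    rw [mem_union, mem_union, mem_union, mem_filter] at hno
    push Not at hno
    obtain ⟨⟨⟨h0, h1⟩, h2⟩, h3⟩ := hno
    obtain ⟨d, hd⟩ := ext_of_tt (mem_filter.mp hs).2.1 (h3 (mem_univ _))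
    fin_cases d
    · exact h0 (mem_filter.mpr ⟨hs, hd⟩)
    · exact h1 (mem_filter.mpr ⟨hs, hd⟩)
    · exact h2 (mem_filter.mpr ⟨hs, hd⟩)
  have h3 := (card_le_card h2).trans ((card_union_le _ _).trans (Nat.add_le_add_right
    ((card_union_le _ _).trans (Nat.add_le_add_right (card_union_le _ _) _)) _))
  have h4 : ((univ : Finset (Fin 5 → V)).filter fun y =>
      ¬ TT E ![y 0, y 1, y 2, y 3, y 4, v]).card = NTv E v := rfl
  rw [h4] at h3
  by_contra hno
  push Not at hno
  have a0 := hno 0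
  have a1 := hno 1
  have a2 := hno 2
  generalize Fintype.card V ^ 5 = W at *
  omega


theorem arith3G {n a b bd N T K M : ℕ} (hn : 200000 * K * M ≤ n) (hn0 : 0 < n)
    (ha : n ^ 5 ≤ 1250 * a)
    (hab : a * b ≤ 20 * (bd * n ^ 4) + N * n + 3 * (T * n ^ 2)) (hbd : bd ≤ K * n ^ 2)
    (hN : N ≤ 20 * (bd * n ^ 3)) (hT : 15000 * M * T ≤ n ^ 5) : 2 * M * b ≤ n ^ 2 := by
  have h1 : n ^ 5 * b ≤ 1250 * (a * b) := by
    calc n ^ 5 * b ≤ 1250 * a * b := Nat.mul_le_mul_right _ ha
      _ = _ := by ring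
  have h2 : bd * n ^ 4 ≤ K * n ^ 6 := by
    calc bd * n ^ 4 ≤ K * n ^ 2 * n ^ 4 := Nat.mul_le_mul_right _ hbd
      _ = _ := by ring
  have h3 : N * n ≤ 20 * (K * n ^ 6) := by
    calc N * n ≤ 20 * (bd * n ^ 3) * n := Nat.mul_le_mul_right _ hN
      _ = 20 * (bd * n ^ 4) := by ring
      _ ≤ 20 * (K * n ^ 6) := Nat.mul_le_mul_left _ h2
  have h4 : 15000 * (M * (T * n ^ 2)) ≤ n ^ 7 := by
    calc 15000 * (M * (T * n ^ 2)) = 15000 * M * T * n ^ 2 := by ring
      _ ≤ n ^ 5 * n ^ 2 := Nat.mul_le_mul_right _ hT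
      _ = _ := by ring
  have h5 : 200000 * (K * M * n ^ 6) ≤ n ^ 7 := by
    calc 200000 * (K * M * n ^ 6) = 200000 * K * M * n ^ 6 := by ring
      _ ≤ n * n ^ 6 := Nat.mul_le_mul_right _ hn
      _ = _ := by ring
  have h6 : 2 * M * (n ^ 5 * b) ≤ n ^ 7 := by
    have e1 : 2 * M * (n ^ 5 * b) ≤ 2 * M * (1250 * (20 * (K * n ^ 6) + 20 * (K * n ^ 6) +
        3 * (T * n ^ 2))) := by
      refine Nat.mul_le_mul_left _ (h1.trans (Nat.mul_le_mul_left _ (hab.trans ?_)))
      exact Nat.add_le_add_right (Nat.add_le_add (Nat.mul_le_mul_left _ h2) h3) _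
    have e2 : 2 * M * (1250 * (20 * (K * n ^ 6) + 20 * (K * n ^ 6) + 3 * (T * n ^ 2))) =
        100000 * (K * M * n ^ 6) + 7500 * (M * (T * n ^ 2)) := by ring
    rw [e2] at e1
    omega
  have h7 : n ^ 5 * (2 * M * b) ≤ n ^ 5 * n ^ 2 := by
    calc n ^ 5 * (2 * M * b) = 2 * M * (n ^ 5 * b) := by ring
      _ ≤ n ^ 7 := h6
      _ = _ := by ring
  exact Nat.le_of_mul_le_mul_left h7 (by positivity)

variable {k : ℕ} {L : List (Finset (Finset (Fin k)))}

/-- the parts have nearly equal sizes -/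
theorem Exg.parts (h : Exg L E) {g : V → Fin 3} (hn : 10 ^ 10 ≤ Fintype.card V)
    (hb : 10 ^ 9 * bad E g ≤ Fintype.card V ^ 3) (k : Fin 3) :
    3 * Fintype.card V ≤ 10 * (Pt g k).card ∧ 10 * (Pt g k).card ≤ 4 * Fintype.card V := by
  have h1 : S3 E ≤ S3 (fun x y z => Rf (g x) (g y) (g z)) + bad E g := by
    have e1 : S3 E ≤ S3 fun x y z => Rf (g x) (g y) (g z) +
        (if E x y z ≠ Rf (g x) (g y) (g z) then 1 else 0) := by
      refine S3_le fun x y z => ?_
      rcases h.c.sy.b x y z with h1 | h1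
      · rw [h1]; exact Nat.zero_le _
      · by_cases h2 : E x y z ≠ Rf (g x) (g y) (g z)
        · rw [if_pos h2, h1]; omega
        · push Not at h2
          rw [if_neg (not_not.mpr h2), h2, add_zero]
    rw [S3_add] at e1
    refine e1.trans (Nat.add_le_add_left ?_ _)
    have e2 : S3 (fun x y z => if E x y z ≠ Rf (g x) (g y) (g z) then 1 else 0) =
        ((univ : Finset (V × V × V)).filter fun t =>
          E t.1 t.2.1 t.2.2 ≠ Rf (g t.1) (g t.2.1) (g t.2.2)).card := by
      unfold S3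
      rw [card_filter, Fintype.sum_prod_type]
      refine sum_congr rfl fun a _ => ?_
      rw [Fintype.sum_prod_type]
    rw [e2]
    unfold bad
    refine card_le_card_of_injOn (fun p => ![p.1, p.2.1, p.2.2]) ?_ ?_
    · intro p hp
      exact mem_coe.mpr (mem_filter.mpr ⟨mem_univ _, (mem_filter.mp (mem_coe.mp hp)).2⟩)
    · rintro ⟨a, b, c⟩ _ ⟨a', b', c'⟩ _ hh
      have k0 : a = a' := congrFun hh 0
      have k1 : b = b' := congrFun hh 1
      have k2 : c = c' := congrFun hh 2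
      rw [k0, k1, k2]
  rw [S3_R] at h1
  have h2 := h.low
  set n := Fintype.card V with hn'
  have h3 : 10 ^ 9 * n ^ 2 ≤ n ^ 3 := by
    calc 10 ^ 9 * n ^ 2 ≤ n * n ^ 2 := Nat.mul_le_mul_right _ (by omega)
      _ = n ^ 3 := by ring
  have h4 := part_sizes (Pt_add g) (by omega) (n := n) (by
    generalize P3 (Pt g 0).card (Pt g 1).card (Pt g 2).card = P at h1 ⊢
    generalize n ^ 3 = W at *
    generalize n ^ 2 = Z at *
    omega)
  obtain ⟨a1, a2, a3, a4, a5, a6⟩ := h4
  fin_cases k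
  exacts [⟨a1, a2⟩, ⟨a3, a4⟩, ⟨a5, a6⟩]


/-- the local conditions at all vertices -/
theorem Exg.local {C D : ℕ} (hl : LinE L C D) (h : Exg L E) {M : ℕ} (hM : 10 ^ 10 ≤ M)
    (hn : 2 * (40 * KK k C D * (15000 * M) + 1) ^ 2 ≤ Fintype.card V) :
    ∃ g : V → Fin 3, Lg E g M := by
  have hK := KK_pos k C D
  set K := KK k C D with hKdef
  have hKM : 1 ≤ K * M := Nat.mul_pos hK (by omega)
  have hM1 : M ≤ K * M := Nat.le_mul_of_pos_left _ hK
  have hbig : 600000 * (K * M) * (K * M) ≤ Fintype.card V := by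
    refine le_trans ?_ hn
    have e : 40 * K * (15000 * M) + 1 = 600000 * (K * M) + 1 := by ring
    rw [e]
    have e2 : 2 * (600000 * (K * M) + 1) ^ 2 = 720000000000 * ((K * M) * (K * M)) +
        2400000 * (K * M) + 2 := by ring
    rw [e2]
    have e3 : 600000 * (K * M) * (K * M) = 600000 * ((K * M) * (K * M)) := by ring
    rw [e3]
    omega
  have hKMn : 600000 * (K * M) ≤ Fintype.card V := by
    refine le_trans ?_ hbig
    exact Nat.le_mul_of_pos_right _ hKM
  have hn0 : 0 < Fintype.card V := by omega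
  have hn10 : 10 ^ 10 ≤ Fintype.card V := by omega
  obtain ⟨g, hg⟩ := h.col hl hn0
  have hg9 : 10 ^ 9 * bad E g ≤ Fintype.card V ^ 3 := by
    calc 10 ^ 9 * bad E g ≤ 10 ^ 9 * (K * Fintype.card V ^ 2) := Nat.mul_le_mul_left _ hg
      _ = 10 ^ 9 * K * Fintype.card V ^ 2 := by ring
      _ ≤ Fintype.card V * Fintype.card V ^ 2 := by
          refine Nat.mul_le_mul_right _ (le_trans ?_ hKMn)
          calc 10 ^ 9 * K ≤ M * K := Nat.mul_le_mul_right _ (by omega)
            _ = K * M := by ring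
            _ ≤ 600000 * (K * M) := by omega
      _ = _ := by ring
  have hparts := h.parts (g := g) hn10 hg9
  have hlo := fun k => (hparts k).1
  have hntv : ∀ v, 15000 * M * NTv E v ≤ Fintype.card V ^ 5 := fun v => h.ntv hl (15000 * M) hn v
  have hv13 : ∀ v, 10 ^ 13 * NTv E v ≤ Fintype.card V ^ 5 := fun v =>
    le_trans (Nat.mul_le_mul_right _ (by omega)) (hntv v)
  have hcol : ∀ v, ∃ d, Fintype.card V ^ 5 ≤ 1250 * (Av E g v d).card := fun v =>
    exists_colourG hg9 hlo (hv13 v)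
  choose g' hg' using hcol
  have hB : ∀ v, 2 * M * (Bv E g v (g' v)).card ≤ Fintype.card V ^ 2 := fun v =>
    arith3G (K := K) (M := M) (le_trans (by
      calc 200000 * K * M = 200000 * (K * M) := by ring
        _ ≤ 600000 * (K * M) := by omega) hKMn) hn0 (hg' v) (AB_le v (g' v)) hg (NT_le g) (hntv v)
  have hB9 : ∀ v, 2 * 10 ^ 9 * (Bv E g v (g' v)).card ≤ Fintype.card V ^ 2 := fun v =>
    le_trans (Nat.mul_le_mul_right _ (by omega)) (hB v)
  -- few vertices change their colours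
  set D' := (univ : Finset V).filter fun v => g' v ≠ g v with hD
  have hDc : 8 * D'.card ≤ 100 * K := by
    have h1 : D'.card * (8 * Fintype.card V ^ 2) ≤ 100 * bad E g := by
      calc D'.card * (8 * Fintype.card V ^ 2) = ∑ _v ∈ D', 8 * Fintype.card V ^ 2 := by
            rw [sum_const, smul_eq_mul]
        _ ≤ ∑ v ∈ D', 100 * Dv E g v := sum_le_sum fun v hv =>
            wrong_colour hlo (mem_filter.mp hv).2 (hB9 v)
        _ ≤ ∑ v, 100 * Dv E g v := sum_le_univ_sum_of_nonneg fun _ => Nat.zero_le _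
        _ = 100 * ∑ v, Dv E g v := by rw [mul_sum]
        _ ≤ 100 * bad E g := Nat.mul_le_mul_left _ sum_Dv_le
    have h2 : Fintype.card V ^ 2 * (8 * D'.card) ≤ Fintype.card V ^ 2 * (100 * K) := by
      calc Fintype.card V ^ 2 * (8 * D'.card) = D'.card * (8 * Fintype.card V ^ 2) := by ring
        _ ≤ 100 * bad E g := h1
        _ ≤ 100 * (K * Fintype.card V ^ 2) := Nat.mul_le_mul_left _ hg
        _ = _ := by ring
    exact Nat.le_of_mul_le_mul_left h2 (by positivity)
  have hDv : ∀ v, M * Dv E g' v ≤ Fintype.card V ^ 2 := by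
    intro v
    have h1 := Dv_new (E := E) (g := g) (g' := g') v
    rw [← hD] at h1
    have h2 := hB v
    have h3 : 4 * M * (D'.card * Fintype.card V) ≤ Fintype.card V ^ 2 := by
      have h5 : 4 * M * D'.card ≤ Fintype.card V := by
        calc 4 * M * D'.card ≤ M * (8 * D'.card) := by
              calc 4 * M * D'.card = M * (4 * D'.card) := by ring
                _ ≤ M * (8 * D'.card) := Nat.mul_le_mul_left _ (by omega)
          _ ≤ M * (100 * K) := Nat.mul_le_mul_left _ hDc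
          _ = 100 * (K * M) := by ring
          _ ≤ Fintype.card V := by omega
      calc 4 * M * (D'.card * Fintype.card V) = 4 * M * D'.card * Fintype.card V := by ring
        _ ≤ Fintype.card V * Fintype.card V := Nat.mul_le_mul_right _ h5
        _ = _ := by ring
    have h6 := Nat.mul_le_mul_left (2 * M) h1
    have e6 : 2 * M * ((Bv E g v (g' v)).card + 2 * (D'.card * Fintype.card V)) =
        2 * M * (Bv E g v (g' v)).card + 4 * M * (D'.card * Fintype.card V) := by ring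
    rw [e6] at h6
    have h7 : 2 * (M * Dv E g' v) ≤ 2 * Fintype.card V ^ 2 := by
      calc 2 * (M * Dv E g' v) = 2 * M * Dv E g' v := by ring
        _ ≤ _ := h6
        _ ≤ Fintype.card V ^ 2 + Fintype.card V ^ 2 := Nat.add_le_add h2 h3
        _ = _ := by ring
    omega
  have hbad : 10 ^ 9 * bad E g' ≤ Fintype.card V ^ 3 := by
    calc 10 ^ 9 * bad E g' ≤ M * ∑ v, Dv E g' v := Nat.mul_le_mul (by omega) bad_eq_sum
      _ = ∑ v, M * Dv E g' v := by rw [mul_sum]
      _ ≤ ∑ _v : V, Fintype.card V ^ 2 := sum_le_sum fun v _ => hDv v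
      _ = Fintype.card V ^ 3 := by rw [sum_const, card_univ, smul_eq_mul]; ring
  have hparts' := h.parts (g := g') hn10 hbad
  exact ⟨g', {
    hn := by omega
    hD := fun v => le_trans (Nat.mul_le_mul_right _ (by omega)) (hDv v)
    lo := fun k => (hparts' k).1
    hi := fun k => (hparts' k).2
    hn' := by omega
    hD' := hDv }⟩

/-- for large `n` these structures are Turán's constructions -/
theorem extremalG {C D : ℕ} (hl : LinE L C D) {c c' : Fin k → Fin 3} {x0 y0 x1 y1 : Fin k}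
    (h0 : x0 ≠ y0) (hc : c x0 = c y0) (hc' : c' y1 = c' x1 + 1)
    (h : Exg L E) (nn : ∀ w : Fin k → V, Function.Injective w → ¬ Ind (sw c x0 y0) E w)
    (nn' : ∀ w : Fin k → V, Function.Injective w → ¬ Ind (sw c' x1 y1) E w)
    {M : ℕ} (hM : 10 ^ 10 ≤ M) (hM2 : 200 ^ k * (k ^ 3 + 3 * k ^ 2 + 2 * k) < M)
    (hn : 2 * (40 * KK k C D * (15000 * M) + 1) ^ 2 ≤ Fintype.card V) :
    ∃ g : V → Fin 3, ∀ x y z, E x y z = Tg g x y z := by
  obtain ⟨g, hg⟩ := h.local hl hM hn
  exact ⟨g, compareG (heavyG h.c.sy h.c.k4 h.c.dg h0 hc nn hc' nn' hg hM2 hM2) (h.tu g)⟩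

end

/-! Deleting vertices of small degree. -/

/-- six times Turán's number -/
def T6 (n : ℕ) : ℕ := F6 ((n + 2) / 3) ((n + 1) / 3) (n / 3)

section
variable {V : Type} [Fintype V] {E : V → V → V → ℕ} {k : ℕ} {L : List (Finset (Finset (Fin k)))}

theorem S3_del (hC : Cg L E) (v : V) :
    S3 E ≤ S3 (fun a b c : {u : V // u ≠ v} => E a.1 b.1 c.1) + 3 * dgr E v := by
  let f : V → V → V → ℕ := fun a b c => if a = v then E v b c else 0
  let k : V → V → V → ℕ := fun a b c => if a ≠ v ∧ b ≠ v ∧ c ≠ v then E a b c else 0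
  have hE := hC.sy
  have hpt : ∀ a b c, E a b c ≤ k a b c + (f a b c + f b c a + f c a b) := by
    intro a b c
    simp only [k, f]
    by_cases h1 : a = v
    · subst h1
      simp only [ne_eq, not_true_eq_false, false_and, if_false, if_true]
      omega
    · by_cases h2 : b = v
      · subst h2
        have e1 : E b c a = E a b c := hE.h231 a b c
        simp only [if_true]
        omega
      · by_cases h3 : c = v
        · subst h3
          have e1 : E c a b = E a b c := hE.h312 a b c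
          simp only [if_true]
          omega
        · rw [if_pos ⟨h1, h2, h3⟩]
          omega
  have hs := S3_le hpt
  rw [S3_add, S3_add, S3_add, S3_rot f, S3_rot2 f] at hs
  have e1 : S3 f = dgr E v := S3_at (E v) v
  have e2 : S3 k = S3 (fun a b c : {u : V // u ≠ v} => E a.1 b.1 c.1) := by
    have hsub : ∀ F : V → ℕ, ∑ a, (if a ≠ v then F a else 0) = ∑ a : {u : V // u ≠ v}, F a.1 := by
      intro F
      rw [← sum_filter]
      exact (sum_subtype (univ.filter fun a => a ≠ v) (fun a => by simp) F)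
    unfold S3
    have e3 : ∀ a, ∑ b, ∑ c, k a b c = if a ≠ v then ∑ b, ∑ c, k a b c else 0 := by
      intro a
      by_cases ha : a = v
      · subst ha
        simp [k]
      · rw [if_pos ha]
    rw [sum_congr rfl fun a _ => e3 a, hsub fun a => ∑ b, ∑ c, k a b c]
    refine sum_congr rfl fun a _ => ?_
    have e4 : ∀ b, ∑ c, k a.1 b c = if b ≠ v then ∑ c, k a.1 b c else 0 := by
      intro b
      by_cases hb : b = v
      · subst hb
        simp [k]
      · rw [if_pos hb]
    rw [sum_congr rfl fun b _ => e4 b, hsub fun b => ∑ c, k a.1 b c]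
    refine sum_congr rfl fun b _ => ?_
    rw [← hsub fun c => E a.1 b.1 c]
    refine sum_congr rfl fun c _ => ?_
    simp only [k]
    by_cases hc : c = v
    · rw [if_neg (fun h => h.2.2 hc), if_neg (fun h => h hc)]
    · rw [if_pos ⟨a.2, b.2, hc⟩, if_pos hc]
  rw [e1, e2] at hs
  omega

/-- deleting vertices of small degree one after another -/
theorem descent {k : ℕ} (L : List (Finset (Finset (Fin k)))) : ∀ (N : ℕ) (V : Type) [Fintype V] (E : V → V → V → ℕ),
    Fintype.card V = N → Cg L E → ∀ k, T6 N + k ≤ S3 E →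
      ∃ (W : Type) (_ : Fintype W) (E' : W → W → W → ℕ), Cg L E' ∧
        T6 (Fintype.card W) + k + N ≤ S3 E' + Fintype.card W ∧ Fintype.card W ≤ N ∧
        ∀ v, T6 (Fintype.card W) ≤ T6 (Fintype.card W - 1) + 3 * dgr E' v := by
  intro N
  induction N with
  | zero =>
    intro V _ E hV hC k hk
    refine ⟨V, inferInstance, E, hC, by rw [hV]; omega, hV.le, fun v => ?_⟩
    rw [hV]
    exact Nat.le_add_right _ _
  | succ N ih =>
    intro V _ E hV hC k hk
    by_cases hall : ∀ v, T6 (N + 1) ≤ T6 N + 3 * dgr E v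
    · refine ⟨V, inferInstance, E, hC, by rw [hV]; omega, hV.le, fun v => ?_⟩
      rw [hV]
      exact hall v
    · push Not at hall
      obtain ⟨v, hv⟩ := hall
      have hcard : Fintype.card {u : V // u ≠ v} = N := by
        rw [Fintype.card_subtype_compl, Fintype.card_subtype_eq, hV]
        omega
      have hdel := S3_del hC v
      obtain ⟨W, iW, E', h1, h2, h4, h3⟩ := ih {u : V // u ≠ v}
        (fun a b c => E a.1 b.1 c.1) hcard (hC.restrict Subtype.val Subtype.val_injective) (k + 1)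
        (by omega)
      exact ⟨W, iW, E', h1, by omega, by omega, h3⟩

theorem T6_val {n : ℕ} (hn : 16 ≤ n) : 9 * (T6 n : ℤ) = Y878.EX.val n := by
  have hs : (n + 2) / 3 + (n + 1) / 3 + n / 3 = n := by omega
  have h2 := F6_all ((n + 2) / 3) ((n + 1) / 3) (n / 3) (by omega)
  have hnr : near ((n + 2) / 3) ((n + 1) / 3) (n / 3) := by unfold near; omega
  rw [hs] at h2
  rcases h2 with ⟨e2, -⟩ | ⟨-, e2⟩
  · exact e2
  · exact absurd hnr e2

/-- the degrees are large -/
theorem deg_of_T6 {n d : ℕ} (hn : 17 ≤ n) (h : T6 n ≤ T6 (n - 1) + 3 * d) :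
    5 * n ^ 2 ≤ 9 * d + 40 * n := by
  have h1 := T6_val (n := n) (by omega)
  have h2 := T6_val (n := n - 1) (by omega)
  have h3 : 9 * (T6 n : ℤ) ≤ 9 * (T6 (n - 1) : ℤ) + 27 * d := by
    have : (T6 n : ℤ) ≤ T6 (n - 1) + 3 * d := by exact_mod_cast h
    linarith
  rw [h1, h2] at h3
  have hcast : ((n - 1 : ℕ) : ℤ) = (n : ℤ) - 1 := by
    rw [Nat.cast_sub (by omega)]; rfl
  have hv1 : 5 * (n : ℤ) ^ 3 - 9 * (n : ℤ) ^ 2 - 6 * n ≤ Y878.EX.val n := by
    unfold Y878.EX.val
    have : (17 : ℤ) ≤ n := by exact_mod_cast hn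
    split_ifs <;> linarith
  have hv2 : Y878.EX.val (n - 1) ≤ 5 * ((n : ℤ) - 1) ^ 3 - 9 * ((n : ℤ) - 1) ^ 2 := by
    unfold Y878.EX.val
    rw [hcast]
    have : (17 : ℤ) ≤ n := by exact_mod_cast hn
    split_ifs <;> linarith
  have h4 : (5 : ℤ) * (n : ℤ) ^ 2 ≤ 9 * d + 40 * n := by nlinarith
  exact_mod_cast h4

theorem S3_le_cube (hC : Cg L E) : S3 E ≤ Fintype.card V ^ 3 := by
  have h1 : S3 E ≤ S3 fun (_ _ _ : V) => 1 := S3_le fun x y z => by
    rcases hC.sy.b x y z with h | h <;> rw [h] <;> norm_num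
  refine h1.trans (le_of_eq ?_)
  unfold S3
  simp only [sum_const, card_univ, smul_eq_mul, mul_one]
  ring

theorem Tg_le_T6 (hn : 16 ≤ Fintype.card V) (g : V → Fin 3) : S3 (Tg g) ≤ T6 (Fintype.card V) := by
  rw [S3_Tg]
  exact (F6_le (Pt_add g) hn).1

/-- structures with at least `T6` edges and large degrees -/
theorem exg_of (hC : Cg L E) (hn : 17 ≤ Fintype.card V) (hs : T6 (Fintype.card V) ≤ S3 E)
    (hd : ∀ v, T6 (Fintype.card V) ≤ T6 (Fintype.card V - 1) + 3 * dgr E v) : Exg L E where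
  c := hC
  tu g := (Tg_le_T6 (le_trans (by norm_num) hn) g).trans hs
  dgr v := deg_of_T6 hn (hd v)

/-- **the exact result**: for large `n`, a structure of the class with at least as many edges as
Turán's construction is Turán's construction -/
theorem exactG {C D : ℕ} (hl : LinE L C D) {c c' : Fin k → Fin 3} {x0 y0 x1 y1 : Fin k}
    (h0 : x0 ≠ y0) (hc : c x0 = c y0) (hc' : c' y1 = c' x1 + 1)
    (nn : ∀ (W : Type) (E : W → W → W → ℕ), Cg L E → ∀ w : Fin k → W, Function.Injective w →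
      ¬ Ind (sw c x0 y0) E w)
    (nn' : ∀ (W : Type) (E : W → W → W → ℕ), Cg L E → ∀ w : Fin k → W, Function.Injective w →
      ¬ Ind (sw c' x1 y1) E w) :
    ∃ N : ℕ, 16 ≤ N ∧ ∀ (V : Type) [Fintype V] (E : V → V → V → ℕ), Cg L E →
      N ≤ Fintype.card V → T6 (Fintype.card V) ≤ S3 E →
        ∃ g : V → Fin 3, ∀ x y z, E x y z = Tg g x y z := by
  obtain ⟨M, hM1, hM2⟩ : ∃ M : ℕ, 10 ^ 10 ≤ M ∧ 200 ^ k * (k ^ 3 + 3 * k ^ 2 + 2 * k) < M :=
    ⟨10 ^ 10 + 200 ^ k * (k ^ 3 + 3 * k ^ 2 + 2 * k) + 1, by omega, by omega⟩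
  obtain ⟨N, hN17, hN⟩ : ∃ N : ℕ, 17 ≤ N ∧ 2 * (40 * KK k C D * (15000 * M) + 1) ^ 2 ≤ N :=
    ⟨17 + 2 * (40 * KK k C D * (15000 * M) + 1) ^ 2, by omega, by omega⟩
  refine ⟨N ^ 3 + N + 1, by omega, ?_⟩
  intro V _ E hC hn hs
  have hNn : N ≤ Fintype.card V := by omega
  by_cases hall : ∀ v, T6 (Fintype.card V) ≤ T6 (Fintype.card V - 1) + 3 * dgr E v
  · exact extremalG hl h0 hc hc' (exg_of hC (hN17.trans hNn) hs hall) (nn V E hC) (nn' V E hC)
      hM1 hM2 (hN.trans hNn)
  exfalso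
  push Not at hall
  obtain ⟨v, hv⟩ := hall
  have hcard : Fintype.card {u : V // u ≠ v} = Fintype.card V - 1 := by
    rw [Fintype.card_subtype_compl, Fintype.card_subtype_eq]
  have hdel := S3_del hC v
  obtain ⟨W, iW, E', h1, h2, h4, h3⟩ := descent L (Fintype.card V - 1) {u : V // u ≠ v}
    (fun a b c => E a.1 b.1 c.1) hcard (hC.restrict Subtype.val Subtype.val_injective) 1 (by omega)
  have hcube := S3_le_cube h1
  have hNm : N ≤ Fintype.card W := by
    by_contra hlt
    push Not at hlt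
    have a1 : Fintype.card W ^ 3 ≤ N ^ 3 := Nat.pow_le_pow_left hlt.le 3
    omega
  have hs' : T6 (Fintype.card W) ≤ S3 E' := by omega
  obtain ⟨g, hg⟩ := extremalG hl h0 hc hc' (exg_of h1 (hN17.trans hNm) hs' h3) (nn W E' h1)
    (nn' W E' h1) hM1 hM2 (hN.trans hNm)
  have hEg : S3 E' = S3 (Tg g) := by
    unfold S3
    exact sum_congr rfl fun x _ => sum_congr rfl fun y _ => sum_congr rfl fun z _ => hg x y z
  have hT := Tg_le_T6 (V := W) (le_trans (by norm_num) (hN17.trans hNm)) g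
  rw [← hEg] at hT
  omega

end
end Pool.Agent.Run7.h211.GL
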