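import Pool.Agent.Run7.h211.GL.Exa

/-! The exact result for 3-graphs. -/

set_option autoImplicit false
set_option maxRecDepth 100000
set_option maxHeartbeats 4000000
open Finset
open scoped Classical

namespace Pool.Agent.Run7.h211.GL
open Pool.Agent.TH773 Pool.Agent.TH773.ST Pool.Agent.H122R2.N6 Pool.Agent.H37R3.Pen
open Pool.Agent.H37R3.Cop Pool.Agent.H37R3.CopL Pool.Agent.Y878.EX

section
variable {k n : ℕ} {L : List (Finset (Finset (Fin k)))}

theorem ind_perm {V : Type} {E : V → V → V → ℕ} {F F' : Finset (Finset (Fin k))}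
    {σ : Equiv.Perm (Fin k)}
    (hσ : ∀ t : Finset (Fin k), t.card = 3 → (t.image σ ∈ F ↔ t ∈ F')) {w : Fin k → V}
    (h : Ind F' E w) : Ind F E (w ∘ σ.symm) := by
  intro a b c hab hac hbc
  have h1 := h (σ.symm a) (σ.symm b) (σ.symm c) (fun e => hab (σ.symm.injective e))
    (fun e => hac (σ.symm.injective e)) (fun e => hbc (σ.symm.injective e))
  have h2 := hσ {σ.symm a, σ.symm b, σ.symm c} (card3 (fun e => hab (σ.symm.injective e))
    (fun e => hac (σ.symm.injective e)) (fun e => hbc (σ.symm.injective e)))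
  rw [image_insert, image_insert, image_singleton, Equiv.apply_symm_apply,
    Equiv.apply_symm_apply, Equiv.apply_symm_apply] at h2
  rw [h2, ← h1]
  rfl

theorem nn_of_same {F F' : Finset (Finset (Fin k))} (hF : F ∈ L) (hs : Same F F') (W : Type)
    (E : W → W → W → ℕ) (hC : Cg L E) (w : Fin k → W) (hw : Function.Injective w) :
    ¬ Ind F' E w := by
  intro h
  obtain ⟨σ, hσ⟩ := hs
  exact hC.nn F hF _ (hw.comp σ.symm.injective) (ind_perm hσ h)

theorem img' (f : Fin k → Fin n) (t : Finset (Fin k)) :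
    @Finset.image _ _ (fun a b => Classical.propDecidable (a = b)) f t =
      @Finset.image _ _ (instDecidableEqFin n) f t := by
  ext v
  simp only [mem_image]

theorem turan_none (hL : NotTuran L) (g : Fin n → Fin 3) :
    Turan34.copies L (Turan34.turan g) = 0 := by
  unfold Turan34.copies
  rw [card_eq_zero, filter_eq_empty_iff]
  rintro S - ⟨X, hX, f, hf, -, hfe⟩
  obtain ⟨t, ht, h⟩ := hL X hX (g ∘ f)
  refine h ?_
  rw [← hfe t ht]
  exact Pool.Agent.Y878.EX.mem_turan_comp g f hf t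

/-- 3-graphs of the classes -/
theorem cg_of {H : Finset (Finset (Fin n))} (hH : ∀ e ∈ H, e.card = 3) (hK : Turan34.K43Free H)
    (hc : Turan34.copies L H = 0) : Cg L (tri H) where
  sy := tri_sy H
  k4 := tri_noK4 hH hK
  dg := by
    intro a b
    rcases (tri_sy H).b a a b with h | h
    · exact h
    · exact absurd rfl (distinct_of_mem hH (tri_one.mp h)).1
  nn := by
    intro F hF x hx hi
    unfold Turan34.copies at hc
    rw [card_eq_zero, filter_eq_empty_iff] at hc
    refine hc (mem_univ _) ⟨F, hF, x, hx, rfl, ?_⟩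
    intro t ht
    obtain ⟨a, b, c, hab, hac, hbc, rfl⟩ := Finset.card_eq_three.mp ht
    rw [← hi a b c hab hac hbc, tri_one]
    refine Iff.of_eq (congrArg (fun s => s ∈ H) ?_)
    ext v
    simp only [mem_image, mem_insert, mem_singleton]
    constructor
    · rintro ⟨y, rfl | rfl | rfl, rfl⟩
      · exact Or.inl rfl
      · exact Or.inr (Or.inl rfl)
      · exact Or.inr (Or.inr rfl)
    · rintro (rfl | rfl | rfl)
      exacts [⟨a, Or.inl rfl, rfl⟩, ⟨b, Or.inr (Or.inl rfl), rfl⟩, ⟨c, Or.inr (Or.inr rfl), rfl⟩]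

/-- the exact result for every list with linear stability -/
theorem exact_H (hl : Linear L) (hA : HasA L) (hB : HasB L) : ∃ N : ℕ, 16 ≤ N ∧
    ∀ n, N ≤ n → ∀ H : Finset (Finset (Fin n)), (∀ e ∈ H, e.card = 3) → Turan34.K43Free H →
      Turan34.copies L H = 0 → 6 * H.card ≤ T6 n ∧
      (6 * H.card = T6 n → ∃ g : Fin n → Fin 3,
        near (Pt g 0).card (Pt g 1).card (Pt g 2).card ∧ H = Turan34.turan g) := by
  obtain ⟨C, D, hCD⟩ := hl
  obtain ⟨F, hF, c, x0, y0, h0, hc, hs⟩ := hA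
  obtain ⟨F', hF', c', x1, y1, hc', hs'⟩ := hB
  have hlin : LinE L C D := fun V _ E hE hd hK => lin_E hCD hE hd hK
  obtain ⟨N, hN, hex⟩ := exactG hlin h0 hc hc' (nn_of_same hF hs) (nn_of_same hF' hs')
  refine ⟨N, hN, ?_⟩
  intro n hn H hH hK hcp
  have hn' : N ≤ Fintype.card (Fin n) := by rw [Fintype.card_fin]; exact hn
  have h16 : 16 ≤ n := hN.trans hn
  have hcl := cg_of hH hK hcp
  have key : T6 n ≤ 6 * H.card → ∃ g : Fin n → Fin 3, 6 * H.card =
      F6 (Pt g 0).card (Pt g 1).card (Pt g 2).card ∧ H = Turan34.turan g := by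
    intro h
    obtain ⟨g, hg⟩ := hex (Fin n) (tri H) hcl hn' (by rw [S3_tri hH, Fintype.card_fin]; exact h)
    have hHg : H = Turan34.turan g := by
      refine eq_of_tri hH (fun e he => Pool.Agent.Y878.EX.turan_card he) fun x y z => ?_
      rw [hg, tri_turan]
    refine ⟨g, ?_, hHg⟩
    nth_rewrite 1 [hHg]
    exact turan_card6 g
  have hsz : ∀ g : Fin n → Fin 3, (Pt g 0).card + (Pt g 1).card + (Pt g 2).card = n := by
    intro g
    rw [Pt_add, Fintype.card_fin]
  refine ⟨?_, fun heq => ?_⟩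
  · by_contra hlt
    push Not at hlt
    obtain ⟨g, hg, -⟩ := key hlt.le
    have := (F6_le (hsz g) h16).1
    rw [hg] at hlt
    unfold T6 at hlt
    omega
  · obtain ⟨g, hg, hHg⟩ := key heq.ge
    refine ⟨g, ((F6_le (hsz g) h16).2).mp ?_, hHg⟩
    rw [← hg, heq]
    rfl

theorem near_iff (g : Fin n → Fin 3) : Cov.Balanced g ↔
    near (Pt g 0).card (Pt g 1).card (Pt g 2).card := by
  unfold Cov.Balanced near Pt
  constructor
  · intro h
    exact ⟨h 0 1, h 1 0, h 1 2, h 2 1, h 0 2, h 2 0⟩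
  · rintro ⟨h1, h2, h3, h4, h5, h6⟩ p q
    fin_cases p <;> fin_cases q
    exacts [Nat.le_succ _, h1, h5, h2, Nat.le_succ _, h3, h6, h4, Nat.le_succ _]

/-- the form with Turán's number -/
theorem exact_form {N : ℕ} (hN : 16 ≤ N)
    (h : ∀ n, N ≤ n → ∀ H : Finset (Finset (Fin n)), (∀ e ∈ H, e.card = 3) → Turan34.K43Free H →
      Turan34.copies L H = 0 → 6 * H.card ≤ T6 n ∧
      (6 * H.card = T6 n → ∃ g : Fin n → Fin 3,
        near (Pt g 0).card (Pt g 1).card (Pt g 2).card ∧ H = Turan34.turan g)) : Exact L N := by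
  intro n hn H hH hK hc
  have h1 := h n hn H hH hK hc
  have h3 := f_eq n (by omega)
  unfold T6 at h1
  refine ⟨by omega, fun heq => ?_, ?_⟩
  · obtain ⟨g, hg1, hg2⟩ := h1.2 (by omega)
    exact ⟨g, (near_iff g).mpr hg1, hg2⟩
  · rintro ⟨g, hg, hHg⟩
    have h4 := turan_card6 g
    have hsz : (Pt g 0).card + (Pt g 1).card + (Pt g 2).card = n := by
      rw [Pt_add, Fintype.card_fin]
    have h5 := ((F6_le hsz (by omega)).2).mpr ((near_iff g).mp hg)
    rw [hHg]
    omega

/-- **linear stability implies the exact result** -/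
theorem exact_of_linear (hl : Linear L) (hA : HasA L) (hB : HasB L) : ∃ N, Exact L N := by
  obtain ⟨N, hN, h⟩ := exact_H hl hA hB
  exact ⟨N, exact_form hN h⟩

end
end Pool.Agent.Run7.h211.GL
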