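import Pool.Agent.Run7.h211.GL.Cfg

/-! Pairs of vertices in many extra edges. -/

set_option autoImplicit false
set_option maxRecDepth 100000
set_option maxHeartbeats 4000000
open Finset
open scoped Classical

namespace Pool.Agent.Run7.h211.GL
open Pool.Agent.TH773 Pool.Agent.TH773.ST Pool.Agent.H122R2.N6 Pool.Agent.H37R3.Pen
open Pool.Agent.H37R3.Cop Pool.Agent.H37R3.CopL Pool.Agent.Y878.EX

/-- the local conditions -/
structure Lg {V : Type} [Fintype V] (E : V → V → V → ℕ) (g : V → Fin 3) (M : ℕ) : Prop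
    extends Loc E g where
  hn' : M ≤ Fintype.card V
  hD' : ∀ v, M * Dv E g v ≤ Fintype.card V ^ 2

section
variable {V : Type} [Fintype V] {E : V → V → V → ℕ} {g : V → Fin 3} {k M : ℕ}
  {c : Fin k → Fin 3} {x0 y0 : Fin k}

theorem rot_es : ∀ a t : Fin 3, a + (t - a) = t := by decide
theorem rot_es1 : ∀ a t : Fin 3, a + 1 + (t - a) = t + 1 := by decide
theorem rot_part : ∀ a b t : Fin 3, b ≠ a → b + (t - a) ≠ t := by decide

theorem same_lightG (hE : Sy E) (hK : NoK4 E) (hd : ∀ a b, E a a b = 0)
    (h0 : x0 ≠ y0) (hc : c x0 = c y0)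
    (nn : ∀ w : Fin k → V, Function.Injective w → ¬ Ind (sw c x0 y0) E w)
    (hL : Lg E g M) (hM : 200 ^ k * (k ^ 3 + 3 * k ^ 2 + 2 * k) < M) {x y : V} (hxy : g y = g x) :
    100 * (Bs E g x y).card < Fintype.card V := by
  by_contra hno
  push Not at hno
  set t := g x with ht
  set n := Fintype.card V with hn
  have hn4 := hL.hn
  rw [← hn] at hn4
  have hn0 : 0 < n := by omega
  have hD := Dv_two hL.toLoc x y
  have hne : x ≠ y := by
    rintro rfl
    have : (Bs E g x x).card = 0 := by
      rw [card_eq_zero, eq_empty_iff_forall_notMem]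
      intro z hz
      have h1 := (mem_filter.mp hz).2.1
      rw [hd] at h1
      exact absurd h1 (by decide)
    omega
  have hsub : Bs E g x y ⊆ Q E g x y t 1 ∪ Q E g x y (t + 2) 1 := by
    intro z hz
    obtain ⟨h1, h2⟩ := (mem_filter.mp hz).2
    have hdd := dist_of_one hE hd h1
    unfold Tg at h2
    rw [if_pos hdd, hxy] at h2
    rw [mem_union]
    rcases Rf_s0 _ _ h2 with h3 | h3
    · left; exact mem_filter.mpr ⟨mem_univ _, h3, h1⟩
    · right; exact mem_filter.mpr ⟨mem_univ _, h3, h1⟩
  have hc1 := (card_le_card hsub).trans (card_union_le _ _)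
  have h2 : 200 * (Q E g x y (t + 2) 1).card < n := by
    by_contra h
    push Not at h
    have hpb := pb (g := g) hE hK (x := x) (y := y) (Q E g x y (t + 2) 1) (Q E g x y (t + 2) 1)
      (fun a ha => (mem_filter.mp ha).2.2) (fun a ha => (mem_filter.mp ha).2.2) (by
        intro a ha b hb
        rw [(mem_filter.mp ha).2.1, (mem_filter.mp hb).2.1, hxy, ← ht]
        exact ⟨Rf_1 t, Rf_1 t⟩)
    have := small_of_prod hn0 hpb hD h (q := 300) (by norm_num)
    omega
  have h0' : n ≤ 200 * (Q E g x y t 1).card := by omega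
  have h1 : 1000 * (Q E g x y (t + 1) 1).card ≤ n := by
    have hpb := pb (g := g) hE hK (x := x) (y := y) (Q E g x y t 1) (Q E g x y (t + 1) 1)
      (fun a ha => (mem_filter.mp ha).2.2) (fun a ha => (mem_filter.mp ha).2.2) (by
        intro a ha b hb
        rw [(mem_filter.mp ha).2.1, (mem_filter.mp hb).2.1, hxy, ← ht]
        exact ⟨Rf_2 t, Rf_2 t⟩)
    exact small_of_prod hn0 hpb hD h0' (by norm_num)
  have q1 := Q_add (g := g) hE x y (t + 1)
  have q2 := Q_add (g := g) hE x y (t + 2)
  have l1 := hL.lo (t + 1)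
  have l2 := hL.lo (t + 2)
  rw [← hn] at l1 l2
  have s1 : n ≤ 200 * (Q E g x y (t + 1) 0).card := by omega
  have s2 : n ≤ 200 * (Q E g x y (t + 2) 0).card := by omega
  have sz : ∀ p : Fin 3, p ≠ t → n ≤ 200 * (Q E g x y p 0).card := by
    intro p hp
    have : p = t + 1 ∨ p = t + 2 := by
      revert hp
      generalize t = t
      revert p t
      decide
    rcases this with rfl | rfl
    exacts [s1, s2]
  have es : c x0 + (t - c x0) = t := rot_es _ _
  refine config (g := g) h0 hE nn hne (s := t - c x0) (by rw [es]) (by rw [← hc, es, hxy])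
    (fun j => if c j = c x0 then Q E g x y t 1 else Q E g x y (c j + (t - c x0)) 0) ?_
    hL.hD' hL.hn' hM ?_ (by norm_num)
  · intro j _ _ v hvj
    by_cases hj : c j = c x0
    · rw [if_pos hj] at hvj
      have hv := (mem_filter.mp hvj).2
      refine ⟨by rw [hv.1, hj, es], ?_⟩
      rw [hv.2]
      exact ⟨fun _ => Or.inl hj, fun _ => rfl⟩
    · rw [if_neg hj] at hvj
      have hv := (mem_filter.mp hvj).2
      refine ⟨hv.1, ?_⟩
      rw [hv.2]
      constructor
      · intro h; exact absurd h (by decide)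
      · rintro (h | h)
        · exact absurd h hj
        · exact absurd (h.trans hc.symm) hj
  · intro j _ _
    by_cases hj : c j = c x0
    · rw [if_pos hj]; exact h0'
    · rw [if_neg hj]; exact sz _ (rot_part _ _ _ hj)

/-- pairs in consecutive parts which are in many extra edges are in few edges at all -/
theorem cross_heavyG (hE : Sy E) (hK : NoK4 E) (hd : ∀ a b, E a a b = 0)
    (hc : c y0 = c x0 + 1)
    (nn : ∀ w : Fin k → V, Function.Injective w → ¬ Ind (sw c x0 y0) E w)
    (hL : Lg E g M) (hM : 200 ^ k * (k ^ 3 + 3 * k ^ 2 + 2 * k) < M) {x y : V}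
    (hxy : g y = g x + 1) (hh : Fintype.card V ≤ 100 * (Bs E g x y).card) :
    58 * Fintype.card V ≤ 100 * (Ms E g x y).card ∧ 10 * (Bs E g x y).card ≤ 4 * Fintype.card V := by
  set t := g x with ht
  set n := Fintype.card V with hn
  have hn4 := hL.hn
  rw [← hn] at hn4
  have hn0 : 0 < n := by omega
  have hD := Dv_two hL.toLoc x y
  have hne : x ≠ y := by
    rintro rfl
    exact n1 t (ht.trans hxy)
  have h0 : x0 ≠ y0 := by
    rintro rfl
    exact n1 (c x0) hc
  have hsub : Bs E g x y ⊆ Q E g x y (t + 1) 1 := by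
    intro z hz
    obtain ⟨h1, h2⟩ := (mem_filter.mp hz).2
    have hdd := dist_of_one hE hd h1
    unfold Tg at h2
    rw [if_pos hdd, hxy, ← ht] at h2
    exact mem_filter.mpr ⟨mem_univ _, Rf_c0 _ _ h2, h1⟩
  have hc1 := card_le_card hsub
  have q0 := Q_add (g := g) hE x y t
  have q1 := Q_add (g := g) hE x y (t + 1)
  have q2 := Q_add (g := g) hE x y (t + 2)
  have l0 := hL.lo t
  have l2 := hL.lo (t + 2)
  have u1 := hL.hi (t + 1)
  rw [← hn] at l0 l2 u1
  have h1 : n ≤ 100 * (Q E g x y (t + 1) 1).card := by omega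
  have h2 : 1000 * (Q E g x y (t + 2) 1).card ≤ n := by
    have hpb := pb (g := g) hE hK (x := x) (y := y) (Q E g x y (t + 1) 1) (Q E g x y (t + 2) 1)
      (fun a ha => (mem_filter.mp ha).2.2) (fun a ha => (mem_filter.mp ha).2.2) (by
        intro a ha b hb
        rw [(mem_filter.mp ha).2.1, (mem_filter.mp hb).2.1, hxy, ← ht]
        exact Rf_3 t)
    exact small_of_prod hn0 hpb hD h1 (by norm_num)
  have s2 : 29 * n ≤ 100 * (Q E g x y (t + 2) 0).card := by omega
  have h0' : 100 * (Q E g x y t 1).card < n := by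
    by_contra h
    push Not at h
    have es : c x0 + (t - c x0) = t := rot_es _ _
    have es1 : c y0 + (t - c x0) = t + 1 := by rw [hc]; exact rot_es1 _ _
    have k1 : n ≤ 200 * (Q E g x y (t + 1) 1).card := by omega
    have k0 : n ≤ 200 * (Q E g x y t 1).card := by omega
    have k2 : n ≤ 200 * (Q E g x y (t + 2) 0).card := by omega
    have hthird : ∀ a b t : Fin 3, b ≠ a → b ≠ a + 1 → b + (t - a) = t + 2 := by decide
    refine config (g := g) h0 hE nn hne (s := t - c x0) (by rw [es]) (by rw [es1, hxy])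
      (fun j => if c j = c x0 then Q E g x y t 1 else if c j = c y0 then Q E g x y (t + 1) 1
        else Q E g x y (t + 2) 0) ?_ hL.hD' hL.hn' hM ?_ (by norm_num)
    · intro j _ _ v hvj
      by_cases hj : c j = c x0
      · rw [if_pos hj] at hvj
        have hv := (mem_filter.mp hvj).2
        refine ⟨by rw [hv.1, hj, es], ?_⟩
        rw [hv.2]
        exact ⟨fun _ => Or.inl hj, fun _ => rfl⟩
      · rw [if_neg hj] at hvj
        by_cases hj' : c j = c y0
        · rw [if_pos hj'] at hvj
          have hv := (mem_filter.mp hvj).2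
          refine ⟨by rw [hv.1, hj', es1], ?_⟩
          rw [hv.2]
          exact ⟨fun _ => Or.inr hj', fun _ => rfl⟩
        · rw [if_neg hj'] at hvj
          have hv := (mem_filter.mp hvj).2
          refine ⟨by rw [hv.1, hthird _ _ _ hj (fun h => hj' (h.trans hc.symm))], ?_⟩
          rw [hv.2]
          constructor
          · intro h; exact absurd h (by decide)
          · rintro (h | h)
            · exact absurd h hj
            · exact absurd h hj'
    · intro j _ _
      by_cases hj : c j = c x0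
      · rw [if_pos hj]; exact k0
      · rw [if_neg hj]
        by_cases hj' : c j = c y0
        · rw [if_pos hj']; exact k1
        · rw [if_neg hj']; exact k2
  refine ⟨?_, by omega⟩
  have hM' : (Q E g x y t 0).erase x ∪ Q E g x y (t + 2) 0 ⊆ Ms E g x y := by
    intro w hw
    rw [mem_union, mem_erase] at hw
    rcases hw with ⟨hwx, hw⟩ | hw
    · obtain ⟨h1, h2⟩ := (mem_filter.mp hw).2
      refine mem_filter.mpr ⟨mem_univ _, h2, ?_⟩
      have hwy : y ≠ w := by
        rintro rfl
        exact n1 t (h1.symm.trans hxy)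
      unfold Tg
      rw [if_pos ⟨hne, Ne.symm hwx, hwy⟩, hxy, h1, ← ht]
      exact Rf_2 t
    · obtain ⟨h1, h2⟩ := (mem_filter.mp hw).2
      refine mem_filter.mpr ⟨mem_univ _, h2, ?_⟩
      have hwx : x ≠ w := by
        rintro rfl
        exact n2 t (ht.trans h1)
      have hwy : y ≠ w := by
        rintro rfl
        exact n3 t (hxy.symm.trans h1)
      unfold Tg
      rw [if_pos ⟨hne, hwx, hwy⟩, hxy, h1, ← ht]
      exact Rf_4 t
  have hdis : Disjoint ((Q E g x y t 0).erase x) (Q E g x y (t + 2) 0) := by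
    rw [disjoint_left]
    intro w h1 h2
    have h1' := (mem_filter.mp (mem_of_mem_erase h1)).2.1
    have h2' := (mem_filter.mp h2).2.1
    exact n2 t (h1'.symm.trans h2')
  have hcM := card_le_card hM'
  rw [card_union_of_disjoint hdis] at hcM
  have he := pred_card_le_card_erase (s := Q E g x y t 0) (a := x)
  omega

/-- everything which is needed near Turán's construction -/
structure Hv {V : Type} [Fintype V] (E : V → V → V → ℕ) (g : V → Fin 3) : Prop where
  sy : Sy E
  k4 : NoK4 E
  dg : ∀ a b, E a a b = 0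
  loc : Loc E g
  hv : ∀ x y, Fintype.card V ≤ 100 * (Bs E g x y).card →
    58 * Fintype.card V ≤ 100 * (Ms E g x y).card ∧ 10 * (Bs E g x y).card ≤ 4 * Fintype.card V

theorem heavyG {k' : ℕ} {c' : Fin k' → Fin 3} {x1 y1 : Fin k'} (hE : Sy E) (hK : NoK4 E)
    (hd : ∀ a b, E a a b = 0) (h0 : x0 ≠ y0) (hc : c x0 = c y0)
    (nn : ∀ w : Fin k → V, Function.Injective w → ¬ Ind (sw c x0 y0) E w)
    (hc' : c' y1 = c' x1 + 1)
    (nn' : ∀ w : Fin k' → V, Function.Injective w → ¬ Ind (sw c' x1 y1) E w)
    (hL : Lg E g M) (hM : 200 ^ k * (k ^ 3 + 3 * k ^ 2 + 2 * k) < M)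
    (hM' : 200 ^ k' * (k' ^ 3 + 3 * k' ^ 2 + 2 * k') < M) : Hv E g where
  sy := hE
  k4 := hK
  dg := hd
  loc := hL.toLoc
  hv := by
    intro x y hh
    rcases three (g x) (g y) with h | h | h
    · have := same_lightG hE hK hd h0 hc nn hL hM h
      omega
    · exact cross_heavyG hE hK hd hc' nn' hL hM' h hh
    · rw [Bs_comm hE x y] at hh
      have := cross_heavyG hE hK hd hc' nn' hL hM' h hh
      rw [Bs_comm hE x y, Ms_comm hE x y]
      exact this

end
end Pool.Agent.Run7.h211.GL
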