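import Pool.Agent.Run7.h211.GL.Cnt

/-! Linear stability near Turán's construction. -/

set_option autoImplicit false
set_option maxRecDepth 100000
set_option maxHeartbeats 4000000
open Finset
open scoped Classical

namespace Pool.Agent.Run7.h211.GL
open Pool.Agent.TH773 Pool.Agent.TH773.ST Pool.Agent.H122R2.N6 Pool.Agent.H37R3.Pen
open Pool.Agent.H37R3.Cop Pool.Agent.H37R3.CopL Pool.Agent.Y878.EX

section
variable {V : Type} [Fintype V] {E : V → V → V → ℕ} {g : V → Fin 3} {k M : ℕ}
  {L : List (Finset (Finset (Fin k)))} {c : Fin k → Fin 3} {x0 y0 : Fin k}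

theorem sum_thr (P : Finset (V × V)) : ∑ p ∈ P, (thr (c := c) x0 y0 E p.1 p.2).card ≤
    (tf [sw c x0 y0] E).card := by
  rw [← card_biUnion]
  · refine card_le_card fun w hw => ?_
    obtain ⟨p, -, h⟩ := mem_biUnion.mp hw
    exact (mem_filter.mp h).1
  · intro p _ q _ hpq
    refine Finset.disjoint_left.mpr ?_
    intro w h1 h2
    have h1' := (mem_filter.mp h1).2
    have h2' := (mem_filter.mp h2).2
    exact hpq (Prod.ext (h1'.1.symm.trans h2'.1) (h1'.2.symm.trans h2'.2))

theorem tf_le {F F' : Finset (Finset (Fin k))} (hF : F ∈ L) (hs : Same F F') :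
    (tf [F'] E).card ≤ cpE L E := by
  obtain ⟨σ, hσ⟩ := hs
  unfold cpE
  refine card_le_card_of_injOn (fun w => w ∘ σ.symm) ?_ ?_
  · intro w hw
    rw [mem_coe, mem_tf] at hw ⊢
    obtain ⟨h1, X, hX, h2⟩ := hw
    rw [List.mem_singleton] at hX
    subst hX
    exact ⟨h1.comp σ.symm.injective, F, hF, ind_perm hσ h2⟩
  · intro w _ w1 _ h
    funext i
    have := congrFun h (σ i)
    simpa using this

theorem pairs_le {F : Finset (Finset (Fin k))} (hF : F ∈ L) (hs : Same F (sw c x0 y0))
    (P : Finset (V × V)) {q : ℕ} (h : ∀ p ∈ P, Fintype.card V ^ k ≤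
      2 * q ^ k * (Fintype.card V ^ 2 * (thr (c := c) x0 y0 E p.1 p.2).card)) :
    P.card * Fintype.card V ^ k ≤ 2 * q ^ k * (Fintype.card V ^ 2 * cpE L E) := by
  calc P.card * Fintype.card V ^ k = ∑ _p ∈ P, Fintype.card V ^ k := by rw [sum_const, smul_eq_mul]
    _ ≤ ∑ p ∈ P, 2 * q ^ k * (Fintype.card V ^ 2 * (thr (c := c) x0 y0 E p.1 p.2).card) :=
        sum_le_sum h
    _ = 2 * q ^ k * (Fintype.card V ^ 2 * ∑ p ∈ P, (thr (c := c) x0 y0 E p.1 p.2).card) := by
        rw [mul_sum, mul_sum]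
    _ ≤ 2 * q ^ k * (Fintype.card V ^ 2 * cpE L E) :=
        Nat.mul_le_mul_left _ (Nat.mul_le_mul_left _ ((sum_thr P).trans (tf_le hF hs)))

theorem same_heavyC (hE : Sy E) (hK : NoK4 E) (hd : ∀ a b, E a a b = 0)
    (h0 : x0 ≠ y0) (hc : c x0 = c y0)
    (hL : Lg E g M) (hM : 2 * (200 ^ k * (k ^ 3 + 3 * k ^ 2 + 2 * k)) < M) {x y : V}
    (hxy : g y = g x) (hno : Fintype.card V ≤ 100 * (Bs E g x y).card) :
    Fintype.card V ^ k ≤
      2 * 200 ^ k * (Fintype.card V ^ 2 * (thr (c := c) x0 y0 E x y).card) := by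
  set t := g x with ht
  set n := Fintype.card V with hn
  have hn4 := hL.hn
  rw [← hn] at hn4
  have hn0 : 0 < n := by omega
  have hD := Dv_two hL.toLoc x y
  have hne : x ≠ y := by
    rintro rfl
    have : (Bs E g x x).card = 0 := by
      rw [card_eq_zero, eq_empty_iff_forall_notMem]
      intro z hz
      have h1 := (mem_filter.mp hz).2.1
      rw [hd] at h1
      exact absurd h1 (by decide)
    omega
  have hsub : Bs E g x y ⊆ Q E g x y t 1 ∪ Q E g x y (t + 2) 1 := by
    intro z hz
    obtain ⟨h1, h2⟩ := (mem_filter.mp hz).2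
    have hdd := dist_of_one hE hd h1
    unfold Tg at h2
    rw [if_pos hdd, hxy] at h2
    rw [mem_union]
    rcases Rf_s0 _ _ h2 with h3 | h3
    · left; exact mem_filter.mpr ⟨mem_univ _, h3, h1⟩
    · right; exact mem_filter.mpr ⟨mem_univ _, h3, h1⟩
  have hc1 := (card_le_card hsub).trans (card_union_le _ _)
  have h2 : 200 * (Q E g x y (t + 2) 1).card < n := by
    by_contra h
    push Not at h
    have hpb := pb (g := g) hE hK (x := x) (y := y) (Q E g x y (t + 2) 1) (Q E g x y (t + 2) 1)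
      (fun a ha => (mem_filter.mp ha).2.2) (fun a ha => (mem_filter.mp ha).2.2) (by
        intro a ha b hb
        rw [(mem_filter.mp ha).2.1, (mem_filter.mp hb).2.1, hxy, ← ht]
        exact ⟨Rf_1 t, Rf_1 t⟩)
    have := small_of_prod hn0 hpb hD h (q := 300) (by norm_num)
    omega
  have h0' : n ≤ 200 * (Q E g x y t 1).card := by omega
  have h1 : 1000 * (Q E g x y (t + 1) 1).card ≤ n := by
    have hpb := pb (g := g) hE hK (x := x) (y := y) (Q E g x y t 1) (Q E g x y (t + 1) 1)
      (fun a ha => (mem_filter.mp ha).2.2) (fun a ha => (mem_filter.mp ha).2.2) (by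
        intro a ha b hb
        rw [(mem_filter.mp ha).2.1, (mem_filter.mp hb).2.1, hxy, ← ht]
        exact ⟨Rf_2 t, Rf_2 t⟩)
    exact small_of_prod hn0 hpb hD h0' (by norm_num)
  have q1 := Q_add (g := g) hE x y (t + 1)
  have q2 := Q_add (g := g) hE x y (t + 2)
  have l1 := hL.lo (t + 1)
  have l2 := hL.lo (t + 2)
  rw [← hn] at l1 l2
  have s1 : n ≤ 200 * (Q E g x y (t + 1) 0).card := by omega
  have s2 : n ≤ 200 * (Q E g x y (t + 2) 0).card := by omega
  have sz : ∀ p : Fin 3, p ≠ t → n ≤ 200 * (Q E g x y p 0).card := by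
    intro p hp
    have : p = t + 1 ∨ p = t + 2 := by
      revert hp
      generalize t = t
      revert p t
      decide
    rcases this with rfl | rfl
    exacts [s1, s2]
  have es : c x0 + (t - c x0) = t := rot_es _ _
  refine configC (g := g) h0 hE hne (s := t - c x0) (by rw [es]) (by rw [← hc, es, hxy])
    (fun j => if c j = c x0 then Q E g x y t 1 else Q E g x y (c j + (t - c x0)) 0) ?_
    hL.hD' hL.hn' hM ?_ (by norm_num)
  · intro j _ _ v hvj
    by_cases hj : c j = c x0
    · rw [if_pos hj] at hvj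
      have hv := (mem_filter.mp hvj).2
      refine ⟨by rw [hv.1, hj, es], ?_⟩
      rw [hv.2]
      exact ⟨fun _ => Or.inl hj, fun _ => rfl⟩
    · rw [if_neg hj] at hvj
      have hv := (mem_filter.mp hvj).2
      refine ⟨hv.1, ?_⟩
      rw [hv.2]
      constructor
      · intro h; exact absurd h (by decide)
      · rintro (h | h)
        · exact absurd h hj
        · exact absurd (h.trans hc.symm) hj
  · intro j _ _
    by_cases hj : c j = c x0
    · rw [if_pos hj]; exact h0'
    · rw [if_neg hj]; exact sz _ (rot_part _ _ _ hj)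

/-- pairs in consecutive parts which are in many extra edges are in few edges at all -/
theorem cross_heavyC (hE : Sy E) (hK : NoK4 E) (hd : ∀ a b, E a a b = 0)
    (hc : c y0 = c x0 + 1)
    (hL : Lg E g M) (hM : 2 * (200 ^ k * (k ^ 3 + 3 * k ^ 2 + 2 * k)) < M) {x y : V}
    (hxy : g y = g x + 1) (hh : Fintype.card V ≤ 100 * (Bs E g x y).card) :
    Fintype.card V ^ k ≤
      2 * 200 ^ k * (Fintype.card V ^ 2 * (thr (c := c) x0 y0 E x y).card) ∨
    (58 * Fintype.card V ≤ 100 * (Ms E g x y).card ∧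
      10 * (Bs E g x y).card ≤ 4 * Fintype.card V) := by
  set t := g x with ht
  set n := Fintype.card V with hn
  have hn4 := hL.hn
  rw [← hn] at hn4
  have hn0 : 0 < n := by omega
  have hD := Dv_two hL.toLoc x y
  have hne : x ≠ y := by
    rintro rfl
    exact n1 t (ht.trans hxy)
  have h0 : x0 ≠ y0 := by
    rintro rfl
    exact n1 (c x0) hc
  have hsub : Bs E g x y ⊆ Q E g x y (t + 1) 1 := by
    intro z hz
    obtain ⟨h1, h2⟩ := (mem_filter.mp hz).2
    have hdd := dist_of_one hE hd h1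
    unfold Tg at h2
    rw [if_pos hdd, hxy, ← ht] at h2
    exact mem_filter.mpr ⟨mem_univ _, Rf_c0 _ _ h2, h1⟩
  have hc1 := card_le_card hsub
  have q0 := Q_add (g := g) hE x y t
  have q1 := Q_add (g := g) hE x y (t + 1)
  have q2 := Q_add (g := g) hE x y (t + 2)
  have l0 := hL.lo t
  have l2 := hL.lo (t + 2)
  have u1 := hL.hi (t + 1)
  rw [← hn] at l0 l2 u1
  have h1 : n ≤ 100 * (Q E g x y (t + 1) 1).card := by omega
  have h2 : 1000 * (Q E g x y (t + 2) 1).card ≤ n := by
    have hpb := pb (g := g) hE hK (x := x) (y := y) (Q E g x y (t + 1) 1) (Q E g x y (t + 2) 1)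
      (fun a ha => (mem_filter.mp ha).2.2) (fun a ha => (mem_filter.mp ha).2.2) (by
        intro a ha b hb
        rw [(mem_filter.mp ha).2.1, (mem_filter.mp hb).2.1, hxy, ← ht]
        exact Rf_3 t)
    exact small_of_prod hn0 hpb hD h1 (by norm_num)
  have s2 : 29 * n ≤ 100 * (Q E g x y (t + 2) 0).card := by omega
  by_cases h : n ≤ 100 * (Q E g x y t 1).card
  · left
    have es : c x0 + (t - c x0) = t := rot_es _ _
    have es1 : c y0 + (t - c x0) = t + 1 := by rw [hc]; exact rot_es1 _ _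
    have k1 : n ≤ 200 * (Q E g x y (t + 1) 1).card := by omega
    have k0 : n ≤ 200 * (Q E g x y t 1).card := by omega
    have k2 : n ≤ 200 * (Q E g x y (t + 2) 0).card := by omega
    have hthird : ∀ a b t : Fin 3, b ≠ a → b ≠ a + 1 → b + (t - a) = t + 2 := by decide
    refine configC (g := g) h0 hE hne (s := t - c x0) (by rw [es]) (by rw [es1, hxy])
      (fun j => if c j = c x0 then Q E g x y t 1 else if c j = c y0 then Q E g x y (t + 1) 1
        else Q E g x y (t + 2) 0) ?_ hL.hD' hL.hn' hM ?_ (by norm_num)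
    · intro j _ _ v hvj
      by_cases hj : c j = c x0
      · rw [if_pos hj] at hvj
        have hv := (mem_filter.mp hvj).2
        refine ⟨by rw [hv.1, hj, es], ?_⟩
        rw [hv.2]
        exact ⟨fun _ => Or.inl hj, fun _ => rfl⟩
      · rw [if_neg hj] at hvj
        by_cases hj' : c j = c y0
        · rw [if_pos hj'] at hvj
          have hv := (mem_filter.mp hvj).2
          refine ⟨by rw [hv.1, hj', es1], ?_⟩
          rw [hv.2]
          exact ⟨fun _ => Or.inr hj', fun _ => rfl⟩
        · rw [if_neg hj'] at hvj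
          have hv := (mem_filter.mp hvj).2
          refine ⟨by rw [hv.1, hthird _ _ _ hj (fun h => hj' (h.trans hc.symm))], ?_⟩
          rw [hv.2]
          constructor
          · intro h; exact absurd h (by decide)
          · rintro (h | h)
            · exact absurd h hj
            · exact absurd h hj'
    · intro j _ _
      by_cases hj : c j = c x0
      · rw [if_pos hj]; exact k0
      · rw [if_neg hj]
        by_cases hj' : c j = c y0
        · rw [if_pos hj']; exact k1
        · rw [if_neg hj']; exact k2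
  right
  have h0' : 100 * (Q E g x y t 1).card < n := not_le.mp h
  refine ⟨?_, by omega⟩
  have hM' : (Q E g x y t 0).erase x ∪ Q E g x y (t + 2) 0 ⊆ Ms E g x y := by
    intro w hw
    rw [mem_union, mem_erase] at hw
    rcases hw with ⟨hwx, hw⟩ | hw
    · obtain ⟨h1, h2⟩ := (mem_filter.mp hw).2
      refine mem_filter.mpr ⟨mem_univ _, h2, ?_⟩
      have hwy : y ≠ w := by
        rintro rfl
        exact n1 t (h1.symm.trans hxy)
      unfold Tg
      rw [if_pos ⟨hne, Ne.symm hwx, hwy⟩, hxy, h1, ← ht]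
      exact Rf_2 t
    · obtain ⟨h1, h2⟩ := (mem_filter.mp hw).2
      refine mem_filter.mpr ⟨mem_univ _, h2, ?_⟩
      have hwx : x ≠ w := by
        rintro rfl
        exact n2 t (ht.trans h1)
      have hwy : y ≠ w := by
        rintro rfl
        exact n3 t (hxy.symm.trans h1)
      unfold Tg
      rw [if_pos ⟨hne, hwx, hwy⟩, hxy, h1, ← ht]
      exact Rf_4 t
  have hdis : Disjoint ((Q E g x y t 0).erase x) (Q E g x y (t + 2) 0) := by
    rw [disjoint_left]
    intro w h1 h2
    have h1' := (mem_filter.mp (mem_of_mem_erase h1)).2.1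
    have h2' := (mem_filter.mp h2).2.1
    exact n2 t (h1'.symm.trans h2')
  have hcM := card_le_card hM'
  rw [card_union_of_disjoint hdis] at hcM
  have he := pred_card_le_card_erase (s := Q E g x y t 0) (a := x)
  omega

/-- the pairs in many extra edges which are not in few edges -/
noncomputable def Pp (E : V → V → V → ℕ) (g : V → Fin 3) : Finset (V × V) :=
  univ.filter fun p => Fintype.card V ≤ 100 * (Bs E g p.1 p.2).card ∧
    ¬ (58 * Fintype.card V ≤ 100 * (Ms E g p.1 p.2).card ∧
      10 * (Bs E g p.1 p.2).card ≤ 4 * Fintype.card V)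

theorem Pp_le {F F' : Finset (Finset (Fin k))} {c' : Fin k → Fin 3} {x1 y1 : Fin k}
    (hE : Sy E) (hK : NoK4 E) (hd : ∀ a b, E a a b = 0) (hF : F ∈ L) (hF' : F' ∈ L)
    (h0 : x0 ≠ y0) (hc : c x0 = c y0) (hs : Same F (sw c x0 y0))
    (hc' : c' y1 = c' x1 + 1) (hs' : Same F' (sw c' x1 y1))
    (hL : Lg E g M) (hM : 2 * (200 ^ k * (k ^ 3 + 3 * k ^ 2 + 2 * k)) < M) :
    (Pp E g).card * Fintype.card V ^ k ≤ 6 * 200 ^ k * (Fintype.card V ^ 2 * cpE L E) := by
  set n := Fintype.card V with hn
  have a1 : ((Pp E g).filter fun p => g p.2 = g p.1).card * n ^ k ≤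
      2 * 200 ^ k * (n ^ 2 * cpE L E) := by
    refine pairs_le hF hs _ fun p hp => ?_
    obtain ⟨hp1, hp2⟩ := mem_filter.mp hp
    exact same_heavyC hE hK hd h0 hc hL hM hp2 (mem_filter.mp hp1).2.1
  have a2 : ((Pp E g).filter fun p => g p.2 = g p.1 + 1).card * n ^ k ≤
      2 * 200 ^ k * (n ^ 2 * cpE L E) := by
    refine pairs_le hF' hs' _ fun p hp => ?_
    obtain ⟨hp1, hp2⟩ := mem_filter.mp hp
    rcases cross_heavyC hE hK hd hc' hL hM hp2 (mem_filter.mp hp1).2.1 with h | h
    · exact h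
    · exact absurd h (mem_filter.mp hp1).2.2
  have a3 : ((Pp E g).filter fun p => g p.1 = g p.2 + 1).card ≤
      ((Pp E g).filter fun p => g p.2 = g p.1 + 1).card := by
    refine card_le_card_of_injOn Prod.swap ?_ (Prod.swap_injective.injOn)
    intro p hp
    obtain ⟨hp1, hp2⟩ := mem_filter.mp (mem_coe.mp hp)
    have hp3 := (mem_filter.mp hp1).2
    refine mem_coe.mpr (mem_filter.mpr ⟨mem_filter.mpr ⟨mem_univ _, ?_⟩, hp2⟩)
    rw [Bs_comm hE, Ms_comm hE] at hp3
    exact hp3
  have a4 : (Pp E g).card ≤ ((Pp E g).filter fun p => g p.2 = g p.1).card +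
      (((Pp E g).filter fun p => g p.2 = g p.1 + 1).card +
        ((Pp E g).filter fun p => g p.1 = g p.2 + 1).card) := by
    refine le_trans (card_le_card ?_) ((card_union_le _ _).trans
      (Nat.add_le_add_left (card_union_le _ _) _))
    intro p hp
    rw [mem_union, mem_union, mem_filter, mem_filter, mem_filter]
    rcases three (g p.1) (g p.2) with h | h | h
    · exact Or.inl ⟨hp, h⟩
    · exact Or.inr (Or.inl ⟨hp, h⟩)
    · exact Or.inr (Or.inr ⟨hp, h⟩)
  have a5 : (Pp E g).card ≤ ((Pp E g).filter fun p => g p.2 = g p.1).card +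
      (((Pp E g).filter fun p => g p.2 = g p.1 + 1).card +
        ((Pp E g).filter fun p => g p.2 = g p.1 + 1).card) := by omega
  have a6 := Nat.mul_le_mul_right (n ^ k) a5
  rw [add_mul, add_mul] at a6
  have e : 6 * 200 ^ k * (n ^ 2 * cpE L E) = 2 * 200 ^ k * (n ^ 2 * cpE L E) +
    (2 * 200 ^ k * (n ^ 2 * cpE L E) + 2 * 200 ^ k * (n ^ 2 * cpE L E)) := by ring
  rw [e]
  omega

end
end Pool.Agent.Run7.h211.GL
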