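import Pool.Agent.Run7.h211.GL.Lin

/-! Linear stability near Turán's construction: the count. -/

set_option autoImplicit false
set_option maxRecDepth 100000
set_option maxHeartbeats 4000000
open Finset
open scoped Classical

namespace Pool.Agent.Run7.h211.GL
open Pool.Agent.TH773 Pool.Agent.TH773.ST Pool.Agent.H122R2.N6 Pool.Agent.H37R3.Pen
open Pool.Agent.H37R3.Cop Pool.Agent.H37R3.CopL Pool.Agent.Y878.EX

section
variable {V : Type} [Fintype V] {E : V → V → V → ℕ} {g : V → Fin 3} {k M : ℕ}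
  {L : List (Finset (Finset (Fin k)))} {c : Fin k → Fin 3} {x0 y0 : Fin k}

/-- a pair of the triple is in the set -/
def Bad3 (P : Finset (V × V)) (x y z : V) : Prop := (x, y) ∈ P ∨ (x, z) ∈ P ∨ (y, z) ∈ P

/-- without the extra edges through the pairs of `P` -/
noncomputable def Er (E : V → V → V → ℕ) (g : V → Fin 3) (P : Finset (V × V)) (x y z : V) : ℕ :=
  if E x y z = 1 ∧ Tg g x y z = 0 ∧ Bad3 P x y z then 0 else E x y z

theorem Pp_symm (hE : Sy E) (x y : V) : (y, x) ∈ Pp E g ↔ (x, y) ∈ Pp E g := by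
  unfold Pp
  rw [mem_filter, mem_filter]
  simp only [mem_univ, true_and]
  rw [Bs_comm hE x y, Ms_comm hE x y]

variable {P : Finset (V × V)}

omit [Fintype V] in
theorem Er_le (x y z : V) : Er E g P x y z ≤ E x y z := by
  unfold Er
  split_ifs
  · exact Nat.zero_le _
  · exact le_rfl

omit [Fintype V] in
theorem Er_sy (hE : Sy E) (hP : ∀ x y, (y, x) ∈ P ↔ (x, y) ∈ P) : Sy (Er E g P) where
  b x y z := by
    unfold Er
    split_ifs
    · exact Or.inl rfl
    · exact hE.b x y z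
  h213 x y z := by
    unfold Er Bad3
    rw [hE.h213, (Tg_sy g).h213, hP x y]
    have : ((x, y) ∈ P ∨ (y, z) ∈ P ∨ (x, z) ∈ P) = ((x, y) ∈ P ∨ (x, z) ∈ P ∨ (y, z) ∈ P) := by
      apply propext; tauto
    rw [this]
  h132 x y z := by
    unfold Er Bad3
    rw [hE.h132, (Tg_sy g).h132, hP y z]
    have : ((x, z) ∈ P ∨ (x, y) ∈ P ∨ (y, z) ∈ P) = ((x, y) ∈ P ∨ (x, z) ∈ P ∨ (y, z) ∈ P) := by
      apply propext; tauto
    rw [this]

omit [Fintype V] in
theorem Er_k4 (hE : Sy E) (hK : NoK4 E) (hP : ∀ x y, (y, x) ∈ P ↔ (x, y) ∈ P) :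
    NoK4 (Er E g P) := by
  intro a b d e
  have h := hK a b d e
  unfold k4b at h ⊢
  have h1 := Er_le (E := E) (g := g) (P := P) a b d
  have h2 := Er_le (E := E) (g := g) (P := P) a b e
  have h3 := Er_le (E := E) (g := g) (P := P) a d e
  have h4 := Er_le (E := E) (g := g) (P := P) b d e
  have hb1 := hE.b a b d
  have hb2 := hE.b a b e
  have hb3 := hE.b a d e
  have hb4 := hE.b b d e
  rw [← Bool.not_eq_true] at h ⊢
  intro h5
  refine h ?_
  have h6 : Er E g P a b d + (Er E g P a b e + (Er E g P a d e + Er E g P b d e)) = 4 :=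
    Nat.eq_of_beq_eq_true h5
  have h7 : E a b d + (E a b e + (E a d e + E b d e)) = 4 := by
    unfold Bt at hb1 hb2 hb3 hb4
    omega
  show Nat.beq (E a b d + (E a b e + (E a d e + E b d e))) 4 = true
  rw [h7]
  rfl

theorem Er_Bs (hE : Sy E) (x y : V) : Bs (Er E g P) g x y ⊆ Bs E g x y := by
  intro z hz
  obtain ⟨h1, h2⟩ := (mem_filter.mp hz).2
  refine mem_filter.mpr ⟨mem_univ _, ?_, h2⟩
  have := Er_le (E := E) (g := g) (P := P) x y z
  rcases hE.b x y z with h | h
  · omega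
  · exact h

theorem Er_Bs_empty {x y : V} (h : (x, y) ∈ P) : Bs (Er E g P) g x y = ∅ := by
  rw [eq_empty_iff_forall_notMem]
  intro z hz
  obtain ⟨h1, h2⟩ := (mem_filter.mp hz).2
  unfold Er at h1
  split_ifs at h1 with h3
  exact h3 ⟨h1, h2, Or.inl h⟩

theorem Er_Ms (x y : V) : Ms (Er E g P) g x y = Ms E g x y := by
  unfold Ms
  refine filter_congr fun z _ => ?_
  unfold Er
  constructor
  · rintro ⟨h1, h2⟩
    split_ifs at h1 with h3
    · rw [h3.2.1] at h2; exact absurd h2 (by decide)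
    · exact ⟨h1, h2⟩
  · rintro ⟨h1, h2⟩
    rw [if_neg (by rw [h2]; rintro ⟨-, h, -⟩; exact absurd h (by decide))]
    exact ⟨h1, h2⟩

theorem Er_Dv (hE : Sy E) (hd : ∀ a b, E a a b = 0) (v : V) : Dv (Er E g P) g v ≤ Dv E g v := by
  unfold Dv
  refine card_le_card fun t ht => ?_
  have h1 := (mem_filter.mp ht).2
  refine mem_filter.mpr ⟨mem_univ _, fun h2 => h1 ?_⟩
  unfold Er
  split_ifs with h3
  · have hdd := dist_of_one hE hd h3.1
    have h4 := h3.2.1
    unfold Tg at h4
    rw [if_pos hdd] at h4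
    exact h4.symm
  · exact h2

theorem hv_Er (hE : Sy E) (hK : NoK4 E) (hd : ∀ a b, E a a b = 0) (hL : Loc E g) :
    Hv (Er E g (Pp E g)) g where
  sy := Er_sy hE (Pp_symm hE)
  k4 := Er_k4 hE hK (Pp_symm hE)
  dg a b := by
    have := Er_le (E := E) (g := g) (P := Pp E g) a a b
    rw [hd] at this
    omega
  loc := ⟨hL.hn, fun v => (Nat.mul_le_mul_left _ (Er_Dv hE hd v)).trans (hL.hD v), hL.lo, hL.hi⟩
  hv x y h := by
    have hn := hL.hn
    by_cases hp : (x, y) ∈ Pp E g
    · rw [Er_Bs_empty hp, card_empty] at h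
      omega
    · have h1 := card_le_card (Er_Bs (g := g) (P := Pp E g) hE x y)
      have h2 : Fintype.card V ≤ 100 * (Bs E g x y).card := by omega
      have h3 : 58 * Fintype.card V ≤ 100 * (Ms E g x y).card ∧
          10 * (Bs E g x y).card ≤ 4 * Fintype.card V := by
        by_contra h4
        exact hp (mem_filter.mpr ⟨mem_univ _, h2, h4⟩)
      rw [Er_Ms]
      exact ⟨h3.1, by omega⟩

theorem S3_mx_Er : S3 (mx (Er E g P) g) = S3 (mx E g) := by
  unfold S3
  refine sum_congr rfl fun x _ => sum_congr rfl fun y _ => ?_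
  rw [sum_mx, sum_mx, Er_Ms]

/-- the number of extra edges through pairs of `P` -/
theorem S3_bx_Er : S3 (bx E g) ≤ S3 (bx (Er E g P) g) + 3 * (P.card * Fintype.card V) := by
  have hi : S3 (fun x y _ : V => if (x, y) ∈ P then 1 else 0) = P.card * Fintype.card V := by
    unfold S3
    have : ∀ x y : V, ∑ _z : V, (if (x, y) ∈ P then 1 else 0) =
        (if (x, y) ∈ P then 1 else 0) * Fintype.card V := by
      intro x y
      rw [sum_const, card_univ, smul_eq_mul, mul_comm]
    simp only [this]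
    simp only [← sum_mul]
    congr 1
    rw [← Fintype.sum_prod_type (fun p : V × V => if p ∈ P then 1 else 0)]
    simp
  have e2 : S3 (fun x _ z : V => if (x, z) ∈ P then 1 else 0) = P.card * Fintype.card V := by
    rw [← hi]
    exact S3_swap fun x y _ : V => if (x, y) ∈ P then 1 else 0
  have e3 : S3 (fun _ y z : V => if (y, z) ∈ P then 1 else 0) = P.card * Fintype.card V := by
    rw [← hi]
    exact S3_rot fun x y _ : V => if (x, y) ∈ P then 1 else 0
  have h1 : S3 (bx E g) ≤ S3 fun x y z => bx (Er E g P) g x y z +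
      ((if (x, y) ∈ P then 1 else 0) + ((if (x, z) ∈ P then 1 else 0) +
        (if (y, z) ∈ P then 1 else 0))) := by
    refine S3_le fun x y z => ?_
    unfold bx
    by_cases h : E x y z = 1 ∧ Tg g x y z = 0
    · rw [if_pos h]
      by_cases hP : Bad3 P x y z
      · rcases hP with h3 | h3 | h3 <;> rw [if_pos h3] <;> omega
      · have : Er E g P x y z = 1 ∧ Tg g x y z = 0 := by
          unfold Er
          rw [if_neg (fun h4 => hP h4.2.2)]
          exact h
        rw [if_pos this]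
        omega
    · rw [if_neg h]
      exact Nat.zero_le _
  refine h1.trans (le_of_eq ?_)
  rw [S3_add, S3_add, S3_add, hi, e2, e3]
  ring

/-- linear stability for functions near Turán's construction -/
theorem local_E {F F' : Finset (Finset (Fin k))} {c' : Fin k → Fin 3} {x1 y1 : Fin k}
    (hE : Sy E) (hK : NoK4 E) (hd : ∀ a b, E a a b = 0) (hF : F ∈ L) (hF' : F' ∈ L)
    (h0 : x0 ≠ y0) (hc : c x0 = c y0) (hs : Same F (sw c x0 y0))
    (hc' : c' y1 = c' x1 + 1) (hs' : Same F' (sw c' x1 y1))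
    (hL : Lg E g M) (hM : 2 * (200 ^ k * (k ^ 3 + 3 * k ^ 2 + 2 * k)) < M) :
    Fintype.card V ^ k * (S3 (bx E g) + S3 (mx E g)) + 10 * (Fintype.card V ^ k * S3 E) ≤
      10 * (Fintype.card V ^ k * S3 (Tg g)) +
        198 * 200 ^ k * (Fintype.card V ^ 3 * cpE L E) := by
  set n := Fintype.card V with hn
  have h1 : S3 E + S3 (mx E g) = S3 (Tg g) + S3 (bx E g) := by
    rw [← S3_add, ← S3_add]
    unfold S3
    exact sum_congr rfl fun x _ => sum_congr rfl fun y _ => sum_congr rfl fun z _ =>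
      balance hE x y z
  have h2 := few_extraG (hv_Er hE hK hd hL.toLoc)
  rw [S3_mx_Er] at h2
  have h3 := S3_bx_Er (E := E) (g := g) (P := Pp E g)
  rw [← hn] at h3
  have h4 := Pp_le hE hK hd hF hF' h0 hc hs hc' hs' hL hM
  rw [← hn] at h4
  have h5 : 100 * S3 (bx E g) ≤ 81 * S3 (mx E g) + 300 * ((Pp E g).card * n) := by omega
  have h6 : n * ((Pp E g).card * n ^ k) ≤ n * (6 * 200 ^ k * (n ^ 2 * cpE L E)) :=
    Nat.mul_le_mul_left _ h4
  have h7 : n ^ k * (100 * S3 (bx E g)) ≤ n ^ k * (81 * S3 (mx E g) + 300 * ((Pp E g).card * n)) :=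
    Nat.mul_le_mul_left _ h5
  have h8 : n ^ k * (S3 E + S3 (mx E g)) = n ^ k * (S3 (Tg g) + S3 (bx E g)) := by rw [h1]
  zify at h6 h7 h8 ⊢
  nlinarith [h6, h7, h8, mul_nonneg (pow_nonneg (Int.natCast_nonneg n) k)
    (Int.natCast_nonneg (S3 (mx E g)))]

end
end Pool.Agent.Run7.h211.GL
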