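import Pool.Agent.Run7.h211.GL.Lin2

/-! Linear stability near Turán's construction, for 3-graphs. -/

set_option autoImplicit false
set_option maxRecDepth 100000
set_option maxHeartbeats 4000000
open Finset
open scoped Classical

namespace Pool.Agent.Run7.h211.GL
open Pool.Agent.TH773 Pool.Agent.TH773.ST Pool.Agent.H122R2.N6 Pool.Agent.H37R3.Pen
open Pool.Agent.H37R3.Cop Pool.Agent.H37R3.CopL Pool.Agent.Y878.EX

section
variable {k n : ℕ} {L : List (Finset (Finset (Fin k)))}

theorem cpE_tri (H : Finset (Finset (Fin n))) : cpE L (tri H) ≤ k ^ k * Turan34.copies L H := by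
  unfold cpE
  have hsub : tf L (tri H) ⊆ ((univ : Finset (Finset (Fin n))).filter fun S =>
      ∃ F ∈ L, Turan34.Induces F H S).biUnion fun S =>
        Fintype.piFinset fun _ : Fin k => if S.card = k then S else ∅ := by
    intro x hx
    rw [mem_tf] at hx
    obtain ⟨hinj, F, hF, hi⟩ := hx
    rw [mem_biUnion]
    refine ⟨univ.image x, mem_filter.mpr ⟨mem_univ _, F, hF, x, hinj, rfl, ?_⟩, ?_⟩
    · intro t ht
      obtain ⟨a, b, c, hab, hac, hbc, rfl⟩ := Finset.card_eq_three.mp ht
      rw [← hi a b c hab hac hbc, tri_iff, image_insert, image_insert, image_singleton]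
    · rw [Fintype.mem_piFinset]
      intro i
      rw [if_pos (by rw [card_image_of_injective _ hinj, card_univ, Fintype.card_fin])]
      exact mem_image_of_mem _ (mem_univ _)
  refine (card_le_card hsub).trans (card_biUnion_le.trans ?_)
  unfold Turan34.copies
  rw [mul_comm, ← smul_eq_mul, ← sum_const]
  refine le_trans (sum_le_sum (g := fun _ => k ^ k) fun S _ => ?_) (le_of_eq ?_)
  · rw [Fintype.card_piFinset, prod_const, card_univ, Fintype.card_fin]
    split_ifs with h
    · rw [h]
    · rw [card_empty]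
      exact Nat.pow_le_pow_left (Nat.zero_le _) k
  · refine sum_congr ?_ fun _ _ => rfl
    ext S
    simp only [mem_filter]

theorem Dv_tri {H : Finset (Finset (Fin n))} (g : Fin n → Fin 3) (v : Fin n) :
    Dv (tri H) g v ≤ 9 * wrong H g v + 3 * n := by
  unfold Dv wrong
  have hsub : ((univ : Finset (Fin 2 → Fin n)).filter fun t =>
      tri H (t 0) (t 1) v ≠ Rf (g (t 0)) (g (t 1)) (g v)) ⊆
      (((symmDiff H (Turan34.turan g)).filter fun e => v ∈ e).biUnion fun e =>
        Fintype.piFinset fun _ : Fin 2 => if e.card = 3 then e else ∅) ∪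
      ((univ.filter fun t : Fin 2 → Fin n => t 0 = t 1) ∪
        ((univ.filter fun t : Fin 2 → Fin n => t 0 = v) ∪
          (univ.filter fun t : Fin 2 → Fin n => t 1 = v))) := by
    intro t ht
    have h1 := (mem_filter.mp ht).2
    by_cases h01 : t 0 = t 1
    · rw [mem_union, mem_union]; exact Or.inr (Or.inl (mem_filter.mpr ⟨mem_univ _, h01⟩))
    by_cases h0v : t 0 = v
    · rw [mem_union, mem_union, mem_union]
      exact Or.inr (Or.inr (Or.inl (mem_filter.mpr ⟨mem_univ _, h0v⟩)))
    by_cases h1v : t 1 = v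
    · rw [mem_union, mem_union, mem_union]
      exact Or.inr (Or.inr (Or.inr (mem_filter.mpr ⟨mem_univ _, h1v⟩)))
    rw [mem_union]
    left
    rw [mem_biUnion]
    refine ⟨{t 0, t 1, v}, mem_filter.mpr ⟨?_, by simp⟩, ?_⟩
    · rw [mem_symmDiff, Pool.Agent.Y878.EX.mem_turan h01 h0v h1v]
      rw [tri_ite] at h1
      by_cases h2 : ({t 0, t 1, v} : Finset (Fin n)) ∈ H
      · rw [if_pos h2] at h1
        exact Or.inl ⟨h2, fun h3 => h1 h3.symm⟩
      · rw [if_neg h2] at h1
        refine Or.inr ⟨?_, h2⟩
        rcases Rf_sy.b (g (t 0)) (g (t 1)) (g v) with h3 | h3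
        · exact absurd h3.symm h1
        · exact h3
    · rw [Fintype.mem_piFinset]
      intro i
      rw [if_pos (card3 h01 h0v h1v)]
      fin_cases i <;> simp
  refine (card_le_card hsub).trans ((card_union_le _ _).trans (Nat.add_le_add ?_ ?_))
  · refine card_biUnion_le.trans ?_
    rw [mul_comm 9, ← smul_eq_mul, ← sum_const]
    refine sum_le_sum fun e _ => ?_
    rw [Fintype.card_piFinset, prod_const, card_univ, Fintype.card_fin]
    split_ifs with h
    · rw [h]; norm_num
    · rw [card_empty]; norm_num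
  · have e1 : (univ.filter fun t : Fin 2 → Fin n => t 0 = t 1).card ≤ n := by
      have := card_two' (V := Fin n)
      rw [Fintype.card_fin] at this
      refine le_trans (le_of_eq ?_) this
      congr 1
      ext t
      simp only [mem_filter]
    have e2 : (univ.filter fun t : Fin 2 → Fin n => t 0 = v).card ≤ n := by
      have h1 : (univ.filter fun t : Fin 2 → Fin n => t 0 = v).card ≤
          (univ : Finset (Fin n)).card := by
        refine card_le_card_of_injOn (fun t => t 1) (fun _ _ => mem_univ _) ?_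
        intro s hs t ht h
        have h1 := (mem_filter.mp (mem_coe.mp hs)).2
        have h2 := (mem_filter.mp (mem_coe.mp ht)).2
        funext i
        fin_cases i
        · exact h1.trans h2.symm
        · exact h
      rwa [card_univ, Fintype.card_fin] at h1
    have e3 : (univ.filter fun t : Fin 2 → Fin n => t 1 = v).card ≤ n := by
      have h1 : (univ.filter fun t : Fin 2 → Fin n => t 1 = v).card ≤
          (univ : Finset (Fin n)).card := by
        refine card_le_card_of_injOn (fun t => t 0) (fun _ _ => mem_univ _) ?_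
        intro s hs t ht h
        have h1 := (mem_filter.mp (mem_coe.mp hs)).2
        have h2 := (mem_filter.mp (mem_coe.mp ht)).2
        funext i
        fin_cases i
        · exact h
        · exact h1.trans h2.symm
      rwa [card_univ, Fintype.card_fin] at h1
    have u1 := card_union_le (univ.filter fun t : Fin 2 → Fin n => t 0 = t 1)
      ((univ.filter fun t : Fin 2 → Fin n => t 0 = v) ∪
          (univ.filter fun t : Fin 2 → Fin n => t 1 = v))
    have u2 := card_union_le (univ.filter fun t : Fin 2 → Fin n => t 0 = v)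
          (univ.filter fun t : Fin 2 → Fin n => t 1 = v)
    omega

theorem S3_bx_tri {H : Finset (Finset (Fin n))} (hH : ∀ e ∈ H, e.card = 3) (g : Fin n → Fin 3) :
    S3 (bx (tri H) g) = 6 * (H \ Turan34.turan g).card := by
  rw [← S3_tri (fun e he => hH e (mem_sdiff.mp he).1)]
  unfold S3
  refine sum_congr rfl fun x _ => sum_congr rfl fun y _ => sum_congr rfl fun z _ => ?_
  unfold bx
  rw [tri_ite (H \ Turan34.turan g), ← tri_turan]
  refine if_congr ?_ rfl rfl
  rw [tri_iff, mem_sdiff]
  refine and_congr_right fun _ => ?_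
  rw [tri_ite]
  by_cases h : ({x, y, z} : Finset (Fin n)) ∈ Turan34.turan g
  · rw [if_pos h]; simp [h]
  · rw [if_neg h]; simp [h]

theorem S3_mx_tri {H : Finset (Finset (Fin n))} (g : Fin n → Fin 3) :
    S3 (mx (tri H) g) = 6 * (Turan34.turan g \ H).card := by
  rw [← S3_tri (fun e he => Pool.Agent.Y878.EX.turan_card (mem_sdiff.mp he).1)]
  unfold S3
  refine sum_congr rfl fun x _ => sum_congr rfl fun y _ => sum_congr rfl fun z _ => ?_
  unfold mx
  rw [tri_ite (Turan34.turan g \ H), ← tri_turan]
  refine if_congr ?_ rfl rfl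
  rw [tri_iff, mem_sdiff, and_comm]
  refine and_congr_right fun _ => ?_
  rw [tri_ite]
  by_cases h : ({x, y, z} : Finset (Fin n)) ∈ H
  · rw [if_pos h]; simp [h]
  · rw [if_neg h]; simp [h]

/-- **linear stability near Turán's construction** -/
theorem local_H (hA : HasA L) (hB : HasB L) : Local L := by
  obtain ⟨F, hF, c, x0, y0, h0, hc, hs⟩ := hA
  obtain ⟨F', hF', c', x1, y1, hc', hs'⟩ := hB
  set M0 : ℕ := 10 ^ 9 + 2 * (200 ^ k * (k ^ 3 + 3 * k ^ 2 + 2 * k)) + 1 with hM0
  refine ⟨18 * M0, 10, 198 * 200 ^ k * k ^ k, ?_⟩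
  intro n H g hn hH hK hw hp
  have hsz : (Pt g 0).card + (Pt g 1).card + (Pt g 2).card = n := by
    rw [Pt_add, Fintype.card_fin]
  have hlo : ∀ p, 3 * n ≤ 10 * (Pt g p).card := hp
  have hDv : ∀ v, M0 * Dv (tri H) g v ≤ n ^ 2 := by
    intro v
    have h1 := Nat.mul_le_mul_left M0 (Dv_tri (H := H) g v)
    have h2 := hw v
    have h3 : 18 * M0 * n ≤ n ^ 2 := by rw [sq]; exact Nat.mul_le_mul_right _ hn
    have e1 : M0 * (9 * wrong H g v + 3 * n) = 9 * (M0 * wrong H g v) + 3 * (M0 * n) := by ring
    have e2 : 18 * M0 * wrong H g v = 18 * (M0 * wrong H g v) := by ring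
    have e3 : 18 * M0 * n = 18 * (M0 * n) := by ring
    rw [e1] at h1
    rw [e2] at h2
    rw [e3] at h3
    omega
  have hL : Lg (tri H) g M0 := {
    hn := by rw [Fintype.card_fin]; omega
    hD := fun v => by
      rw [Fintype.card_fin]
      exact (Nat.mul_le_mul_right _ (by omega)).trans (hDv v)
    lo := fun p => by rw [Fintype.card_fin]; exact hlo p
    hi := fun p => by
      rw [Fintype.card_fin]
      have a0 := hlo 0
      have a1 := hlo 1
      have a2 := hlo 2
      fin_cases p
      · show 10 * (Pt g 0).card ≤ 4 * n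
        omega
      · show 10 * (Pt g 1).card ≤ 4 * n
        omega
      · show 10 * (Pt g 2).card ≤ 4 * n
        omega
    hn' := by rw [Fintype.card_fin]; omega
    hD' := fun v => by rw [Fintype.card_fin]; exact hDv v }
  have hd : ∀ a b, tri H a a b = 0 := by
    intro a b
    rcases (tri_sy H).b a a b with h | h
    · exact h
    · exact absurd rfl (distinct_of_mem hH (tri_one.mp h)).1
  have key := local_E (L := L) (tri_sy H) (tri_noK4 hH hK) hd hF hF' h0 hc hs hc' hs' hL
    (by omega)
  rw [Fintype.card_fin, S3_bx_tri hH, S3_mx_tri, S3_tri hH] at key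
  have hT : S3 (Tg g) = 6 * (Turan34.turan g).card := by
    rw [← S3_tri (fun e he => Pool.Agent.Y878.EX.turan_card he)]
    unfold S3
    exact sum_congr rfl fun x _ => sum_congr rfl fun y _ => sum_congr rfl fun z _ =>
      (tri_turan g x y z).symm
  rw [hT] at key
  have hsd : (symmDiff H (Turan34.turan g)).card =
      (H \ Turan34.turan g).card + (Turan34.turan g \ H).card := by
    rw [symmDiff_def, sup_eq_union, card_union_of_disjoint]
    rw [disjoint_left]
    intro e he he'
    exact (mem_sdiff.mp he').2 (mem_sdiff.mp he).1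
  have hcp := cpE_tri (L := L) H
  have h1 : 198 * 200 ^ k * (n ^ 3 * cpE L (tri H)) ≤
      198 * 200 ^ k * (n ^ 3 * (k ^ k * Turan34.copies L H)) :=
    Nat.mul_le_mul_left _ (Nat.mul_le_mul_left _ hcp)
  have e1 : 198 * 200 ^ k * (n ^ 3 * (k ^ k * Turan34.copies L H)) =
      198 * 200 ^ k * k ^ k * (n ^ 3 * Turan34.copies L H) := by ring
  rw [e1] at h1
  have e2 : n ^ k * (6 * (H \ Turan34.turan g).card + 6 * (Turan34.turan g \ H).card) =
      6 * (n ^ k * (symmDiff H (Turan34.turan g)).card) := by rw [hsd]; ring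
  have e3 : 10 * (n ^ k * (6 * H.card)) = 6 * (10 * (n ^ k * H.card)) := by ring
  have e4 : 10 * (n ^ k * (6 * (Turan34.turan g).card)) =
      6 * (10 * (n ^ k * (Turan34.turan g).card)) := by ring
  rw [e2, e3, e4] at key
  omega

end
end Pool.Agent.Run7.h211.GL
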