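import Pool.Agent.Run7.h211.GL.Lin3

/-! Constructions near Turán's construction with few copies: the pattern. -/

set_option autoImplicit false
set_option maxRecDepth 100000
set_option maxHeartbeats 4000000
open Finset
open scoped Classical

namespace Pool.Agent.Run7.h211.GL
open Pool.Agent.TH773 Pool.Agent.TH773.ST Pool.Agent.H122R2.N6 Pool.Agent.H37R3.Pen
open Pool.Agent.H37R3.Cop Pool.Agent.H37R3.CopL Pool.Agent.Y878.EX

/-- the parts of the five classes -/
def pr (κ : Bool) (a : Fin 5) : Fin 3 :=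
  if a = 1 then 1 else if a = 2 then 2 else if a = 4 then (if κ = true then 1 else 0) else 0

/-- the rule for the five classes -/
def Pk (κ : Bool) (a b c : Fin 5) : ℕ :=
  if (a = 3 ∨ b = 3 ∨ c = 3) ∧ (a = 4 ∨ b = 4 ∨ c = 4) then
    (if (a = 0 ∨ b = 0 ∨ c = 0) ∨ (κ = true ∧ (a = 1 ∨ b = 1 ∨ c = 1)) then 1 else 0)
  else Rf (pr κ a) (pr κ b) (pr κ c)

theorem Pk_b : ∀ κ a b c, Pk κ a b c = 0 ∨ Pk κ a b c = 1 := by decide +kernel
theorem Pk_213 : ∀ κ a b c, Pk κ b a c = Pk κ a b c := by decide +kernel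
theorem Pk_132 : ∀ κ a b c, Pk κ a c b = Pk κ a b c := by decide +kernel
theorem Pk_k4 : ∀ κ a b c d, Pk κ a b c + (Pk κ a b d + (Pk κ a c d + Pk κ b c d)) ≠ 4 := by
  decide +kernel
theorem Pk_other : ∀ κ a b c, ¬ ((a = 3 ∨ b = 3 ∨ c = 3) ∧ (a = 4 ∨ b = 4 ∨ c = 4)) →
    Pk κ a b c = Rf (pr κ a) (pr κ b) (pr κ c) := by decide +kernel
theorem Pk_pair : ∀ κ d, d ≠ 3 → d ≠ 4 →
    (Pk κ 3 4 d = 1 ↔ (pr κ d = pr κ 3 ∨ pr κ d = pr κ 4)) := by decide +kernel

/-- indicator of the classes of a triple, in some order -/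
def Jc (d a b c : Fin 5) : ℕ :=
  (if a = 3 ∧ b = 4 ∧ c = d then 1 else 0) + (if a = 3 ∧ b = d ∧ c = 4 then 1 else 0) +
  (if a = 4 ∧ b = 3 ∧ c = d then 1 else 0) + (if a = 4 ∧ b = d ∧ c = 3 then 1 else 0) +
  (if a = d ∧ b = 3 ∧ c = 4 then 1 else 0) + (if a = d ∧ b = 4 ∧ c = 3 then 1 else 0)

def Jd (a b c : Fin 5) : ℕ :=
  (if a = 3 ∧ b = 3 ∧ c = 4 then 1 else 0) + (if a = 3 ∧ b = 4 ∧ c = 3 then 1 else 0) +
  (if a = 4 ∧ b = 3 ∧ c = 3 then 1 else 0)

theorem mA : ∀ a b c, (if Pk false a b c = 0 ∧ Rf (pr false a) (pr false b) (pr false c) = 1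
    then 1 else 0) ≤ Jc 1 a b c := by decide +kernel
theorem bA : ∀ a b c, Jc 0 a b c ≤ (if Pk false a b c = 1 ∧
    Rf (pr false a) (pr false b) (pr false c) = 0 then 1 else 0) := by decide +kernel
theorem mB : ∀ a b c, (if Pk true a b c = 0 ∧ Rf (pr true a) (pr true b) (pr true c) = 1
    then 1 else 0) ≤ Jc 2 a b c + Jd a b c := by decide +kernel
theorem bB : ∀ a b c, Jc 1 a b c ≤ (if Pk true a b c = 1 ∧
    Rf (pr true a) (pr true b) (pr true c) = 0 then 1 else 0) := by decide +kernel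
theorem Jc_dist : ∀ d a b c : Fin 5, d ≠ 3 → d ≠ 4 → Jc d a b c ≠ 0 → a ≠ b ∧ a ≠ c ∧ b ≠ c := by
  decide +kernel
theorem df_col : ∀ κ a b c, Pk κ a b c ≠ Rf (pr κ a) (pr κ b) (pr κ c) →
    (a = 3 ∨ b = 3 ∨ c = 3) ∧ (a = 4 ∨ b = 4 ∨ c = 4) := by decide +kernel
theorem Rf_one : ∀ p q r s : Fin 3, Rf p q r + (Rf p q s + (Rf p r s + Rf q r s)) ≠ 1 := by
  decide +kernel

section
variable {V : Type} [Fintype V] {κ : Bool} {h : V → Fin 5}

/-- the structure -/
noncomputable def EK (κ : Bool) (h : V → Fin 5) (x y z : V) : ℕ :=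
  if x ≠ y ∧ x ≠ z ∧ y ≠ z then Pk κ (h x) (h y) (h z) else 0

/-- the parts -/
def gK (κ : Bool) (h : V → Fin 5) (x : V) : Fin 3 := pr κ (h x)

omit [Fintype V] in
theorem EK_sy : Sy (EK κ h) where
  b x y z := by
    unfold EK
    split_ifs
    · exact Pk_b _ _ _ _
    · exact Or.inl rfl
  h213 x y z := by
    unfold EK
    rw [Pk_213]
    refine if_congr ?_ rfl rfl
    constructor
    · rintro ⟨a, b, c⟩; exact ⟨a.symm, c, b⟩
    · rintro ⟨a, b, c⟩; exact ⟨a.symm, c, b⟩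
  h132 x y z := by
    unfold EK
    rw [Pk_132]
    refine if_congr ?_ rfl rfl
    constructor
    · rintro ⟨a, b, c⟩; exact ⟨b, a, c.symm⟩
    · rintro ⟨a, b, c⟩; exact ⟨b, a, c.symm⟩

omit [Fintype V] in
theorem EK_dg (a b : V) : EK κ h a a b = 0 := by
  unfold EK
  rw [if_neg (fun h => h.1 rfl)]

omit [Fintype V] in
theorem EK_le (x y z : V) : EK κ h x y z ≤ Pk κ (h x) (h y) (h z) := by
  unfold EK
  split_ifs
  · exact le_rfl
  · exact Nat.zero_le _

omit [Fintype V] in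
theorem EK_of {x y z : V} (hxy : x ≠ y) (hxz : x ≠ z) (hyz : y ≠ z) :
    EK κ h x y z = Pk κ (h x) (h y) (h z) := by
  unfold EK
  rw [if_pos ⟨hxy, hxz, hyz⟩]

omit [Fintype V] in
theorem EK_k4 : NoK4 (EK κ h) := by
  intro a b d e
  unfold k4b
  have h1 := EK_le (κ := κ) (h := h) a b d
  have h2 := EK_le (κ := κ) (h := h) a b e
  have h3 := EK_le (κ := κ) (h := h) a d e
  have h4 := EK_le (κ := κ) (h := h) b d e
  have hb1 := Pk_b κ (h a) (h b) (h d)
  have hb2 := Pk_b κ (h a) (h b) (h e)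
  have hb3 := Pk_b κ (h a) (h d) (h e)
  have hb4 := Pk_b κ (h b) (h d) (h e)
  have hk := Pk_k4 κ (h a) (h b) (h d) (h e)
  rw [← Bool.not_eq_true]
  intro h5
  have h6 : EK κ h a b d + (EK κ h a b e + (EK κ h a d e + EK κ h b d e)) = 4 :=
    Nat.eq_of_beq_eq_true h5
  omega

variable {k : ℕ} {L : List (Finset (Finset (Fin k)))}

omit [Fintype V] in
theorem not_both {x y z : V} (hxy : x ≠ y) (hxz : x ≠ z) (hyz : y ≠ z)
    (hn : ¬ ((h x = 3 ∨ h y = 3 ∨ h z = 3) ∧ (h x = 4 ∨ h y = 4 ∨ h z = 4))) :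
    EK κ h x y z = Rf (gK κ h x) (gK κ h y) (gK κ h z) := by
  rw [EK_of hxy hxz hyz]
  exact Pk_other κ _ _ _ hn

/-- tuples which induce a member of the list contain three vertices of the two small classes -/
theorem tf_three (hNT : NotTuran L) (hA : κ = false → ¬ HasA L) (hB : κ = true → ¬ HasB L)
    {w : Fin k → V} (hw : w ∈ tf L (EK κ h)) : ∃ i j l : Fin k, i ≠ j ∧ i ≠ l ∧ j ≠ l ∧
      h (w i) = 3 ∧ h (w j) = 4 ∧ (h (w l) = 3 ∨ h (w l) = 4) := by
  rw [mem_tf] at hw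
  obtain ⟨hinj, F, hF, hi⟩ := hw
  have hne : ∀ a b : Fin k, a ≠ b → w a ≠ w b := fun a b hab e => hab (hinj e)
  by_cases h34 : (∃ i, h (w i) = 3) ∧ ∃ j, h (w j) = 4
  · obtain ⟨⟨i, hi3⟩, j, hj4⟩ := h34
    have hij : i ≠ j := by
      rintro rfl
      rw [hi3] at hj4
      exact absurd hj4 (by decide)
    by_contra hno
    push Not at hno
    have hz : ∀ l, l ≠ i → l ≠ j → h (w l) ≠ 3 ∧ h (w l) ≠ 4 := by
      intro l hli hlj
      exact hno i j l hij hli.symm hlj.symm hi3 hj4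
    have hI : Ind (sw (fun a => gK κ h (w a)) i j) (EK κ h) w := by
      refine Ind.of EK_sy hij ?_ ?_
      · intro z hzi hzj
        rw [mem_sw_pair hij hzi hzj, EK_of (hne _ _ hij) (hne _ _ hzi.symm) (hne _ _ hzj.symm),
          hi3, hj4, Pk_pair κ _ (hz z hzi hzj).1 (hz z hzi hzj).2]
        unfold gK
        rw [hi3, hj4]
      · intro a b d hab had hbd hnot
        rw [mem_sw_other hab had hbd hnot, not_both (hne _ _ hab) (hne _ _ had) (hne _ _ hbd)]
        rintro ⟨h1, h2⟩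
        have e3 : ∀ l, h (w l) = 3 → l = i := by
          intro l hl
          by_contra hli
          by_cases hlj : l = j
          · rw [hlj, hj4] at hl; exact absurd hl (by decide)
          · exact (hz l hli hlj).1 hl
        have e4 : ∀ l, h (w l) = 4 → l = j := by
          intro l hl
          by_contra hlj
          by_cases hli : l = i
          · rw [hli, hi3] at hl; exact absurd hl (by decide)
          · exact (hz l hli hlj).2 hl
        refine hnot ⟨?_, ?_⟩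
        · rcases h1 with h | h | h <;> rw [← e3 _ h] <;> simp
        · rcases h2 with h | h | h <;> rw [← e4 _ h] <;> simp
    have hs : Same F (sw (fun a => gK κ h (w a)) i j) := by
      refine ⟨Equiv.refl _, fun t ht => ?_⟩
      obtain ⟨a, b, c, hab, hac, hbc, rfl⟩ := Finset.card_eq_three.mp ht
      rw [image_insert, image_insert, image_singleton]
      simp only [Equiv.refl_apply]
      have e1 := hi a b c hab hac hbc
      have e2 := hI a b c hab hac hbc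
      exact e1.symm.trans e2
    rcases κ with _ | _
    · refine hA rfl ⟨F, hF, _, i, j, hij, ?_, hs⟩
      unfold gK
      rw [hi3, hj4]
      rfl
    · refine hB rfl ⟨F, hF, _, i, j, ?_, hs⟩
      unfold gK
      rw [hi3, hj4]
      rfl
  · exfalso
    obtain ⟨t, ht, hno⟩ := hNT F hF (fun a => gK κ h (w a))
    obtain ⟨a, b, c, hab, hac, hbc, rfl⟩ := Finset.card_eq_three.mp ht
    refine hno ?_
    have h1 := hi a b c hab hac hbc
    rw [Pool.Agent.Y878.EX.mem_turan hab hac hbc, ← not_both (hne _ _ hab) (hne _ _ hac)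
      (hne _ _ hbc)]
    · exact h1.symm
    · rintro ⟨h3, h4⟩
      refine h34 ⟨?_, ?_⟩
      · rcases h3 with h | h | h
        exacts [⟨_, h⟩, ⟨_, h⟩, ⟨_, h⟩]
      · rcases h4 with h | h | h
        exacts [⟨_, h⟩, ⟨_, h⟩, ⟨_, h⟩]

/-- the number of vertices of a class -/
noncomputable def sz (h : V → Fin 5) (a : Fin 5) : ℕ := ((univ : Finset V).filter fun v => h v = a).card

theorem S3_ind (h : V → Fin 5) (a b c : Fin 5) :
    S3 (fun x y z => if h x = a ∧ h y = b ∧ h z = c then 1 else 0) = sz h a * sz h b * sz h c := by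
  have e : ∀ d : Fin 5, sz h d = ∑ v, if h v = d then 1 else 0 := by
    intro d
    unfold sz
    rw [card_filter]
  rw [e a, e b, e c, sum_mul_sum, sum_mul]
  unfold S3
  refine sum_congr rfl fun x _ => ?_
  rw [sum_mul_sum]
  refine sum_congr rfl fun y _ => sum_congr rfl fun z _ => ?_
  by_cases h1 : h x = a <;> by_cases h2 : h y = b <;> by_cases h3 : h z = c <;> simp [h1, h2, h3]

theorem S3_Jc (h : V → Fin 5) (d : Fin 5) :
    S3 (fun x y z => Jc d (h x) (h y) (h z)) = 6 * (sz h 3 * sz h 4 * sz h d) := by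
  unfold Jc
  rw [S3_add, S3_add, S3_add, S3_add, S3_add, S3_ind, S3_ind, S3_ind, S3_ind, S3_ind, S3_ind]
  ring

theorem S3_Jd (h : V → Fin 5) :
    S3 (fun x y z => Jd (h x) (h y) (h z)) = 3 * (sz h 3 * sz h 3 * sz h 4) := by
  unfold Jd
  rw [S3_add, S3_add, S3_ind, S3_ind, S3_ind]
  ring

theorem mx_le (x y z : V) : mx (EK κ h) (gK κ h) x y z ≤
    if Pk κ (h x) (h y) (h z) = 0 ∧ Rf (pr κ (h x)) (pr κ (h y)) (pr κ (h z)) = 1 then 1 else 0 := by
  unfold mx Tg EK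
  by_cases hd : x ≠ y ∧ x ≠ z ∧ y ≠ z
  · rw [if_pos hd, if_pos hd]
    exact le_rfl
  · rw [if_neg hd, if_neg hd, if_neg (fun h => absurd h.2 (by decide))]
    exact Nat.zero_le _

theorem bx_ge {d : Fin 5} (h3 : d ≠ 3) (h4 : d ≠ 4) (hJ : ∀ a b c, Jc d a b c ≤
    (if Pk κ a b c = 1 ∧ Rf (pr κ a) (pr κ b) (pr κ c) = 0 then 1 else 0)) (x y z : V) :
    Jc d (h x) (h y) (h z) ≤ bx (EK κ h) (gK κ h) x y z := by
  by_cases h0 : Jc d (h x) (h y) (h z) = 0
  · rw [h0]; exact Nat.zero_le _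
  · obtain ⟨d1, d2, d3⟩ := Jc_dist d _ _ _ h3 h4 h0
    have hd : x ≠ y ∧ x ≠ z ∧ y ≠ z :=
      ⟨fun e => d1 (by rw [e]), fun e => d2 (by rw [e]), fun e => d3 (by rw [e])⟩
    refine (hJ _ _ _).trans (le_of_eq ?_)
    unfold bx Tg EK
    rw [if_pos hd, if_pos hd]
    rfl

end
end Pool.Agent.Run7.h211.GL
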