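import Pool.Agent.Run7.h211.GL.Nec

/-! Constructions near Turán's construction with few copies: the numbers. -/

set_option autoImplicit false
set_option maxRecDepth 100000
set_option maxHeartbeats 4000000
open Finset
open scoped Classical

namespace Pool.Agent.Run7.h211.GL
open Pool.Agent.TH773 Pool.Agent.TH773.ST Pool.Agent.H122R2.N6 Pool.Agent.H37R3.Pen
open Pool.Agent.H37R3.Cop Pool.Agent.H37R3.CopL Pool.Agent.Y878.EX

section
variable {V : Type} [Fintype V] {κ : Bool} {h : V → Fin 5}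
variable {k : ℕ} {L : List (Finset (Finset (Fin k)))}

/-- few tuples induce a member of the list -/
theorem cpE_le (hNT : NotTuran L) (hA : κ = false → ¬ HasA L) (hB : κ = true → ¬ HasB L) :
    Fintype.card V ^ 3 * cpE L (EK κ h) ≤
      k ^ 3 * (sz h 3 * sz h 4 * (sz h 3 + sz h 4)) * Fintype.card V ^ k := by
  set n := Fintype.card V with hn
  let I3 : Finset (Fin k × Fin k × Fin k) :=
    univ.filter fun p => p.1 ≠ p.2.1 ∧ p.1 ≠ p.2.2 ∧ p.2.1 ≠ p.2.2
  let W : Fin k × Fin k × Fin k → Finset (Fin k → V) := fun p => univ.filter fun w =>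
    h (w p.1) = 3 ∧ h (w p.2.1) = 4 ∧ (h (w p.2.2) = 3 ∨ h (w p.2.2) = 4)
  let T : Finset (Fin 3 → V) := univ.filter fun t =>
    h (t 0) = 3 ∧ h (t 1) = 4 ∧ (h (t 2) = 3 ∨ h (t 2) = 4)
  have hT : T.card ≤ sz h 3 * sz h 4 * (sz h 3 + sz h 4) := by
    have e1 : sz h 3 * sz h 4 * (sz h 3 + sz h 4) ≥
        (((univ : Finset V).filter fun v => h v = 3) ×ˢ
          (((univ : Finset V).filter fun v => h v = 4) ×ˢ
            ((univ : Finset V).filter fun v => h v = 3 ∨ h v = 4))).card := by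
      rw [card_product, card_product, ← mul_assoc]
      refine Nat.mul_le_mul_left _ ?_
      rw [filter_or]
      exact card_union_le _ _
    refine le_trans ?_ e1
    refine card_le_card_of_injOn (fun t => (t 0, t 1, t 2)) ?_ ?_
    · intro t ht
      have ht' := (mem_filter.mp (mem_coe.mp ht)).2
      exact mem_coe.mpr (mem_product.mpr ⟨mem_filter.mpr ⟨mem_univ _, ht'.1⟩,
        mem_product.mpr ⟨mem_filter.mpr ⟨mem_univ _, ht'.2.1⟩,
          mem_filter.mpr ⟨mem_univ _, ht'.2.2⟩⟩⟩)
    · intro p _ q _ hpq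
      have h0 := (Prod.mk.inj hpq).1
      have h1 := (Prod.mk.inj (Prod.mk.inj hpq).2).1
      have h2 := (Prod.mk.inj (Prod.mk.inj hpq).2).2
      funext i
      fin_cases i
      exacts [h0, h1, h2]
  have hW : ∀ p ∈ I3, n ^ 3 * (W p).card ≤ T.card * n ^ k := by
    intro p hp
    obtain ⟨h1, h2, h3⟩ := (mem_filter.mp hp).2
    have hk : 3 ≤ k := by
      have := Fintype.card_le_of_injective _ (three_inj h1 h2 h3)
      simpa using this
    have h4 := card_pullS (V := V) ![p.1, p.2.1, p.2.2] (three_inj h1 h2 h3) (W p) T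
      (fun w hw => mem_filter.mpr ⟨mem_univ _, (mem_filter.mp hw).2⟩)
    rw [← hn] at h4
    calc n ^ 3 * (W p).card ≤ n ^ 3 * (T.card * n ^ (k - 3)) := Nat.mul_le_mul_left _ h4
      _ = T.card * (n ^ 3 * n ^ (k - 3)) := by ring
      _ = T.card * n ^ k := by rw [← pow_add, Nat.add_sub_cancel' hk]
  have hsub : tf L (EK κ h) ⊆ I3.biUnion W := by
    intro w hw
    obtain ⟨i, j, l, h1, h2, h3, h4, h5, h6⟩ := tf_three hNT hA hB hw
    exact mem_biUnion.mpr ⟨(i, j, l), mem_filter.mpr ⟨mem_univ _, h1, h2, h3⟩,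
      mem_filter.mpr ⟨mem_univ _, h4, h5, h6⟩⟩
  have c3 : I3.card ≤ k ^ 3 := by
    refine (card_le_univ _).trans (le_of_eq ?_)
    rw [Fintype.card_prod, Fintype.card_prod, Fintype.card_fin]; ring
  unfold cpE
  calc n ^ 3 * (tf L (EK κ h)).card ≤ n ^ 3 * ∑ p ∈ I3, (W p).card :=
        Nat.mul_le_mul_left _ ((card_le_card hsub).trans card_biUnion_le)
    _ = ∑ p ∈ I3, n ^ 3 * (W p).card := by rw [mul_sum]
    _ ≤ ∑ _p ∈ I3, T.card * n ^ k := sum_le_sum hW
    _ = I3.card * (T.card * n ^ k) := by rw [sum_const, smul_eq_mul]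
    _ ≤ k ^ 3 * (sz h 3 * sz h 4 * (sz h 3 + sz h 4) * n ^ k) :=
        Nat.mul_le_mul c3 (Nat.mul_le_mul_right _ hT)
    _ = _ := by ring

/-- the class of the third vertex -/
def ze (κ : Bool) : Fin 5 := if κ = true then 2 else 0

theorem one_edge : ∀ κ, Pk κ 3 4 (ze κ) + (Pk κ 3 4 2 + (Pk κ 3 (ze κ) 2 + Pk κ 4 (ze κ) 2)) = 1 := by
  decide +kernel

/-- the pairs of the third and the fourth vertex -/
noncomputable def W2 (κ : Bool) (h : V → Fin 5) : Finset (V × V) :=
  univ.filter fun p => h p.1 = ze κ ∧ h p.2 = 2 ∧ p.1 ≠ p.2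

theorem quad (g' : V → Fin 3) (a b z u : V) :
    (if h a = 3 then 1 else 0) * ((if h b = 4 then 1 else 0) *
      (if h z = ze κ ∧ h u = 2 ∧ z ≠ u then 1 else 0)) ≤
    (bx (EK κ h) g' a b z + mx (EK κ h) g' a b z) + ((bx (EK κ h) g' a b u + mx (EK κ h) g' a b u) +
      ((bx (EK κ h) g' a z u + mx (EK κ h) g' a z u) +
        (bx (EK κ h) g' b z u + mx (EK κ h) g' b z u))) := by
  by_cases ha : h a = 3
  · by_cases hb : h b = 4
    · by_cases hz : h z = ze κ ∧ h u = 2 ∧ z ≠ u
      · rw [if_pos ha, if_pos hb, if_pos hz]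
        obtain ⟨hz, hu, hzu⟩ := hz
        have n1 : a ≠ b := by rintro rfl; rw [ha] at hb; exact absurd hb (by decide)
        have n2 : a ≠ z := by
          rintro rfl
          rw [ha] at hz
          revert hz
          generalize κ = κ
          revert κ
          decide
        have n3 : a ≠ u := by rintro rfl; rw [ha] at hu; exact absurd hu (by decide)
        have n4 : b ≠ z := by
          rintro rfl
          rw [hb] at hz
          revert hz
          generalize κ = κ
          revert κ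
          decide
        have n5 : b ≠ u := by rintro rfl; rw [hb] at hu; exact absurd hu (by decide)
        by_contra hno
        push Not at hno
        have b1 := balance (g := g') (EK_sy (κ := κ) (h := h)) a b z
        have b2 := balance (g := g') (EK_sy (κ := κ) (h := h)) a b u
        have b3 := balance (g := g') (EK_sy (κ := κ) (h := h)) a z u
        have b4 := balance (g := g') (EK_sy (κ := κ) (h := h)) b z u
        have e1 : EK κ h a b z = Pk κ 3 4 (ze κ) := by rw [EK_of n1 n2 n4, ha, hb, hz]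
        have e2 : EK κ h a b u = Pk κ 3 4 2 := by rw [EK_of n1 n3 n5, ha, hb, hu]
        have e3 : EK κ h a z u = Pk κ 3 (ze κ) 2 := by rw [EK_of n2 n3 hzu, ha, hz, hu]
        have e4 : EK κ h b z u = Pk κ 4 (ze κ) 2 := by rw [EK_of n4 n5 hzu, hb, hz, hu]
        have t1 : Tg g' a b z = Rf (g' a) (g' b) (g' z) := by unfold Tg; rw [if_pos ⟨n1, n2, n4⟩]
        have t2 : Tg g' a b u = Rf (g' a) (g' b) (g' u) := by unfold Tg; rw [if_pos ⟨n1, n3, n5⟩]
        have t3 : Tg g' a z u = Rf (g' a) (g' z) (g' u) := by unfold Tg; rw [if_pos ⟨n2, n3, hzu⟩]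
        have t4 : Tg g' b z u = Rf (g' b) (g' z) (g' u) := by unfold Tg; rw [if_pos ⟨n4, n5, hzu⟩]
        have ho := one_edge κ
        have hr := Rf_one (g' a) (g' b) (g' z) (g' u)
        omega
      · rw [if_neg hz]; simp
    · rw [if_neg hb]; simp
  · rw [if_neg ha]; simp

theorem dist_ge (g' : V → Fin 3) : sz h 3 * (sz h 4 * (W2 κ h).card) ≤
    4 * (Fintype.card V * (S3 (bx (EK κ h) g') + S3 (mx (EK κ h) g'))) := by
  have hs : ∀ d, ∑ a : V, (if h a = d then 1 else 0) = sz h d := by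
    intro d
    unfold sz
    rw [card_filter]
  have h1 : ∑ a : V, ∑ b : V, ∑ z : V, ∑ u : V, (if h a = 3 then 1 else 0) *
      ((if h b = 4 then 1 else 0) * (if h z = ze κ ∧ h u = 2 ∧ z ≠ u then 1 else 0)) =
      sz h 3 * (sz h 4 * (W2 κ h).card) := by
    have e1 : (W2 κ h).card = ∑ z : V, ∑ u : V, (if h z = ze κ ∧ h u = 2 ∧ z ≠ u then 1 else 0) := by
      unfold W2
      rw [card_filter, Fintype.sum_prod_type]
    rw [e1, ← hs 3, ← hs 4, sum_mul]
    refine sum_congr rfl fun a _ => ?_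
    rw [sum_mul, mul_sum]
    refine sum_congr rfl fun b _ => ?_
    rw [mul_sum, mul_sum]
    refine sum_congr rfl fun z _ => ?_
    rw [mul_sum, mul_sum]
  rw [← h1]
  have h2 : ∑ a : V, ∑ b : V, ∑ z : V, ∑ u : V, (if h a = 3 then 1 else 0) *
      ((if h b = 4 then 1 else 0) * (if h z = ze κ ∧ h u = 2 ∧ z ≠ u then 1 else 0)) ≤
      ∑ a : V, ∑ b : V, ∑ z : V, ∑ u : V,
      ((bx (EK κ h) g' a b z + mx (EK κ h) g' a b z) +
      ((bx (EK κ h) g' a b u + mx (EK κ h) g' a b u) +
      ((bx (EK κ h) g' a z u + mx (EK κ h) g' a z u) +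
        (bx (EK κ h) g' b z u + mx (EK κ h) g' b z u)))) :=
    sum_le_sum fun a _ => sum_le_sum fun b _ => sum_le_sum fun z _ => sum_le_sum fun u _ =>
      quad g' a b z u
  refine h2.trans (le_of_eq ?_)
  rw [← S3_add]
  set f : V → V → V → ℕ := fun x y z => bx (EK κ h) g' x y z + mx (EK κ h) g' x y z with hf
  have e : ∀ a b z u : V, (bx (EK κ h) g' a b z + mx (EK κ h) g' a b z) +
      ((bx (EK κ h) g' a b u + mx (EK κ h) g' a b u) +
      ((bx (EK κ h) g' a z u + mx (EK κ h) g' a z u) +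
        (bx (EK κ h) g' b z u + mx (EK κ h) g' b z u))) =
      f a b z + (f a b u + (f a z u + f b z u)) := fun a b z u => rfl
  simp only [e, sum_add_distrib]
  have s1 : ∑ a : V, ∑ b : V, ∑ z : V, ∑ _u : V, f a b z = Fintype.card V * S3 f := by
    unfold S3
    simp only [sum_const, card_univ, smul_eq_mul, ← mul_sum]
  have s2 : ∑ a : V, ∑ b : V, ∑ _z : V, ∑ u : V, f a b u = Fintype.card V * S3 f := by
    unfold S3
    simp only [sum_const, card_univ, smul_eq_mul, ← mul_sum]
  have s3 : ∑ a : V, ∑ _b : V, ∑ z : V, ∑ u : V, f a z u = Fintype.card V * S3 f := by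
    unfold S3
    simp only [sum_const, card_univ, smul_eq_mul, ← mul_sum]
  have s4 : ∑ _a : V, ∑ b : V, ∑ z : V, ∑ u : V, f b z u = Fintype.card V * S3 f := by
    unfold S3
    simp only [sum_const, card_univ, smul_eq_mul]
  rw [s1, s2, s3, s4]
  ring

theorem W2_A : (W2 false h).card = sz h 0 * sz h 2 := by
  unfold sz
  rw [← card_product]
  congr 1
  ext p
  rw [mem_product, mem_filter, mem_filter]
  unfold W2
  rw [mem_filter]
  simp only [mem_univ, true_and]
  constructor
  · rintro ⟨h1, h2, -⟩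
    exact ⟨h1, h2⟩
  · rintro ⟨h1, h2⟩
    refine ⟨h1, h2, fun e => ?_⟩
    rw [e, h2] at h1
    exact absurd h1 (by decide)

theorem W2_B : (W2 true h).card = sz h 2 * sz h 2 - sz h 2 := by
  unfold sz
  rw [← offDiag_card]
  congr 1
  ext p
  rw [mem_offDiag, mem_filter, mem_filter]
  unfold W2
  rw [mem_filter]
  simp only [mem_univ, true_and]
  exact Iff.rfl

theorem card_part (p : Fin 3) : ((univ : Finset V).filter fun v => gK κ h v = p).card =
    ∑ a : Fin 5, if pr κ a = p then sz h a else 0 := by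
  rw [card_filter]
  have e1 : ∀ v : V, (if gK κ h v = p then 1 else 0) =
      ∑ a : Fin 5, if pr κ a = p then (if h v = a then 1 else 0) else 0 := by
    intro v
    unfold gK
    rw [sum_eq_single (h v)]
    · simp
    · intro a _ ha
      rw [if_neg (Ne.symm ha)]
      simp
    · intro hh; exact absurd (mem_univ _) hh
  rw [sum_congr rfl fun v _ => e1 v, sum_comm]
  refine sum_congr rfl fun a _ => ?_
  by_cases hp : pr κ a = p
  · simp only [if_pos hp]
    unfold sz
    rw [card_filter]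
  · simp only [if_neg hp, sum_const_zero]

end

/-- colourings with given sizes of the classes -/
theorem exists_col (n : ℕ) (s : Fin 5 → ℕ) (hs : ∑ a, s a = n) :
    ∃ h : Fin n → Fin 5, ∀ a, sz h a = s a := by
  have hc : Fintype.card (Σ a : Fin 5, Fin (s a)) = n := by
    rw [Fintype.card_sigma]
    simpa using hs
  let e : (Σ a : Fin 5, Fin (s a)) ≃ Fin n := Fintype.equivFinOfCardEq hc
  refine ⟨fun i => (e.symm i).1, fun a => ?_⟩
  unfold sz
  have h1 : ((univ : Finset (Fin n)).filter fun v => (e.symm v).1 = a) =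
      (univ : Finset (Fin (s a))).map
        ⟨fun j => e ⟨a, j⟩, fun i j h => eq_of_heq (Sigma.mk.inj_iff.mp (e.injective h)).2⟩ := by
    ext v
    rw [mem_filter, mem_map]
    constructor
    · rintro ⟨-, h⟩
      obtain ⟨x, rfl⟩ := e.surjective v
      rw [Equiv.symm_apply_apply] at h
      obtain ⟨b, j⟩ := x
      simp only at h
      subst h
      exact ⟨j, mem_univ _, rfl⟩
    · rintro ⟨j, -, rfl⟩
      refine ⟨mem_univ _, ?_⟩
      show (e.symm (e ⟨a, j⟩)).1 = a
      rw [Equiv.symm_apply_apply]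
  rw [h1, card_map, card_univ, Fintype.card_fin]

end Pool.Agent.Run7.h211.GL
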